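import Pool.Agent.T2h96.SN.Stm
import Pool.Agent.T2h61.PR.T_TOP
import Pool.Agent.T2h61.PR.T_INF

/-!
# Task INTG: integrality
-/

set_option autoImplicit false

namespace Pool.Agent.T2h96.SN

open Matrix Pool.Agent.T2h61.PR

namespace INTG

/-- `A` of characteristic zero has a homomorphism to a field of characteristic zero -/
theorem exists_field (A : Type) [CommRing A] [CharZero A] :
    ∃ (K : Type) (_ : Field K) (_ : CharZero K), Nonempty (A →+* K) := by
  have hdis : Disjoint ((⊥ : Ideal A) : Set A)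
      ((Algebra.algebraMapSubmonoid A (nonZeroDivisors ℤ) : Submonoid A) : Set A) := by
    rw [Set.disjoint_left]
    rintro x hx ⟨m, hm, rfl⟩
    have hx0 : (algebraMap ℤ A) m = 0 := hx
    have hm0 : m ≠ 0 := nonZeroDivisors.ne_zero hm
    rw [eq_intCast, Int.cast_eq_zero] at hx0
    exact hm0 hx0
  obtain ⟨P, hP, -, hPd⟩ := Ideal.exists_le_prime_disjoint _ _ hdis
  have hdom : IsDomain (A ⧸ P) := inferInstance
  refine ⟨FractionRing (A ⧸ P), inferInstance, ?_,
    ⟨(algebraMap (A ⧸ P) (FractionRing (A ⧸ P))).comp (Ideal.Quotient.mk P)⟩⟩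
  have hinj : ∀ m : ℤ, ((m : ℤ) : FractionRing (A ⧸ P)) = 0 → m = 0 := by
    intro m hm
    by_contra hm0
    have e : ((m : ℤ) : FractionRing (A ⧸ P)) =
        algebraMap (A ⧸ P) (FractionRing (A ⧸ P)) (Ideal.Quotient.mk P (m : A)) := by simp
    rw [e] at hm
    have h1 := (IsFractionRing.injective (A ⧸ P) (FractionRing (A ⧸ P))) (hm.trans (map_zero _).symm)
    rw [Ideal.Quotient.eq_zero_iff_mem] at h1
    refine Set.disjoint_left.1 hPd h1 ⟨m, mem_nonZeroDivisors_of_ne_zero hm0, ?_⟩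
    simp
  refine ⟨fun a b hab => ?_⟩
  have h2 := hinj ((a : ℤ) - b) (by push_cast; rw [hab, sub_self])
  omega

/-- trace of a product of two opposite transvections -/
theorem trace_two {n : ℕ} {K : Type} [Field K] (i j : Fin n) (h : i ≠ j) (t : K) :
    ((Matrix.transvection i j t * Matrix.transvection j i t : Mn n K)).trace = n + t * t := by
  unfold Matrix.transvection
  rw [mul_add, add_mul, add_mul, Matrix.one_mul, Matrix.mul_one, Matrix.one_mul,
    Matrix.single_mul_single_same, Matrix.trace_add, Matrix.trace_add, Matrix.trace_add,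
    Matrix.trace_one, Matrix.trace_single_eq_of_ne _ _ _ h,
    Matrix.trace_single_eq_of_ne _ _ _ h.symm, Matrix.trace_single_eq_same, Fintype.card_fin]
  ring

end INTG

theorem t_INTG : S_CT → S_RAT → S_PAD → S_INF → S_INTG := by
  intro hCT hRAT hPAD hINF n hn Λ _ hFG hFQ A _ _ hft ρ hρ
  obtain ⟨K, _, _, ⟨φ⟩⟩ := INTG.exists_field A
  choose t ht using hRAT n hn Λ hFQ A hft ρ hρ K φ
  have hcast : Function.Injective (fun q : ℚ => (q : K)) := Rat.cast_injective
  let ψ : A →+* ℚ :=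
    { toFun := t
      map_one' := hcast (by show ((t 1 : ℚ) : K) = ((1 : ℚ) : K); rw [← ht, map_one, Rat.cast_one])
      map_mul' := fun a b => hcast (by
        show ((t (a * b) : ℚ) : K) = ((t a * t b : ℚ) : K)
        rw [← ht, map_mul, Rat.cast_mul, ← ht, ← ht])
      map_zero' := hcast (by
        show ((t 0 : ℚ) : K) = ((0 : ℚ) : K); rw [← ht, map_zero, Rat.cast_zero])
      map_add' := fun a b => hcast (by
        show ((t (a + b) : ℚ) : K) = ((t a + t b : ℚ) : K)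
        rw [← ht, map_add, Rat.cast_add, ← ht, ← ht]) }
  have hi0 : (⟨0, by omega⟩ : Fin n) ≠ ⟨1, by omega⟩ := by
    intro h
    simpa using congrArg Fin.val h
  have hden : ∀ a, (ψ a).den = 1 := by
    intro a
    by_contra hne
    obtain ⟨p, hp, hdvd⟩ := Nat.exists_prime_and_dvd hne
    haveI : Fact p.Prime := ⟨hp⟩
    let κ : A →+* ℚ_[p] := (algebraMap ℚ ℚ_[p]).comp ψ
    let ρ₁ : Λ →* SLn n ℚ_[p] := (Matrix.SpecialLinearGroup.map (n := Fin n) κ).comp ρ
    obtain ⟨ρ', hρ'⟩ := hPAD n (by omega) Λ hFG hFQ p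
    let ρ₂ : Λ →* SLn n ℚ_[p] :=
      (Matrix.SpecialLinearGroup.map (n := Fin n) (PadicInt.Coe.ringHom (p := p))).comp ρ'
    have hinf1 : (Set.range ρ₁).Infinite := by
      choose l hl using fun k : ℤ => hρ ⟨0, by omega⟩ ⟨1, by omega⟩ hi0 (k : A)
      refine Set.infinite_of_injective_forall_mem (f := fun k : ℤ => ρ₁ (l k)) ?_
        (fun k => ⟨l k, rfl⟩)
      intro k k' hkk
      have e : ∀ k : ℤ, ρ₁ (l k) = Pool.Agent.T2h61.PR.tr ⟨0, by omega⟩ ⟨1, by omega⟩ hi0
          ((k : ℤ) : ℚ_[p]) := by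
        intro k
        show Matrix.SpecialLinearGroup.map (n := Fin n) κ (ρ (l k)) = _
        rw [hl k]
        show Matrix.SpecialLinearGroup.map (n := Fin n) κ
          (Pool.Agent.T2h61.PR.tr ⟨0, by omega⟩ ⟨1, by omega⟩ hi0 (k : A)) = _
        rw [map_tr, map_intCast]
      have h1 : ρ₁ (l k) = ρ₁ (l k') := hkk
      rw [e k, e k'] at h1
      have h2 := congrFun (congrFun (congrArg Subtype.val h1) ⟨0, by omega⟩) ⟨1, by omega⟩
      simp [Pool.Agent.T2h61.PR.tr, Matrix.transvection, hi0] at h2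
      exact h2
    have hinf2 : (Set.range ρ₂).Infinite := by
      intro hfin
      apply hINF n p (by omega) Λ ρ' hρ'
      refine (hfin.image (Matrix.SpecialLinearGroup.toGL (n := Fin n) (R := ℚ_[p]))).subset ?_
      rintro _ ⟨l, rfl⟩
      refine ⟨ρ₂ l, ⟨l, rfl⟩, ?_⟩
      apply Units.ext
      rfl
    obtain ⟨l1, hl1⟩ := hρ ⟨0, by omega⟩ ⟨1, by omega⟩ hi0 a
    obtain ⟨l2, hl2⟩ := hρ ⟨1, by omega⟩ ⟨0, by omega⟩ hi0.symm a
    have htr : (ρ₁ (l1 * l2) : Mn n ℚ_[p]).trace = n + κ a * κ a := by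
      have e1 : ρ₁ l1 = Pool.Agent.T2h61.PR.tr ⟨0, by omega⟩ ⟨1, by omega⟩ hi0 (κ a) := by
        show Matrix.SpecialLinearGroup.map (n := Fin n) κ (ρ l1) = _
        rw [hl1]
        exact map_tr κ _ _ hi0 a
      have e2 : ρ₁ l2 = Pool.Agent.T2h61.PR.tr ⟨1, by omega⟩ ⟨0, by omega⟩ hi0.symm (κ a) := by
        show Matrix.SpecialLinearGroup.map (n := Fin n) κ (ρ l2) = _
        rw [hl2]
        exact map_tr κ _ _ hi0.symm a
      rw [map_mul, e1, e2]
      exact INTG.trace_two _ _ hi0 _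
    have hint : ∀ l, ‖(ρ₂ l : Mn n ℚ_[p]).trace‖ ≤ 1 := by
      intro l
      have e : (ρ₂ l : Mn n ℚ_[p]).trace = (((ρ' l : Mn n ℤ_[p]).trace : ℤ_[p]) : ℚ_[p]) := by
        have := (AddMonoidHom.map_trace (PadicInt.Coe.ringHom (p := p)).toAddMonoidHom
          (ρ' l : Mn n ℤ_[p]))
        exact this.symm
      rw [e]
      exact PadicInt.norm_le_one _
    have hnorm : ‖(n : ℚ_[p]) + κ a * κ a‖ ≤ 1 := by
      rw [← htr]
      rcases hCT n hn Λ hFG hFQ ℚ_[p] ρ₁ ρ₂ hinf1 hinf2 (l1 * l2) with h | h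
      · rw [h]; exact hint _
      · rw [h]; exact hint _
    have hn1 : ‖(n : ℚ_[p])‖ ≤ 1 := by
      have := Padic.norm_int_le_one (p := p) (n : ℤ)
      rwa [Int.cast_natCast] at this
    have hsq : ‖κ a * κ a‖ ≤ 1 := by
      have e : κ a * κ a = ((n : ℚ_[p]) + κ a * κ a) + (-(n : ℚ_[p])) := by ring
      rw [e]
      refine (Padic.nonarchimedean _ _).trans (max_le hnorm ?_)
      rw [norm_neg]
      exact hn1
    have hle : ‖κ a‖ ≤ 1 := by
      rw [norm_mul] at hsq
      by_contra hcon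
      push Not at hcon
      nlinarith
    have h3 : ‖((ψ a : ℚ) : ℚ_[p])‖ ≤ 1 := hle
    have h4 := PadicInt.isUnit_den (ψ a) h3
    rw [PadicInt.isUnit_iff] at h4
    have h5 : ‖(((ψ a).den : ℤ) : ℤ_[p])‖ < 1 := by
      rw [PadicInt.norm_int_lt_one_iff_dvd]
      exact_mod_cast hdvd
    have h6 : (((ψ a).den : ℤ) : ℤ_[p]) = ((ψ a).den : ℤ_[p]) := by simp
    rw [h6, h4] at h5
    exact lt_irrefl _ h5
  have hnum : ∀ a, ((ψ a).num : ℚ) = ψ a := by
    intro a
    nth_rw 2 [← Rat.num_div_den (ψ a)]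
    rw [hden a]
    simp
  have hz : Function.Injective (fun z : ℤ => (z : ℚ)) := Int.cast_injective
  exact ⟨{ toFun := fun a => (ψ a).num
           map_one' := hz (by show (((ψ 1).num : ℤ) : ℚ) = ((1 : ℤ) : ℚ); rw [hnum]; simp)
           map_mul' := fun a b => hz (by
            show (((ψ (a * b)).num : ℤ) : ℚ) = (((ψ a).num * (ψ b).num : ℤ) : ℚ)
            rw [hnum, Int.cast_mul, hnum, hnum, map_mul])
           map_zero' := hz (by show (((ψ 0).num : ℤ) : ℚ) = ((0 : ℤ) : ℚ); rw [hnum]; simp)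
           map_add' := fun a b => hz (by
            show (((ψ (a + b)).num : ℤ) : ℚ) = (((ψ a).num + (ψ b).num : ℤ) : ℚ)
            rw [hnum, Int.cast_add, hnum, hnum, map_add]) }⟩

end Pool.Agent.T2h96.SN
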