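import Pool.Agent.T2h96.SN.NFS

/-! Project SN, task NFC. -/

set_option autoImplicit false

namespace Pool.Agent.T2h96.SN

open Matrix Pool.Agent.T2h61.PR

namespace NFC

/-- a map without proper closed subsets is one cycle -/
theorem cycle (n : ℕ) [NeZero n] (s : Fin n → Fin n)
    (hs : ∀ T : Set (Fin n), T.Nonempty → (∀ t ∈ T, s t ∈ T) → T = Set.univ) :
    ∃ π : Equiv.Perm (Fin n), ∀ k, s (π k) = π (k + 1) := by
  have hper : 0 ∈ Function.periodicPts s := by
    have h1 := hs {t | ∃ k : ℕ, 0 < k ∧ s^[k] 0 = t} ⟨s 0, 1, one_pos, rfl⟩ (by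
      rintro t ⟨k, hk, rfl⟩
      exact ⟨k + 1, Nat.succ_pos k, Function.iterate_succ_apply' s k 0⟩)
    have h2 : (0 : Fin n) ∈ {t | ∃ k : ℕ, 0 < k ∧ s^[k] 0 = t} := by rw [h1]; trivial
    obtain ⟨k, hk, h3⟩ := h2
    exact ⟨k, hk, h3⟩
  set p := Function.minimalPeriod s (0 : Fin n) with hp
  have hp0 : 0 < p := Function.minimalPeriod_pos_of_mem_periodicPts hper
  have hmod : ∀ k : ℕ, s^[k % p] 0 = s^[k] 0 := fun k => Function.iterate_mod_minimalPeriod_eq
  have hsurj : ∀ t : Fin n, ∃ k : ℕ, k < p ∧ s^[k] 0 = t := by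
    have h1 := hs {t | ∃ k : ℕ, k < p ∧ s^[k] 0 = t} ⟨0, 0, hp0, rfl⟩ (by
      rintro t ⟨k, hk, rfl⟩
      refine ⟨(k + 1) % p, Nat.mod_lt _ hp0, ?_⟩
      rw [hmod, Function.iterate_succ_apply'])
    intro t
    have h2 : t ∈ {t | ∃ k : ℕ, k < p ∧ s^[k] 0 = t} := by rw [h1]; trivial
    exact h2
  have hinj : Function.Injective (fun k : Fin p => s^[k.val] (0 : Fin n)) := by
    intro a b hab
    exact Fin.ext (Function.iterate_injOn_Iio_minimalPeriod (f := s) (x := (0 : Fin n)) a.2 b.2 hab)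
  have hpn : p = n := by
    have hbij : Function.Bijective (fun k : Fin p => s^[k.val] (0 : Fin n)) :=
      ⟨hinj, fun t => by
        obtain ⟨k, hk, h⟩ := hsurj t
        exact ⟨⟨k, hk⟩, h⟩⟩
    have := Fintype.card_of_bijective hbij
    simpa using this
  have hbij : Function.Bijective (fun k : Fin n => s^[k.val] (0 : Fin n)) := by
    constructor
    · intro a b hab
      have ha : a.val ∈ Set.Iio (Function.minimalPeriod s (0 : Fin n)) := by
        rw [← hp, hpn]; exact a.2
      have hb : b.val ∈ Set.Iio (Function.minimalPeriod s (0 : Fin n)) := by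
        rw [← hp, hpn]; exact b.2
      exact Fin.ext (Function.iterate_injOn_Iio_minimalPeriod ha hb hab)
    · intro t
      obtain ⟨k, hk, h⟩ := hsurj t
      exact ⟨⟨k, hpn ▸ hk⟩, h⟩
  refine ⟨Equiv.ofBijective _ hbij, fun k => ?_⟩
  show s (s^[k.val] 0) = s^[(k + 1 : Fin n).val] 0
  rw [← Function.iterate_succ_apply' s, NFS.val_succ]
  have h1 := hmod (k.val + 1)
  rw [hpn] at h1
  exact h1.symm

end NFC

theorem t_NFC : S_NFC := by
  intro n _ F _ hn y b hb s c hc hs hT
  obtain ⟨π, hπ⟩ := NFC.cycle n s hT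
  set b' : Module.Basis (Fin n) F (Fin n → F) := b.reindex π.symm with hb'
  have hb'k : ∀ k, b' k = b (π k) := by
    intro k
    rw [hb', Module.Basis.reindex_apply, Equiv.symm_symm]
  set e := Pi.basisFun F (Fin n) with he
  set g : (Mn n F)ˣ := ⟨e.toMatrix b', b'.toMatrix e, Module.Basis.toMatrix_mul_toMatrix_flip e b',
    Module.Basis.toMatrix_mul_toMatrix_flip b' e⟩ with hg
  have hgk : ∀ k, (g : Mn n F) *ᵥ Pi.single k 1 = b (π k) := by
    intro k
    rw [Matrix.mulVec_single_one, ← hb'k]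
    funext i
    show e.toMatrix b' i k = b' k i
    rw [Module.Basis.toMatrix_apply, he, Pi.basisFun_repr]
  refine ⟨π, g, fun k => c (π k), fun k => hc _, fun k => ?_⟩
  have key : (y (π k) : Mn n F) * (g : Mn n F) = (g : Mn n F) * cy k (c (π k)) := by
    apply Matrix.ext_of_mulVec_single
    intro i
    rw [← Matrix.mulVec_mulVec, ← Matrix.mulVec_mulVec, hgk]
    unfold cy
    rw [Matrix.add_mulVec, Matrix.one_mulVec, Matrix.mulVec_add, hgk]
    by_cases hik : i = k
    · subst hik
      rw [hs, hπ]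
      congr 1
      have h1 : (Matrix.single (i + 1) i (c (π i)) : Mn n F) *ᵥ Pi.single i 1 =
          c (π i) • Pi.single (i + 1) 1 := by
        rw [Matrix.mulVec_single_one]
        funext t
        by_cases ht : t = i + 1
        · subst ht
          simp [Matrix.col]
        · rw [Pi.smul_apply, Pi.single_eq_of_ne ht, smul_zero]
          show Matrix.single (i + 1) i (c (π i)) t i = 0
          exact Matrix.single_apply_of_ne _ _ _ _ _ (fun h => ht h.1.symm)
      rw [h1, Matrix.mulVec_smul, hgk]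
    · rw [hb (π i) (π k) (fun h => hik (π.injective h))]
      have h1 : (Matrix.single (k + 1) k (c (π k)) : Mn n F) *ᵥ Pi.single i 1 = 0 := by
        rw [Matrix.mulVec_single_one]
        funext t
        show Matrix.single (k + 1) k (c (π k)) t i = 0
        exact Matrix.single_apply_of_ne _ _ _ _ _ (fun h => hik h.2.symm)
      rw [h1, Matrix.mulVec_zero, add_zero]
  rw [← key, mul_assoc, Units.mul_inv, mul_one]

end Pool.Agent.T2h96.SN
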