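import Pool.Agent.T2h96.SN.Stm

/-!
# Task R4: all elementary matrices are in the range
-/

set_option autoImplicit false

namespace Pool.Agent.T2h96.SN

open Matrix Pool.Agent.T2h61.PR

namespace R4

variable {n : ℕ} {A : Type} [CommRing A] {Λ : Type} [Group Λ]

/-- the commutator relation for transvections -/
theorem comm_rel (i j k : Fin n) (hij : i ≠ j) (hjk : j ≠ k) (hik : i ≠ k) (a b : A) :
    (transvection i j a : Mn n A) * transvection j k b =
      transvection i k (a * b) * (transvection j k b * transvection i j a) := by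
  have e1 : (Matrix.single j k b : Mn n A) * Matrix.single i j a = 0 :=
    Matrix.single_mul_single_of_ne b j k i hik.symm a
  have e2 : (Matrix.single i k (a * b) : Mn n A) * Matrix.single j k b = 0 :=
    Matrix.single_mul_single_of_ne (a * b) i k j hjk.symm b
  have e3 : (Matrix.single i k (a * b) : Mn n A) * Matrix.single i j a = 0 :=
    Matrix.single_mul_single_of_ne (a * b) i k i hik.symm a
  have e4 : (Matrix.single i j a : Mn n A) * Matrix.single j k b = Matrix.single i k (a * b) :=
    Matrix.single_mul_single_same a i j k b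
  have e5 : (transvection j k b : Mn n A) * transvection i j a =
      1 + Matrix.single j k b + Matrix.single i j a := by
    simp only [transvection, Matrix.mul_add, Matrix.add_mul, Matrix.mul_one, Matrix.one_mul, e1]
    abel
  rw [e5]
  simp only [transvection, Matrix.mul_add, Matrix.add_mul, Matrix.mul_one, Matrix.one_mul, e2, e3,
    e4]
  abel

theorem z_pow {z : A} {M : SLn n A} {i j : Fin n} (hij : i ≠ j) {a : A}
    (h : (M : Mn n A) = z • (transvection i j a : Mn n A)) : z ^ n = 1 := by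
  have h1 : (M : Mn n A).det = 1 := M.2
  rw [h, Matrix.det_smul, Matrix.det_transvection_of_ne i j hij] at h1
  simpa using h1

/-- entries up to scalars -/
def Jp (ρ : Λ →* SLn n A) (i j : Fin n) (a : A) : Prop :=
  ∃ (l : Λ) (z : A), (ρ l : Mn n A) = z • (transvection i j a : Mn n A)

/-- entries -/
def Jx (ρ : Λ →* SLn n A) (i j : Fin n) (a : A) : Prop :=
  ∃ l : Λ, (ρ l : Mn n A) = (transvection i j a : Mn n A)

theorem Jx.jp {ρ : Λ →* SLn n A} {i j : Fin n} {a : A} (h : Jx ρ i j a) : Jp ρ i j a := by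
  obtain ⟨l, hl⟩ := h
  exact ⟨l, 1, by rw [hl, one_smul]⟩

theorem Jp.zero (ρ : Λ →* SLn n A) (i j : Fin n) : Jp ρ i j 0 :=
  ⟨1, 1, by simp [transvection]⟩

theorem Jp.add {ρ : Λ →* SLn n A} {i j : Fin n} (hij : i ≠ j) {a b : A} (ha : Jp ρ i j a)
    (hb : Jp ρ i j b) : Jp ρ i j (a + b) := by
  obtain ⟨l, z, hl⟩ := ha
  obtain ⟨m, w, hm⟩ := hb
  refine ⟨l * m, z * w, ?_⟩
  rw [map_mul, Matrix.SpecialLinearGroup.coe_mul, hl, hm, Matrix.smul_mul, Matrix.mul_smul, smul_smul,
    Matrix.transvection_mul_transvection_same _ _ hij]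

theorem Jp.neg {ρ : Λ →* SLn n A} (hn : 1 ≤ n) {i j : Fin n} (hij : i ≠ j) {a : A}
    (ha : Jp ρ i j a) : Jp ρ i j (-a) := by
  obtain ⟨l, z, hl⟩ := ha
  have hz := z_pow hij hl
  have hz' : z * z ^ (n - 1) = 1 := by
    rw [← pow_succ']
    rwa [Nat.sub_add_cancel hn]
  refine ⟨l⁻¹, z ^ (n - 1), ?_⟩
  have h2 : (ρ l : Mn n A) * (z ^ (n - 1) • (transvection i j (-a) : Mn n A)) = 1 := by
    rw [hl, Matrix.smul_mul, Matrix.mul_smul, smul_smul, hz', one_smul,
      Matrix.transvection_mul_transvection_same _ _ hij, add_neg_cancel,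
      Matrix.transvection_zero]
  have h3 : (ρ l⁻¹ : Mn n A) * (ρ l : Mn n A) = 1 := by
    have h4 : ρ l⁻¹ * ρ l = 1 := by
      rw [← map_mul, inv_mul_cancel, map_one]
    exact congrArg Subtype.val h4
  calc (ρ l⁻¹ : Mn n A) = (ρ l⁻¹ : Mn n A) * ((ρ l : Mn n A) *
        (z ^ (n - 1) • (transvection i j (-a) : Mn n A))) := by rw [h2, Matrix.mul_one]
    _ = _ := by rw [← Matrix.mul_assoc, h3, Matrix.one_mul]

theorem Jp.mul {ρ : Λ →* SLn n A} {i j k : Fin n} (hij : i ≠ j) (hjk : j ≠ k) (hik : i ≠ k)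
    {a b : A} (ha : Jp ρ i j a) (hb : Jp ρ j k b) : Jx ρ i k (a * b) := by
  obtain ⟨l, z, hl⟩ := ha
  obtain ⟨m, w, hm⟩ := hb
  refine ⟨l * m * l⁻¹ * m⁻¹, ?_⟩
  have hT : ρ l * ρ m = (tr i k hik (a * b) : SLn n A) * (ρ m * ρ l) := by
    apply Subtype.ext
    change (ρ l : Mn n A) * (ρ m : Mn n A) =
      (transvection i k (a * b) : Mn n A) * ((ρ m : Mn n A) * (ρ l : Mn n A))
    rw [hl, hm]
    simp only [Matrix.smul_mul, Matrix.mul_smul, smul_smul]
    rw [comm_rel i j k hij hjk hik a b, mul_comm z w]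
  have h2 : ρ (l * m * l⁻¹ * m⁻¹) = tr i k hik (a * b) := by
    rw [map_mul, map_mul, map_mul, map_inv, map_inv, hT]
    group
  rw [h2]
  rfl

/-- the weights of the elementary matrices reached -/
def w (τ : A) (i j : Fin n) : A := if i.val < j.val then τ else 1

theorem mod_lt_two {a m : ℕ} (h : a < 2 * m) : a % m = if a < m then a else a - m := by
  split_ifs with h1
  · exact Nat.mod_eq_of_lt h1
  · rw [Nat.mod_eq_sub_mod (by omega), Nat.mod_eq_of_lt (by omega)]

theorem cy_eq [NeZero n] (k : Fin n) (c : A) :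
    (cy k c : Mn n A) = transvection (k + 1) k c := rfl

theorem val_succ [NeZero n] (hn : 3 ≤ n) (k : Fin n) : (k + 1 : Fin n).val = (k.val + 1) % n := by
  rw [Fin.val_add]
  congr 2
  rw [Fin.val_one']
  exact Nat.mod_eq_of_lt (by omega)

theorem base [NeZero n] (hn : 3 ≤ n) {x : Fin n → Λ} {τ : A} {ρ : Λ →* SLn n A}
    (h : CF x τ ρ) (i j : Fin n) (hij : i.val = (j.val + 1) % n) : Jp ρ i j (w τ i j) := by
  obtain ⟨π, ζ, hπ⟩ := h
  have hi : i = j + 1 := Fin.ext (by rw [hij, val_succ hn])
  subst hi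
  refine ⟨x (π j), ζ j, ?_⟩
  rw [hπ j, cy_eq]
  congr 2
  unfold wt w
  have h1 : (j + 1 : Fin n) = 0 ↔ (j + 1 : Fin n).val < j.val := by
    have h0 : ((0 : Fin n) : ℕ) = 0 := by simp
    have hj := j.2
    have h2 := hij
    rw [mod_lt_two (by omega)] at h2
    rw [Fin.ext_iff, h0]
    split_ifs at h2 <;> omega
  simp only [h1]

theorem step [NeZero n] (hn : 3 ≤ n) {x : Fin n → Λ} {τ : A} {ρ : Λ →* SLn n A}
    (h : CF x τ ρ) : ∀ s : ℕ, 1 ≤ s → s < n → ∀ i j : Fin n, i.val = (j.val + s) % n →
      Jp ρ i j (w τ i j) := by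
  intro s hs
  induction s, hs using Nat.le_induction with
  | base => intro _ i j hij; exact base hn h i j hij
  | succ s hs ih =>
    intro hsn i j hij
    have hm : (j.val + s) % n < n := Nat.mod_lt _ (by omega)
    let m : Fin n := ⟨(j.val + s) % n, hm⟩
    have hmv : m.val = (j.val + s) % n := rfl
    have h1 := ih (by omega) m j hmv
    have him : i.val = (m.val + 1) % n := by
      rw [hij, hmv, Nat.mod_add_mod, add_assoc]
    have h2 := base hn h i m him
    have hjn := j.2
    have e1 := mod_lt_two (a := j.val + s) (m := n) (by omega)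
    have e2 := mod_lt_two (a := j.val + (s + 1)) (m := n) (by omega)
    rw [e1] at hmv
    rw [e2] at hij
    have d1 : i ≠ m := by
      intro he
      rw [he] at hij
      split_ifs at hij hmv <;> omega
    have d2 : m ≠ j := by
      intro he
      rw [he] at hmv
      split_ifs at hmv <;> omega
    have d3 : i ≠ j := by
      intro he
      rw [he] at hij
      split_ifs at hij <;> omega
    have h3 := (Jp.mul d1 d2 d3 h2 h1).jp
    have e3 : w τ i m * w τ m j = w τ i j := by
      unfold w
      split_ifs at hij hmv with c1 c2 c3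
      · rw [if_neg (by omega), if_neg (by omega), if_neg (by omega), one_mul]
      · omega
      · rw [if_pos (by omega), if_neg (by omega), if_pos (by omega), mul_one]
      · rw [if_neg (by omega), if_pos (by omega), if_pos (by omega), one_mul]
    rw [← e3]
    exact h3

theorem all [NeZero n] (hn : 3 ≤ n) {x : Fin n → Λ} {τ : A} {ρ : Λ →* SLn n A}
    (h : CF x τ ρ) (i j : Fin n) (hij : i ≠ j) : Jp ρ i j (w τ i j) := by
  have hi := i.2
  have hj := j.2
  have hne : i.val ≠ j.val := fun he => hij (Fin.ext he)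
  rcases Nat.lt_or_ge i.val j.val with hlt | hge
  · refine step hn h (i.val + n - j.val) (by omega) (by omega) i j ?_
    have : j.val + (i.val + n - j.val) = i.val + n := by omega
    rw [this, Nat.add_mod_right, Nat.mod_eq_of_lt hi]
  · refine step hn h (i.val - j.val) (by omega) (by omega) i j ?_
    have : j.val + (i.val - j.val) = i.val := by omega
    rw [this, Nat.mod_eq_of_lt hi]

theorem w_mul (τ : A) (i j : Fin n) (hij : i ≠ j) : w τ i j * w τ j i = τ := by
  have hne : i.val ≠ j.val := fun he => hij (Fin.ext he)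
  unfold w
  rcases Nat.lt_or_ge i.val j.val with hlt | hge
  · rw [if_pos hlt, if_neg (by omega), mul_one]
  · rw [if_neg (by omega), if_pos (by omega), one_mul]

theorem third (hn : 3 ≤ n) (i j : Fin n) : ∃ k : Fin n, k ≠ i ∧ k ≠ j := by
  by_contra hc
  push Not at hc
  have h1 : (Finset.univ : Finset (Fin n)) ⊆ {i, j} := by
    intro k _
    by_cases hk : k = i
    · simp [hk]
    · simp [hc k hk]
  have h2 := Finset.card_le_card h1
  have h3 : ({i, j} : Finset (Fin n)).card ≤ 2 := Finset.card_le_two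
  simp at h2
  omega

end R4

open R4 in
theorem t_R4 : S_R4 := by
  intro n _ hn Λ _ x A _ τ ρ hcl hτ hCF i j h a
  -- multiplication by `τ`
  have hmulτ : ∀ b : A, Jp ρ i j b → Jx ρ i j (b * τ) := by
    intro b hb
    obtain ⟨k, hki, hkj⟩ := third hn i j
    have h1 := (Jp.mul h hkj.symm hki.symm hb (R4.all hn hCF j k hkj.symm)).jp
    have h2 := Jp.mul hki.symm hkj h h1 (R4.all hn hCF k j hkj)
    rwa [mul_assoc, w_mul τ j k hkj.symm] at h2
  -- the subring of multipliers
  let S : Subring A :=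
    { carrier := {p | ∀ b : A, Jp ρ i j b → Jp ρ i j (b * p)}
      mul_mem' := by
        intro p q hp hq b hb
        rw [← mul_assoc]
        exact hq _ (hp _ hb)
      one_mem' := by
        intro b hb
        rwa [mul_one]
      add_mem' := by
        intro p q hp hq b hb
        rw [mul_add]
        exact Jp.add h (hp _ hb) (hq _ hb)
      zero_mem' := by
        intro b _
        rw [mul_zero]
        exact Jp.zero ρ i j
      neg_mem' := by
        intro p hp b hb
        rw [mul_neg]
        exact Jp.neg (by omega) h (hp _ hb) }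
  have hS : S = ⊤ := by
    rw [eq_top_iff, ← hcl]
    refine (Subring.closure_le).2 ?_
    intro y hy
    rw [Set.mem_singleton_iff] at hy
    subst hy
    exact fun b hb => (hmulτ b hb).jp
  have hmul : ∀ b p : A, Jp ρ i j b → Jp ρ i j (b * p) := by
    intro b p hb
    have : p ∈ S := by rw [hS]; trivial
    exact this b hb
  have hw := R4.all hn hCF i j h
  have hwu : IsUnit (w τ i j) := by
    unfold w
    split_ifs
    · exact hτ
    · exact isUnit_one
  obtain ⟨u, hu⟩ := hwu
  obtain ⟨v, hv⟩ := hτ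
  have hall : ∀ p : A, Jp ρ i j p := by
    intro p
    have h1 := hmul _ (((u⁻¹ : Aˣ) : A) * p) hw
    rwa [← hu, ← mul_assoc, Units.mul_inv, one_mul] at h1
  obtain ⟨l, hl⟩ := hmulτ _ (hall (a * ((v⁻¹ : Aˣ) : A)))
  refine ⟨l, Subtype.ext ?_⟩
  rw [hl, ← hv, mul_assoc, Units.inv_mul, mul_one]
  rfl

end Pool.Agent.T2h96.SN
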