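import Pool.Agent.T2h96.SN.T_R4

/-!
# Task R3: `τ` is a unit
-/

set_option autoImplicit false

namespace Pool.Agent.T2h96.SN

open Matrix Pool.Agent.T2h61.PR

namespace R3

variable {n : ℕ} {Q : Type} [CommRing Q] {Λ : Type} [Group Λ]

theorem hom_trivial (hp : commutator Λ = ⊤) {C : Type} [CommGroup C] (f : Λ →* C) (l : Λ) :
    f l = 1 := by
  have h1 : commutator Λ ≤ f.ker := Abelianization.commutator_subset_ker f
  rw [hp] at h1
  exact h1 (Subgroup.mem_top l)

/-- the entries `i j` with `i < j + s` are those of the identity -/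
def P (σ : Λ →* SLn n Q) (s : ℕ) : Prop :=
  ∀ (l : Λ) (i j : Fin n), i.val < j.val + s → (σ l : Mn n Q) i j = (1 : Mn n Q) i j

theorem coe_mul' (σ : Λ →* SLn n Q) (l m : Λ) (i j : Fin n) :
    (σ (l * m) : Mn n Q) i j = ∑ k, (σ l : Mn n Q) i k * (σ m : Mn n Q) k j := by
  rw [map_mul]
  rfl

theorem coe_one' (σ : Λ →* SLn n Q) : (σ 1 : Mn n Q) = 1 := by
  rw [map_one]
  rfl

theorem P_one (hp : commutator Λ = ⊤) {σ : Λ →* SLn n Q} (h : P σ 0) : P σ 1 := by
  have hdiag : ∀ (l m : Λ) (i : Fin n),
      (σ (l * m) : Mn n Q) i i = (σ l : Mn n Q) i i * (σ m : Mn n Q) i i := by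
    intro l m i
    rw [coe_mul']
    refine Finset.sum_eq_single i ?_ (fun hi => absurd (Finset.mem_univ i) hi)
    intro k _ hk
    rcases lt_or_gt_of_ne (fun he => hk (Fin.ext he) : k.val ≠ i.val) with h1 | h1
    · rw [h m k i (by omega), Matrix.one_apply_ne hk, mul_zero]
    · rw [h l i k (by omega), Matrix.one_apply_ne hk.symm, zero_mul]
  intro l i j hij
  rcases Nat.lt_or_ge i.val j.val with h1 | h1
  · exact h l i j (by omega)
  · have hij' : i = j := Fin.ext (by omega)
    subst hij'
    let f : Λ →* Q :=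
      { toFun := fun l => (σ l : Mn n Q) i i
        map_one' := by
          rw [coe_one', Matrix.one_apply_eq]
        map_mul' := fun a b => hdiag a b i }
    have h2 := hom_trivial hp f.toHomUnits l
    have h3 : f l = 1 := by
      rw [← MonoidHom.coe_toHomUnits, h2, Units.val_one]
    rw [Matrix.one_apply_eq]
    exact h3

theorem P_succ (hp : commutator Λ = ⊤) {σ : Λ →* SLn n Q} {s : ℕ} (hs : 1 ≤ s) (h : P σ s) :
    P σ (s + 1) := by
  intro l i j hij
  rcases Nat.lt_or_ge i.val (j.val + s) with h1 | h1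
  · exact h l i j h1
  · have hij' : i.val = j.val + s := by omega
    have hne : i ≠ j := by
      intro he
      rw [he] at hij'
      omega
    have hadd : ∀ (l m : Λ),
        (σ (l * m) : Mn n Q) i j = (σ l : Mn n Q) i j + (σ m : Mn n Q) i j := by
      intro l m
      rw [coe_mul']
      have e1 : ∀ k : Fin n, (σ l : Mn n Q) i k * (σ m : Mn n Q) k j =
          (if k = j then (σ l : Mn n Q) i j else 0) + if k = i then (σ m : Mn n Q) i j else 0 := by
        intro k
        by_cases hkj : k = j
        · rw [if_pos hkj, if_neg (by rw [hkj]; exact hne.symm), hkj,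
            h m j j (by omega), Matrix.one_apply_eq, mul_one, add_zero]
        · by_cases hki : k = i
          · rw [if_neg hkj, if_pos hki, hki, h l i i (by omega), Matrix.one_apply_eq, one_mul,
              zero_add]
          · rw [if_neg hkj, if_neg hki, add_zero]
            have hkj' : k.val ≠ j.val := fun he => hkj (Fin.ext he)
            rcases Nat.lt_or_ge k.val j.val with h2 | h2
            · rw [h m k j (by omega), Matrix.one_apply_ne hkj, mul_zero]
            · rw [h l i k (by omega), Matrix.one_apply_ne (Ne.symm hki), zero_mul]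
      rw [Finset.sum_congr rfl (fun k _ => e1 k), Finset.sum_add_distrib]
      simp
    let f : Λ →* Multiplicative Q :=
      { toFun := fun l => Multiplicative.ofAdd ((σ l : Mn n Q) i j)
        map_one' := by
          rw [coe_one', Matrix.one_apply_ne hne]
          rfl
        map_mul' := fun a b => by
          rw [hadd a b]
          rfl }
    have h2 : f l = 1 := hom_trivial hp f l
    rw [Matrix.one_apply_ne hne]
    exact h2

theorem P_all (hp : commutator Λ = ⊤) {σ : Λ →* SLn n Q} (h : P σ 0) : ∀ s : ℕ, P σ (s + 1) := by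
  intro s
  induction s with
  | zero => exact P_one hp h
  | succ s ih => exact P_succ hp (by omega) ih

theorem eq_one (hp : commutator Λ = ⊤) {σ : Λ →* SLn n Q} (h : P σ 0) (l : Λ) :
    (σ l : Mn n Q) = 1 := by
  ext i j
  have := i.2
  exact P_all hp h n l i j (by omega)

/-- the lower triangular matrices -/
theorem lower {x : Fin n → Λ} (hx : Subgroup.closure (Set.range x) = ⊤) {σ : Λ →* SLn n Q}
    (h : ∀ k, ∀ i j : Fin n, i < j → (σ (x k) : Mn n Q) i j = 0) : P σ 0 := by
  have key : ∀ l : Λ, BlockTriangular (σ l : Mn n Q) (fun i : Fin n => OrderDual.toDual i) := by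
    intro l
    have hl : l ∈ Subgroup.closure (Set.range x) := by rw [hx]; trivial
    induction hl using Subgroup.closure_induction with
    | mem y hy =>
      obtain ⟨k, rfl⟩ := hy
      intro i j hij
      exact h k i j (OrderDual.toDual_lt_toDual.1 hij)
    | one =>
      rw [coe_one']
      exact blockTriangular_one
    | mul a b _ _ ha hb =>
      have e : (σ (a * b) : Mn n Q) = (σ a : Mn n Q) * (σ b : Mn n Q) := by
        rw [map_mul]
        rfl
      rw [e]
      exact ha.mul hb
    | inv a _ ha =>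
      have e1 : (σ a : Mn n Q) * (σ a⁻¹ : Mn n Q) = 1 := by
        have h4 : σ a * σ a⁻¹ = 1 := by
          rw [← map_mul, mul_inv_cancel, map_one]
        exact congrArg Subtype.val h4
      have e2 : (σ a⁻¹ : Mn n Q) * (σ a : Mn n Q) = 1 := by
        have h4 : σ a⁻¹ * σ a = 1 := by
          rw [← map_mul, inv_mul_cancel, map_one]
        exact congrArg Subtype.val h4
      letI : Invertible (σ a : Mn n Q) := ⟨(σ a⁻¹ : Mn n Q), e2, e1⟩
      have e3 : (σ a⁻¹ : Mn n Q) = (σ a : Mn n Q)⁻¹ := (Matrix.inv_eq_left_inv e2).symm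
      rw [e3]
      exact blockTriangular_inv_of_blockTriangular ha
  intro l i j hij
  have hij' : i < j := Fin.lt_def.2 (by omega)
  rw [Matrix.one_apply_ne hij'.ne]
  exact key l (OrderDual.toDual_lt_toDual.2 hij')

end R3

open R3 in
theorem t_R3 : S_R3 := by
  intro n _ hn Λ _ x hx hp R _ τ ρ hCF
  obtain ⟨π, ζ, hπ⟩ := hCF
  let q : R →+* R ⧸ Ideal.span {τ} := Ideal.Quotient.mk _
  have hq : q τ = 0 := Ideal.Quotient.eq_zero_iff_mem.2 (Ideal.mem_span_singleton_self τ)
  let σ : Λ →* SLn n (R ⧸ Ideal.span {τ}) := (Matrix.SpecialLinearGroup.map q).comp ρ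
  have hσ : ∀ (l : Λ) (i j : Fin n), (σ l : Mn n (R ⧸ Ideal.span {τ})) i j = q ((ρ l : Mn n R) i j) := fun l i j => rfl
  have hent : ∀ (k i j : Fin n), (σ (x (π k)) : Mn n (R ⧸ Ideal.span {τ})) i j =
      q (ζ k) * ((if i = j then 1 else 0) + if k + 1 = i ∧ k = j then q (wt τ k) else 0) := by
    intro k i j
    rw [hσ, hπ k]
    change q (ζ k * ((1 : Mn n R) + Matrix.single (k + 1) k (wt τ k)) i j) = _
    rw [map_mul, Matrix.add_apply, map_add, Matrix.one_apply, Matrix.single_apply]
    split_ifs <;> simp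
  have hP : P σ 0 := by
    refine lower hx ?_
    intro k i j hij
    obtain ⟨k, rfl⟩ := π.surjective k
    rw [hent k i j, if_neg hij.ne]
    by_cases hc : k + 1 = i ∧ k = j
    · obtain ⟨hc1, hc2⟩ := hc
      have h1 : (k + 1 : Fin n) < k := by rw [hc1]; rwa [← hc2] at hij
      have h2 : k + 1 = 0 := by
        have hk := k.2
        have h3 := R4.val_succ hn k
        have h4 : (k + 1 : Fin n).val < k.val := h1
        rw [R4.mod_lt_two (by omega)] at h3
        have h0 : ((0 : Fin n) : ℕ) = 0 := by simp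
        rw [Fin.ext_iff, h0]
        split_ifs at h3 <;> omega
      rw [if_pos ⟨hc1, hc2⟩, wt, if_pos h2, hq]
      simp
    · rw [if_neg hc]
      simp
  have h1 : ∀ i j : Fin n, (σ (x (π 0)) : Mn n (R ⧸ Ideal.span {τ})) i j =
      (1 : Mn n (R ⧸ Ideal.span {τ})) i j := by
    intro i j
    rw [eq_one hp hP]
  have h01 : ((0 : Fin n) + 1) ≠ 0 := by
    intro he
    have h2 := R4.val_succ hn 0
    have h0 : ((0 : Fin n) : ℕ) = 0 := by simp
    rw [he, h0, Nat.mod_eq_of_lt (by omega)] at h2
    omega
  have ha := h1 0 0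
  have hb := h1 (0 + 1) 0
  rw [hent, Matrix.one_apply_eq, if_pos rfl, if_neg (fun h => h01 h.1), add_zero, mul_one] at ha
  rw [hent, Matrix.one_apply_ne h01, if_neg h01, if_pos ⟨rfl, rfl⟩, wt, if_neg h01, ha, map_one,
    zero_add, one_mul] at hb
  have h5 : Ideal.span {τ} = ⊤ := by
    rw [Ideal.eq_top_iff_one, ← Ideal.Quotient.eq_zero_iff_mem]
    exact hb
  exact Ideal.span_singleton_eq_top.1 h5

end Pool.Agent.T2h96.SN
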