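import Pool.Agent.T2h96.SN.Stm

set_option autoImplicit false

namespace Pool.Agent.T2h96.SN.R1

open Matrix Pool.Agent.T2h61.PR

/-- conjugation of a homomorphism to `SL` by an invertible matrix -/
noncomputable def conj {n : ℕ} {A Λ : Type} [CommRing A] [Group Λ] (g : (Mn n A)ˣ)
    (f : Λ →* SLn n A) : Λ →* SLn n A where
  toFun l := ⟨((g⁻¹ : (Mn n A)ˣ) : Mn n A) * (f l : Mn n A) * (g : Mn n A), by
    rw [Matrix.det_mul, Matrix.det_mul, (f l).2, mul_one, ← Matrix.det_mul, Units.inv_mul,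
      Matrix.det_one]⟩
  map_one' := by
    apply Subtype.ext
    simp
  map_mul' a b := by
    apply Subtype.ext
    show ((g⁻¹ : (Mn n A)ˣ) : Mn n A) * (f (a * b) : Mn n A) * (g : Mn n A) =
      (((g⁻¹ : (Mn n A)ˣ) : Mn n A) * (f a : Mn n A) * (g : Mn n A)) *
      (((g⁻¹ : (Mn n A)ˣ) : Mn n A) * (f b : Mn n A) * (g : Mn n A))
    rw [map_mul, Matrix.SpecialLinearGroup.coe_mul]
    simp only [mul_assoc]
    rw [← mul_assoc (g : Mn n A) ((g⁻¹ : (Mn n A)ˣ) : Mn n A), Units.mul_inv, one_mul]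

/-- product of homomorphisms to `SL` -/
def piSL {n : ℕ} {ι : Type} {A : ι → Type} [∀ i, CommRing (A i)] {Λ : Type} [Group Λ]
    (f : ∀ i, Λ →* SLn n (A i)) : Λ →* SLn n (∀ i, A i) where
  toFun l := ⟨Matrix.of fun i j => fun b => f b l i j, by
    funext b
    have := RingHom.map_det (Pi.evalRingHom A b) (Matrix.of fun i j => fun b => f b l i j)
    have h2 : (Pi.evalRingHom A b).mapMatrix (Matrix.of fun i j => fun b => f b l i j)
      = (f b l).1 := by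
      ext i j; rfl
    rw [h2, (f b l).2] at this
    exact this⟩
  map_one' := by
    ext i j b
    simp [Matrix.one_apply]
    split_ifs <;> rfl
  map_mul' a c := by
    ext i j b
    simp [Matrix.mul_apply]

lemma prod_wt {n : ℕ} [NeZero n] {A : Type} [CommRing A] (τ : A) :
    ∏ k : Fin n, wt τ k = τ := by
  classical
  have : ∀ k : Fin n, wt τ k = if k = -1 then τ else 1 := by
    intro k
    unfold wt
    by_cases h : k + 1 = 0
    · rw [if_pos h, if_pos (eq_neg_of_add_eq_zero_left h)]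
    · rw [if_neg h, if_neg]
      intro h'
      exact h (by rw [h']; simp)
  simp [this]

end Pool.Agent.T2h96.SN.R1

namespace Pool.Agent.T2h96.SN

open Matrix Pool.Agent.T2h61.PR R1

theorem t_R1 (hNFS : S_NFS) : S_R1 := by
  classical
  intro n _ hn Λ _ x hx
  -- one permutation
  let P : ℕ → Equiv.Perm (Fin n) → Prop := fun B π =>
    ∃ (ℓ : ℕ) (_ : Fact ℓ.Prime) (f : Λ →* SLn n (ZMod ℓ)), B < ℓ ∧
      ∃ (g : (Mn n (ZMod ℓ))ˣ) (d ζ : Fin n → ZMod ℓ), (∀ k, d k ≠ 0) ∧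
      ∀ k, (f (x (π k)) : Mn n (ZMod ℓ)) =
      ζ k • ((g : Mn n (ZMod ℓ)) * cy k (d k) * ((g⁻¹ : (Mn n (ZMod ℓ))ˣ) : Mn n (ZMod ℓ)))
  have hP : ∃ π, ∀ B, P B π := by
    by_contra hcon
    push Not at hcon
    choose Bf hBf using hcon
    obtain ⟨ℓ, hℓ, f, hB, π, g, d, ζ, hd, h⟩ := hx (Finset.univ.sup Bf)
    exact hBf π ⟨ℓ, hℓ, f, lt_of_le_of_lt (Finset.le_sup (f := Bf) (Finset.mem_univ π)) hB,
      g, d, ζ, hd, h⟩
  obtain ⟨π, hπ⟩ := hP
  -- the standard weights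
  have hQ : ∀ B : ℕ, ∃ (ℓ : ℕ) (_ : Fact ℓ.Prime) (f : Λ →* SLn n (ZMod ℓ)) (τ : ZMod ℓ)
      (ζ : Fin n → ZMod ℓ), B < ℓ ∧ ∀ k, (f (x (π k)) : Mn n (ZMod ℓ)) = ζ k • cy k (wt τ k) := by
    intro B
    obtain ⟨ℓ, hℓ, f, hB, g, d, ζ, hd, h⟩ := hπ B
    have hprod : ∏ k, d k ≠ 0 := Finset.prod_ne_zero_iff.2 fun k _ => hd k
    obtain ⟨D, hD⟩ := hNFS n (ZMod ℓ) d (wt (∏ k, d k)) hd (by
      intro k
      unfold wt
      split_ifs
      · exact hprod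
      · exact one_ne_zero) (by rw [prod_wt])
    refine ⟨ℓ, hℓ, conj (g * D⁻¹) f, ∏ k, d k, ζ, hB, fun k => ?_⟩
    show (((g * D⁻¹)⁻¹ : (Mn n (ZMod ℓ))ˣ) : Mn n (ZMod ℓ)) * (f (x (π k)) : Mn n (ZMod ℓ)) *
      ((g * D⁻¹ : (Mn n (ZMod ℓ))ˣ) : Mn n (ZMod ℓ)) = _
    rw [h k, ← hD k, mul_smul_comm, smul_mul_assoc]
    congr 1
    have : ((g * D⁻¹)⁻¹ : (Mn n (ZMod ℓ))ˣ) = D * g⁻¹ := by group
    rw [this, Units.val_mul, Units.val_mul]
    simp only [mul_assoc]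
    rw [← mul_assoc ((g⁻¹ : (Mn n (ZMod ℓ))ˣ) : Mn n (ZMod ℓ)) (g : Mn n (ZMod ℓ)),
      Units.inv_mul, one_mul, ← mul_assoc ((g⁻¹ : (Mn n (ZMod ℓ))ˣ) : Mn n (ZMod ℓ))
      (g : Mn n (ZMod ℓ)), Units.inv_mul, one_mul]
  choose ℓ hℓ f τ ζ hB h using hQ
  refine ⟨∀ B, ZMod (ℓ B), inferInstance, ⟨?_⟩, τ, piSL f, π, fun k B => ζ B k, fun k => ?_⟩
  · intro a b hab
    have h1 := congrFun hab (a + b)
    simp only [Pi.natCast_apply] at h1
    have ha : a < ℓ (a + b) := lt_of_le_of_lt (Nat.le_add_right a b) (hB (a + b))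
    have hb : b < ℓ (a + b) := lt_of_le_of_lt (Nat.le_add_left b a) (hB (a + b))
    have h2 := congrArg ZMod.val h1
    rwa [ZMod.val_natCast_of_lt ha, ZMod.val_natCast_of_lt hb] at h2
  · ext i j B
    have h1 : (f B (x (π k)) : Mn n (ZMod (ℓ B))) i j = ζ B k * cy k (wt (τ B) k) i j := by
      rw [h B k]; rfl
    show (f B (x (π k)) : Mn n (ZMod (ℓ B))) i j = _
    rw [h1]
    simp only [Matrix.smul_apply, smul_eq_mul, Pi.mul_apply]
    congr 1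
    have hw : wt τ k B = wt (τ B) k := by
      unfold wt
      split_ifs <;> rfl
    simp only [cy, Matrix.add_apply, Pi.add_apply, Matrix.one_apply, Matrix.single_apply]
    split_ifs <;> simp [hw]

end Pool.Agent.T2h96.SN
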