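import Pool.Agent.T2h96.SN.Stm

/-! Project SN, task NFS. -/

set_option autoImplicit false

namespace Pool.Agent.T2h96.SN

open Matrix Pool.Agent.T2h61.PR

namespace NFS

theorem val_succ {n : ℕ} [NeZero n] (k : Fin n) : (k + 1 : Fin n).val = (k.val + 1) % n := by
  rw [Fin.val_add, Fin.val_one', Nat.add_mod_mod]

/-- the partial products -/
noncomputable def U {n : ℕ} {F : Type} [Field F] (c d : Fin n → F) (m : ℕ) : F :=
  ∏ i ∈ Finset.range m, (if h : i < n then d ⟨i, h⟩ / c ⟨i, h⟩ else 1)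

theorem U_ne {n : ℕ} {F : Type} [Field F] {c d : Fin n → F} (hc : ∀ k, c k ≠ 0)
    (hd : ∀ k, d k ≠ 0) (m : ℕ) : U c d m ≠ 0 := by
  unfold U
  refine Finset.prod_ne_zero_iff.2 fun i _ => ?_
  split_ifs with h
  · exact div_ne_zero (hd _) (hc _)
  · exact one_ne_zero

theorem U_succ {n : ℕ} {F : Type} [Field F] (c d : Fin n → F) (k : Fin n) :
    U c d (k.val + 1) = U c d k.val * (d k / c k) := by
  unfold U
  rw [Finset.prod_range_succ, dif_pos k.2]

theorem U_n {n : ℕ} {F : Type} [Field F] {c d : Fin n → F} (hc : ∀ k, c k ≠ 0)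
    (h : ∏ k, c k = ∏ k, d k) : U c d n = 1 := by
  unfold U
  rw [Finset.prod_range]
  have h1 : ∀ i : Fin n, (if h : (i : ℕ) < n then d ⟨i, h⟩ / c ⟨i, h⟩ else 1) = d i / c i := by
    intro i
    rw [dif_pos i.2]
  rw [Finset.prod_congr rfl fun i _ => h1 i, Finset.prod_div_distrib, h, div_self]
  rw [← h]
  exact Finset.prod_ne_zero_iff.2 fun i _ => hc i

theorem U_cyc {n : ℕ} [NeZero n] {F : Type} [Field F] {c d : Fin n → F} (hc : ∀ k, c k ≠ 0)
    (h : ∏ k, c k = ∏ k, d k) (k : Fin n) :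
    U c d (k + 1 : Fin n).val = U c d k.val * (d k / c k) := by
  rw [← U_succ, val_succ]
  rcases Nat.lt_or_ge (k.val + 1) n with h1 | h1
  · rw [Nat.mod_eq_of_lt h1]
  · have h2 : k.val + 1 = n := by
      have := k.2
      omega
    rw [h2, Nat.mod_self, U_n hc h]
    unfold U
    simp

end NFS

theorem t_NFS : S_NFS := by
  intro n _ F _ c d hc hd h
  set u : Fin n → F := fun k => NFS.U c d k.val with hu
  have hu0 : ∀ k, u k ≠ 0 := fun k => NFS.U_ne hc hd _
  have h1 : Matrix.diagonal u * Matrix.diagonal (fun k => (u k)⁻¹) = (1 : Mn n F) := by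
    rw [Matrix.diagonal_mul_diagonal, ← Matrix.diagonal_one]
    congr 1
    funext k
    exact mul_inv_cancel₀ (hu0 k)
  have h2 : Matrix.diagonal (fun k => (u k)⁻¹) * Matrix.diagonal u = (1 : Mn n F) := by
    rw [Matrix.diagonal_mul_diagonal, ← Matrix.diagonal_one]
    congr 1
    funext k
    exact inv_mul_cancel₀ (hu0 k)
  refine ⟨⟨Matrix.diagonal u, Matrix.diagonal (fun k => (u k)⁻¹), h1, h2⟩, fun k => ?_⟩
  show Matrix.diagonal u * cy k (c k) * Matrix.diagonal (fun k => (u k)⁻¹) = cy k (d k)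
  ext i j
  rw [Matrix.mul_diagonal, Matrix.diagonal_mul]
  unfold cy
  rw [Matrix.add_apply, Matrix.add_apply, mul_add, add_mul]
  congr 1
  · by_cases hij : i = j
    · subst hij
      rw [Matrix.one_apply_eq, mul_one, mul_inv_cancel₀ (hu0 i)]
    · rw [Matrix.one_apply_ne hij, mul_zero, zero_mul]
  · by_cases hh : k + 1 = i ∧ k = j
    · obtain ⟨rfl, rfl⟩ := hh
      rw [Matrix.single_apply_same, Matrix.single_apply_same]
      have h3 : u (k + 1) = u k * (d k / c k) := NFS.U_cyc hc h k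
      rw [h3]
      have := hu0 k
      have := hc k
      field_simp
    · rw [Matrix.single_apply_of_ne _ _ _ _ _ hh, Matrix.single_apply_of_ne _ _ _ _ _ hh, mul_zero,
        zero_mul]

end Pool.Agent.T2h96.SN
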