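import Pool.Agent.T2h96.SN.Stm

/-!
# Task ABEL: finite `r`-subgroups of `GL (n, F)`, `r > n` prime to the characteristic, are commutative
-/

set_option autoImplicit false

namespace Pool.Agent.T2h96.SN

open Matrix Pool.Agent.T2h61.PR

namespace ABEL

/-- a noncommutative finite `p`-group contains a nontrivial central commutator -/
theorem central_comm {G : Type} [Group G] [Finite G] {r : ℕ} [Fact r.Prime] (hG : IsPGroup r G)
    (hnc : ∃ a b : G, a * b ≠ b * a) :
    ∃ g h u : G, g * h * g⁻¹ * h⁻¹ = u ∧ u ≠ 1 ∧ ∀ x : G, u * x = x * u := by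
  obtain ⟨a, b, hab⟩ := hnc
  have hnt : Nontrivial (G ⧸ Subgroup.center G) := by
    by_contra hcon
    rw [not_nontrivial_iff_subsingleton] at hcon
    have ha : a ∈ Subgroup.center G := by
      rw [← QuotientGroup.eq_one_iff]
      exact Subsingleton.elim _ _
    exact hab ((Subgroup.mem_center_iff.1 ha b).symm)
  have hQ : IsPGroup r (G ⧸ Subgroup.center G) := hG.to_quotient _
  have hcn : Nontrivial (Subgroup.center (G ⧸ Subgroup.center G)) := hQ.center_nontrivial
  obtain ⟨⟨q, hq⟩, hq1⟩ := exists_ne (1 : Subgroup.center (G ⧸ Subgroup.center G))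
  obtain ⟨g, rfl⟩ := QuotientGroup.mk_surjective q
  have hg : g ∉ Subgroup.center G := by
    intro hg
    apply hq1
    apply Subtype.ext
    exact (QuotientGroup.eq_one_iff g).2 hg
  have hcomm : ∀ h : G, g * h * g⁻¹ * h⁻¹ ∈ Subgroup.center G := by
    intro h
    rw [← QuotientGroup.eq_one_iff]
    have := Subgroup.mem_center_iff.1 hq (h : G ⧸ Subgroup.center G)
    have e : ((g * h * g⁻¹ * h⁻¹ : G) : G ⧸ Subgroup.center G) =
        ((g : G ⧸ Subgroup.center G) * (h : G ⧸ Subgroup.center G)) * (g : G ⧸ Subgroup.center G)⁻¹ *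
          (h : G ⧸ Subgroup.center G)⁻¹ := rfl
    rw [e, ← this]
    group
  rw [Subgroup.mem_center_iff] at hg
  push Not at hg
  obtain ⟨h, hh⟩ := hg
  refine ⟨g, h, g * h * g⁻¹ * h⁻¹, rfl, ?_, fun x => (Subgroup.mem_center_iff.1 (hcomm h) x).symm⟩
  intro h1
  apply hh
  have h2 : g * h = h * g := by
    have := h1
    rw [mul_inv_eq_one, mul_inv_eq_iff_eq_mul] at this
    exact this
  exact h2.symm

end ABEL

theorem t_ABEL : S_UNI → S_ABEL := by
  intro hUNI n ℓ r _ F _ _ _ hr hnr hrl R hR a ha b hb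
  haveI : Fact r.Prime := ⟨hr⟩
  by_contra hab
  have hn : n ≠ 0 := by
    rintro rfl
    apply hab
    apply Units.ext
    exact Subsingleton.elim _ _
  haveI : NeZero n := ⟨hn⟩
  haveI : Nonempty (Fin n) := ⟨0⟩
  haveI : Finite (Mn n F) := inferInstance
  haveI : Finite (Mn n F)ˣ := inferInstance
  haveI : Finite R := inferInstance
  have hRp : IsPGroup r R := by
    intro g
    obtain ⟨k, hk⟩ := hR g.1 g.2
    exact ⟨k, Subtype.ext (by simpa using hk)⟩
  obtain ⟨g, h, u, hu, hu1, hc⟩ := ABEL.central_comm hRp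
    ⟨⟨a, ha⟩, ⟨b, hb⟩, fun h => hab (congrArg Subtype.val h)⟩
  have key := hUNI n F g.1 h.1 u.1 (congrArg Subtype.val hu) (congrArg Subtype.val (hc g))
    (congrArg Subtype.val (hc h))
  obtain ⟨k, hk⟩ : ∃ k : ℕ, n ≤ ℓ ^ k := ⟨n, (Nat.lt_pow_self (Fact.out : ℓ.Prime).one_lt).le⟩
  have h1 : (((u.1 : (Mn n F)ˣ) : Mn n F) ^ n.factorial - 1) ^ ℓ ^ k = 0 := by
    rw [← Nat.sub_add_cancel hk, pow_add, key, mul_zero]
  have h2 : (((u.1 : (Mn n F)ˣ) : Mn n F) ^ n.factorial) ^ ℓ ^ k = 1 := by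
    have := sub_pow_char_pow_of_commute (p := ℓ) (n := k)
      (x := ((u.1 : (Mn n F)ˣ) : Mn n F) ^ n.factorial) (y := 1) (Commute.one_right _)
    rw [h1, one_pow] at this
    exact (sub_eq_zero.1 this.symm)
  have h3 : (u.1 : (Mn n F)ˣ) ^ (n.factorial * ℓ ^ k) = 1 := by
    apply Units.ext
    rw [pow_mul]
    simpa using h2
  obtain ⟨m, hm⟩ := hR u.1 u.2
  have hco : Nat.Coprime (n.factorial * ℓ ^ k) (r ^ m) := by
    apply Nat.Coprime.pow_right
    apply Nat.Coprime.mul_left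
    · exact ((Nat.Prime.coprime_iff_not_dvd hr).2 (fun h =>
        absurd ((Nat.Prime.dvd_factorial hr).1 h) (by omega))).symm
    · apply Nat.Coprime.pow_left
      exact (Nat.coprime_primes (Fact.out : ℓ.Prime) hr).2 (Ne.symm hrl)
  have h4 : orderOf (u.1 : (Mn n F)ˣ) ∣ 1 := by
    have e1 := orderOf_dvd_of_pow_eq_one h3
    have e2 := orderOf_dvd_of_pow_eq_one hm
    have := Nat.dvd_gcd e1 e2
    rwa [hco] at this
  apply hu1
  apply Subtype.ext
  exact orderOf_eq_one_iff.1 (Nat.dvd_one.1 h4)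

end Pool.Agent.T2h96.SN
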