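import Pool.Agent.T2h96.SN.Stm

set_option autoImplicit false

/-!
# Project SN, task ADJ
-/

namespace Pool.Agent.T2h96.SN

namespace ADJ

theorem ind {n : ℕ} [NeZero n] (Q : Fin n → Prop) (h0 : Q 0) (hs : ∀ k, Q k → Q (k + 1)) : ∀ k, Q k := by
  obtain ⟨m, rfl⟩ := Nat.exists_eq_succ_of_ne_zero (NeZero.ne n)
  intro k
  induction k using Fin.induction with
  | zero => exact h0
  | succ i ih =>
    rw [← Fin.coeSucc_eq_succ]
    exact hs _ ih

theorem two_ne {n : ℕ} [NeZero n] (hn : 3 ≤ n) : (1 : Fin n) + 1 ≠ 0 := by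
  intro h
  have h1 := congrArg Fin.val h
  rw [Fin.val_add, Fin.val_one', Fin.val_zero, Nat.mod_eq_of_lt (by omega : 1 < n),
    Nat.mod_eq_of_lt (by omega)] at h1
  omega

theorem one_ne {n : ℕ} [NeZero n] (hn : 3 ≤ n) : (1 : Fin n) ≠ 0 := by
  intro h
  have h1 := congrArg Fin.val h
  rw [Fin.val_one', Fin.val_zero, Nat.mod_eq_of_lt (by omega : 1 < n)] at h1
  omega

end ADJ

theorem t_ADJ : S_ADJ := by
  intro n _ hn π h
  by_cases hP : ∃ k, π (k + 1) = π k + 1
  · left
    obtain ⟨k0, hk0⟩ := hP
    have hstep : ∀ k, π (k + 1) = π k + 1 → π (k + 1 + 1) = π (k + 1) + 1 := by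
      intro k hk
      rcases h (k + 1) with h1 | h1
      · exact h1
      · exfalso
        rw [hk] at h1
        have h2 := π.injective (add_right_cancel h1)
        rw [add_assoc] at h2
        exact ADJ.two_ne hn (by simpa using h2)
    have hall : ∀ k, π (k + 1) = π k + 1 := by
      have h1 : ∀ d, π (k0 + d + 1) = π (k0 + d) + 1 := by
        apply ADJ.ind
        · simpa using hk0
        · intro d hd
          rw [← add_assoc]
          exact hstep _ hd
      intro k
      have := h1 (k - k0)
      simpa using this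
    refine ⟨π 0, ?_⟩
    apply ADJ.ind
    · simp
    · intro k hk
      rw [hall, hk, add_assoc]
  · right
    push Not at hP
    have hall : ∀ k, π (k + 1) + 1 = π k := fun k => (h k).resolve_left (hP k)
    refine ⟨π 0, ?_⟩
    apply ADJ.ind
    · simp
    · intro k hk
      rw [← hk, ← hall k]
      abel

end Pool.Agent.T2h96.SN
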