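import Pool.Agent.T2h96.SN.Stm

/-!
# (CL) classification of the homomorphisms from `SL (n, ℤ)` to `SL (n, F)`
-/

set_option autoImplicit false

namespace Pool.Agent.T2h96.SN

open Matrix Pool.Agent.T2h61.PR

namespace CL

variable {n : ℕ} {F : Type} [Field F]

/-- inverse transpose -/
def it : SLn n F →* SLn n F where
  toFun A := (A⁻¹).transpose
  map_one' := by
    apply Subtype.ext
    simp
  map_mul' A B := by
    apply Subtype.ext
    show ((A * B)⁻¹ : SLn n F).1ᵀ = ((A⁻¹ : SLn n F).1)ᵀ * ((B⁻¹ : SLn n F).1)ᵀ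
    rw [_root_.mul_inv_rev, ← Matrix.transpose_mul]
    rfl

lemma it_val (A : SLn n F) : (it A : Mn n F) = ((A⁻¹ : SLn n F) : Mn n F)ᵀ := rfl

/-- inverse transpose for units -/
def tI (u : (Mn n F)ˣ) : (Mn n F)ˣ where
  val := ((u⁻¹ : (Mn n F)ˣ) : Mn n F)ᵀ
  inv := (u : Mn n F)ᵀ
  val_inv := by rw [← Matrix.transpose_mul, Units.mul_inv, Matrix.transpose_one]
  inv_val := by rw [← Matrix.transpose_mul, Units.inv_mul, Matrix.transpose_one]

lemma inv_eq (A : SLn n F) (X : Mn n F) (h : (A : Mn n F) * X = 1) :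
    ((A⁻¹ : SLn n F) : Mn n F) = X := by
  have h1 : ((A⁻¹ : SLn n F) : Mn n F) * (A : Mn n F) = 1 := by
    have := congrArg (fun t : SLn n F => (t : Mn n F)) (inv_mul_cancel A)
    exact this
  calc ((A⁻¹ : SLn n F) : Mn n F) = ((A⁻¹ : SLn n F) : Mn n F) * ((A : Mn n F) * X) := by
        rw [h, mul_one]
    _ = X := by rw [← mul_assoc, h1, one_mul]

lemma it_form (A : SLn n F) (u : (Mn n F)ˣ) (a b : Fin n) (hab : a ≠ b) (d : F)
    (h : (A : Mn n F) = (u : Mn n F) * (1 + Matrix.single a b d) * ((u⁻¹ : (Mn n F)ˣ) : Mn n F)) :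
    (it A : Mn n F) = (tI u : Mn n F) * (1 + Matrix.single b a (-d)) *
      (((tI u)⁻¹ : (Mn n F)ˣ) : Mn n F) := by
  have h1 : ((A⁻¹ : SLn n F) : Mn n F) =
      (u : Mn n F) * (1 + Matrix.single a b (-d)) * ((u⁻¹ : (Mn n F)ˣ) : Mn n F) := by
    apply inv_eq
    rw [h]
    have h2 : (1 + Matrix.single a b d : Mn n F) * (1 + Matrix.single a b (-d)) = 1 := by
      rw [add_mul, mul_add, mul_add, one_mul, one_mul, mul_one,
        Matrix.single_mul_single_of_ne _ _ _ _ hab.symm, add_zero, add_assoc, ← Matrix.single_add]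
      simp
    calc (u : Mn n F) * (1 + Matrix.single a b d) * ((u⁻¹ : (Mn n F)ˣ) : Mn n F) *
          ((u : Mn n F) * (1 + Matrix.single a b (-d)) * ((u⁻¹ : (Mn n F)ˣ) : Mn n F)) =
        (u : Mn n F) * (1 + Matrix.single a b d) * (((u⁻¹ : (Mn n F)ˣ) : Mn n F) * (u : Mn n F)) *
          (1 + Matrix.single a b (-d)) * ((u⁻¹ : (Mn n F)ˣ) : Mn n F) := by
          simp only [mul_assoc]
      _ = (u : Mn n F) * ((1 + Matrix.single a b d) * (1 + Matrix.single a b (-d))) *
          ((u⁻¹ : (Mn n F)ˣ) : Mn n F) := by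
          rw [Units.inv_mul, mul_one, mul_assoc (u : Mn n F)]
      _ = 1 := by rw [h2, mul_one, Units.mul_inv]
  rw [it_val, h1, Matrix.transpose_mul, Matrix.transpose_mul, Matrix.transpose_add,
    Matrix.transpose_one, Matrix.transpose_single, ← mul_assoc]
  rfl

lemma edat {ℓ : ℕ} {g : SLn n ℤ →* SLn n F} {m : ℕ} {E : Fin n → Fin n → SLn n F}
    (h : EDat n ℓ F g m E) : EDat n ℓ F (it.comp g) m (fun i j => it (E i j)) where
  dvd := h.dvd
  mod := h.mod
  pos := h.pos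
  def' i j hij := by rw [h.def' i j hij]; rfl
  kill A hA := by rw [MonoidHom.comp_apply, h.kill A hA, map_one]
  pow i j hij := by rw [← map_pow, h.pow i j hij, map_one]
  comm i j k h1 h2 h3 := by rw [← map_mul, h.comm i j k h1 h2 h3, map_mul, map_mul]
  commute i j k l h1 h2 h3 h4 := by rw [← map_mul, h.commute i j k l h1 h2 h3 h4, map_mul]

lemma it_it (A : SLn n F) : it (it A) = A := by
  apply Subtype.ext
  rw [it_val]
  have h : (((it A)⁻¹ : SLn n F) : Mn n F) = (A : Mn n F)ᵀ := by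
    apply inv_eq
    rw [it_val, ← Matrix.transpose_mul]
    have := congrArg (fun t : SLn n F => (t : Mn n F)) (mul_inv_cancel A)
    have h2 : (A : Mn n F) * ((A⁻¹ : SLn n F) : Mn n F) = 1 := this
    rw [h2, Matrix.transpose_one]
  rw [h, Matrix.transpose_transpose]

end CL

open CL in
theorem t_CL (hCE : S_CLE) (hCP : S_CLP) (hCV : S_CLV) (hCK : S_CLK) (hNF : S_NF) (hCN : S_CLN)
    (hCR : S_CLR) (hCD : S_CLD) : S_CL := by
  intro n hn
  haveI : NeZero n := ⟨by omega⟩
  refine ⟨n.factorial, Nat.card (SLn n (ZMod n.factorial)), fun ℓ hℓ hB F _ _ _ g => ?_⟩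
  haveI : Fact ℓ.Prime := ⟨hℓ⟩
  obtain ⟨m, E, hE⟩ := hCE n ℓ hn hℓ hB F g
  rcases hCV n ℓ hn hℓ hB F g m E hE with h | h
  swap
  · exact Or.inl (hCK n ℓ hn hℓ hB F g m E hE h)
  right
  choose P hP1 hP2 using hCP n ℓ hn hℓ hB F g m E hE
  have hnf := hNF n ℓ F (by omega) (fun j => Matrix.SpecialLinearGroup.toGL (E (j + 1) j))
    (fun i => (P i).map Matrix.SpecialLinearGroup.toGL) (by
      rintro i _ ⟨h, hh, rfl⟩
      refine ⟨1, ?_⟩
      rw [pow_one, ← map_pow, hP1 i h hh, map_one]) (by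
      intro i j hij
      exact ⟨_, hP2 i j hij, rfl⟩) h
  rcases hCN n hn F E hE.commute hnf with h1 | h2
  · left
    obtain ⟨u, hu⟩ := hCR n hn F E hE.comm h1
    exact ⟨u, hCD n ℓ hn hℓ hB F g m E hE u hu⟩
  · right
    have hE' := edat hE
    obtain ⟨u, d, hd, hu⟩ := h2
    obtain ⟨v, hv⟩ := hCR n hn F (fun i j => it (E i j)) hE'.comm
      ⟨tI u, fun k => - d k, fun k => neg_ne_zero.2 (hd k), fun k => by
        refine it_form _ u k (k + 1) ?_ (d k) (hu k)
        intro hk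
        have h1 : (1 : Fin n) = 0 := by
          have := congrArg (fun t => t - k) hk
          simpa using this.symm
        have h2 := congrArg Fin.val h1
        rw [Fin.val_one' n, Nat.mod_eq_of_lt (by omega)] at h2
        simp at h2⟩
    have hg := hCD n ℓ hn hℓ hB F (it.comp g) m (fun i j => it (E i j)) hE' v hv
    refine ⟨tI v, fun y => ?_⟩
    have h3 : g y = it ((it.comp g) y) := by
      rw [MonoidHom.comp_apply, it_it]
    have h4 : (((it.comp g) y)⁻¹ : SLn n F) = (it.comp g) y⁻¹ := by rw [map_inv]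
    rw [h3, it_val, h4, hg y⁻¹, Matrix.transpose_mul, Matrix.transpose_mul, ← mul_assoc]
    rfl

end Pool.Agent.T2h96.SN
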