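import Pool.Agent.T2h96.SN.Stm
import Pool.Agent.T2h61.PR.T_FF

/-!
# (CLD) from the `E i j` to `g`
-/

set_option autoImplicit false
set_option linter.unusedSimpArgs false
set_option linter.unusedVariables false

namespace Pool.Agent.T2h96.SN

open Matrix Pool.Agent.T2h61.PR Pool.Agent.T2h61.PR.FF Pool.Agent.Helper460_CSP

namespace CLD

theorem core {Γ G : Type} [Group Γ] [Group G] (φ ψ : Γ →* G) (N : Subgroup Γ) [hNn : N.Normal]
    (hN : ∀ w ∈ N, φ w = ψ w)
    (hc : ∀ t : G, (∀ w ∈ N, t * ψ w = ψ w * t) → ∀ x, t * x = x * t) :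
    (∀ a b, φ (a * b * a⁻¹ * b⁻¹) = ψ (a * b * a⁻¹ * b⁻¹)) ∧
    (∀ z w, φ w = ψ w → φ (z * w * z⁻¹) = ψ (z * w * z⁻¹)) := by
  have key : ∀ z, ∃ t : G, φ z = ψ z * t ∧ ∀ x, t * x = x * t := by
    intro z
    refine ⟨(ψ z)⁻¹ * φ z, by group, ?_⟩
    apply hc
    intro w hw
    have h1 := hN _ (hNn.conj_mem w hw z)
    simp only [map_mul, map_inv] at h1
    rw [hN w hw] at h1
    have h2 : φ z * ψ w = ψ z * ψ w * (ψ z)⁻¹ * φ z := by
      rw [← h1]; group
    calc (ψ z)⁻¹ * φ z * ψ w = (ψ z)⁻¹ * (φ z * ψ w) := by group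
      _ = ψ w * ((ψ z)⁻¹ * φ z) := by rw [h2]; group
  constructor
  · intro a b
    obtain ⟨s, hs, hsc⟩ := key a
    obtain ⟨t, ht, htc⟩ := key b
    simp only [map_mul, map_inv, hs, ht, _root_.mul_inv_rev]
    have e1 : ψ a * s * (ψ b * t) * (s⁻¹ * (ψ a)⁻¹) * (t⁻¹ * (ψ b)⁻¹) =
        ψ a * (s * (ψ b * t)) * s⁻¹ * (ψ a)⁻¹ * t⁻¹ * (ψ b)⁻¹ := by group
    rw [e1, hsc]
    have e2 : ψ a * (ψ b * t * s) * s⁻¹ * (ψ a)⁻¹ * t⁻¹ * (ψ b)⁻¹ =
        ψ a * ψ b * (t * (ψ a)⁻¹) * t⁻¹ * (ψ b)⁻¹ := by group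
    rw [e2, htc]
    group
  · intro z w hw
    obtain ⟨s, hs, hsc⟩ := key z
    simp only [map_mul, map_inv, hs, hw, _root_.mul_inv_rev]
    have e1 : ψ z * s * ψ w * (s⁻¹ * (ψ z)⁻¹) = ψ z * (s * ψ w) * s⁻¹ * (ψ z)⁻¹ := by group
    rw [e1, hsc]
    group

theorem scalar_of {n : ℕ} {F : Type} [Field F] (t : Mn n F)
    (h : ∀ i j : Fin n, i ≠ j → Commute (Matrix.single i j (1 : F)) t) (x : Mn n F) :
    t * x = x * t := by
  obtain ⟨r, hr⟩ := mem_range_scalar_of_commute_single (M := t) (fun i j hij => h i j hij)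
  rw [← hr]
  exact (scalar_commute r (fun _ => mul_comm _ _) x)

theorem map_single_add {n : ℕ} {F : Type} [Field F] (i j : Fin n) (c : ℤ) :
    (Matrix.transvection i j c).map (Int.castRingHom F) = 1 + Matrix.single i j (c : F) := by
  unfold Matrix.transvection
  ext a b
  simp only [Matrix.map_apply, Matrix.add_apply, map_add, Matrix.one_apply, Matrix.single_apply]
  split_ifs <;> simp

end CLD

open CLD

theorem t_CLD : S_CLD := by
  intro n ℓ hn hℓ hnℓ F _ _ _ g m E hE u hu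
  classical
  have hFact : Fact ℓ.Prime := ⟨hℓ⟩
  have hn0 : n.factorial ≠ 0 := Nat.factorial_ne_zero n
  have hco : (n.factorial).Coprime ℓ := by
    rw [Nat.coprime_comm, hℓ.coprime_iff_not_dvd]
    exact Nat.not_dvd_of_pos_of_lt (Nat.pos_of_ne_zero hn0) hnℓ
  have hmF : ((m : ℤ) : F) = 1 := by
    have h1 : (ℓ : ℤ) ∣ (m : ℤ) - 1 := by
      rw [← ZMod.intCast_zmod_eq_zero_iff_dvd]
      push_cast
      rw [hE.mod, sub_self]
    have h2 := (CharP.intCast_eq_zero_iff F ℓ ((m : ℤ) - 1)).mpr h1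
    rw [Int.cast_sub, Int.cast_one, sub_eq_zero] at h2
    exact h2
  let φ : SLn n ℤ →* (Mn n F)ˣ := (Matrix.SpecialLinearGroup.toGL (n := Fin n) (R := F)).comp g
  let ψ : SLn n ℤ →* (Mn n F)ˣ := (MulAut.conj u).toMonoidHom.comp
    ((Matrix.SpecialLinearGroup.toGL (n := Fin n) (R := F)).comp (rd n F))
  have hφ : ∀ y, ((φ y : (Mn n F)ˣ) : Mn n F) = (g y : Mn n F) := fun y => rfl
  have hψ : ∀ y, ((ψ y : (Mn n F)ˣ) : Mn n F) =
      (u : Mn n F) * (rd n F y : Mn n F) * ((u⁻¹ : (Mn n F)ˣ) : Mn n F) := fun y => rfl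
  have hrdtv : ∀ (i j : Fin n) (h : i ≠ j) (c : ℤ),
      ((rd n F (tv i j h c) : SLn n F) : Mn n F) = 1 + Matrix.single i j (c : F) := by
    intro i j h c
    exact map_single_add i j c
  -- the elementary matrices of level `m`
  have hm1 : ∀ (i j : Fin n) (h : i ≠ j), φ (tv i j h (m : ℤ)) = ψ (tv i j h (m : ℤ)) := by
    intro i j h
    apply Units.ext
    rw [hφ, hψ, hrdtv, hmF, ← hu i j h, hE.def' i j h]
    rfl
  have hmt : ∀ (i j : Fin n) (h : i ≠ j) (t : ℤ),
      φ (tv i j h ((m : ℤ) * t)) = ψ (tv i j h ((m : ℤ) * t)) := by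
    intro i j h t
    rw [tv_mul_zpow, map_zpow, map_zpow, hm1]
  -- level `n! ℓ`
  have hkill : ∀ w ∈ Gam n (n.factorial * ℓ), φ w = ψ w := by
    intro w hw
    have h1 : g w = 1 := hE.kill w (by
      rw [Gam, MonoidHom.mem_ker] at hw
      exact hw)
    have h2 : rd n F w = 1 := by
      rw [mem_Gam] at hw
      apply Subtype.ext
      ext i j
      have h3 := hw i j
      have h4 : (ℓ : ℤ) ∣ mt w i j - (1 : Matrix (Fin n) (Fin n) ℤ) i j := by
        refine dvd_trans ?_ h3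
        push_cast
        exact dvd_mul_left _ _
      have h5 := (CharP.intCast_eq_zero_iff F ℓ _).mpr h4
      rw [Int.cast_sub, sub_eq_zero] at h5
      have h6 : (rd n F w).1 i j = ((mt w i j : ℤ) : F) := rfl
      rw [h6, h5]
      show _ = (1 : Matrix (Fin n) (Fin n) F) i j
      rw [Matrix.one_apply, Matrix.one_apply]
      split_ifs <;> simp
    apply Units.ext
    rw [hφ, hψ, h1, h2]
    simp
  -- level `n!`
  have hGam : ∀ w ∈ Gam n n.factorial, φ w = ψ w := by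
    intro w hw
    let K : Subgroup (SLn n ℤ) := (φ.eqLocus ψ) ⊓ Gam n n.factorial
    have hKt : ∀ (i j : Fin n) (h : i ≠ j) (t : ℤ), tv i j h ((m : ℤ) * t) ∈ K := by
      intro i j h t
      refine ⟨hmt i j h t, ?_⟩
      show tv i j h ((m : ℤ) * t) ∈ Gam n n.factorial
      rw [mem_Gam]
      apply El_cgr (tv_El i j h _)
      exact dvd_mul_of_dvd_left (by exact_mod_cast hE.dvd) _
    have hne : Nontrivial (Fin n) := by
      refine ⟨⟨0, by omega⟩, ⟨1, by omega⟩, ?_⟩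
      intro h
      have := congrArg Fin.val h
      simp at this
    have h1 : red n ℓ w ∈ K.map (red n ℓ) := by
      apply gen_field
      intro i j h c
      refine ⟨tv i j h ((m : ℤ) * (c.val : ℤ)), hKt i j h _, ?_⟩
      apply Subtype.ext
      have h2 : ((red n ℓ (tv i j h ((m : ℤ) * (c.val : ℤ))) : SLn n (ZMod ℓ)) : Mn n (ZMod ℓ)) =
          1 + Matrix.single i j (((m : ℤ) * (c.val : ℤ) : ℤ) : ZMod ℓ) :=
        map_single_add (F := ZMod ℓ) i j _
      have h3 : (((m : ℤ) * (c.val : ℤ) : ℤ) : ZMod ℓ) = c := by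
        push_cast
        rw [hE.mod, one_mul, ZMod.natCast_val, ZMod.cast_id', id]
      rw [h2, h3]
      rfl
    obtain ⟨w₁, hw₁, h2⟩ := h1
    have h3 : w * w₁⁻¹ ∈ Gam n (n.factorial * ℓ) := by
      apply gam_inter hco
      · exact mul_mem hw (inv_mem hw₁.2)
      · rw [Gam, MonoidHom.mem_ker, map_mul, map_inv, h2, mul_inv_cancel]
    have h4 := hkill _ h3
    have h5 : φ w₁ = ψ w₁ := hw₁.1
    have h6 : w = (w * w₁⁻¹) * w₁ := by group
    rw [h6, map_mul φ, map_mul ψ, h4, h5]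
  -- centralisers
  have hcen : ∀ t : (Mn n F)ˣ, (∀ w ∈ Gam n n.factorial, t * ψ w = ψ w * t) →
      ∀ x, t * x = x * t := by
    intro t ht x
    have h1 : ∀ i j : Fin n, i ≠ j → Commute (Matrix.single i j (1 : F))
        (((u⁻¹ * t * u : (Mn n F)ˣ)) : Mn n F) := by
      intro i j h
      have h2 := ht (tv i j h (m : ℤ)) (by
        rw [mem_Gam]
        apply El_cgr (tv_El i j h _)
        exact_mod_cast hE.dvd)
      have h3 : ψ (tv i j h (m : ℤ)) = u *
          (Matrix.SpecialLinearGroup.toGL (n := Fin n) (R := F)) (rd n F (tv i j h (m : ℤ))) * u⁻¹ :=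
        rfl
      rw [h3] at h2
      set e := (Matrix.SpecialLinearGroup.toGL (n := Fin n) (R := F)) (rd n F (tv i j h (m : ℤ)))
        with he
      have h4 : (u⁻¹ * t * u) * e = e * (u⁻¹ * t * u) := by
        have h5 : t * (u * e * u⁻¹) = u * e * u⁻¹ * t := h2
        calc (u⁻¹ * t * u) * e = u⁻¹ * (t * (u * e * u⁻¹)) * u := by group
          _ = e * (u⁻¹ * t * u) := by rw [h5]; group
      have h6 : ((e : (Mn n F)ˣ) : Mn n F) = 1 + Matrix.single i j (1 : F) := by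
        have := hrdtv i j h (m : ℤ)
        rw [hmF] at this
        exact this
      have h7 := congrArg (fun y : (Mn n F)ˣ => (y : Mn n F)) h4
      simp only [Units.val_mul] at h7
      rw [h6, mul_add, add_mul, mul_one, one_mul] at h7
      have h8 := add_left_cancel h7
      have h9 : ((u⁻¹ * t * u : (Mn n F)ˣ) : Mn n F) =
          ((u⁻¹ : (Mn n F)ˣ) : Mn n F) * (t : Mn n F) * (u : Mn n F) := rfl
      rw [Commute, SemiconjBy, h9]
      exact h8.symm
    have h10 := scalar_of _ h1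
    have h11 : ∀ y : (Mn n F)ˣ, (u⁻¹ * t * u) * y = y * (u⁻¹ * t * u) :=
      fun y => Units.ext (h10 y)
    have h12 := h11 u
    have h13 : t * u = u * (u⁻¹ * t * u) := by group
    have h14 : u⁻¹ * t * u = t := by
      rw [← h12] at h13
      have h15 : t * u = (u⁻¹ * t * u) * u := h13
      exact (mul_right_cancel h15).symm
    rw [← h14]
    exact h11 x
  obtain ⟨hcomm, hconj⟩ := core φ ψ (Gam n n.factorial) hGam hcen
  have hnorm : (φ.eqLocus ψ).Normal := ⟨fun w hw z => hconj z w hw⟩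
  have htop : ∀ y, φ y = ψ y := by
    intro y
    obtain ⟨m', rfl⟩ := Nat.exists_eq_add_of_le' hn
    have h2 := bls (M := 1) one_ne_zero m' y (fun i j => one_dvd _)
    have h3 : El (Fin (m' + 3)) 1 ≤ φ.eqLocus ψ := by
      apply El_le
      intro i k h
      obtain ⟨j, hji, hjk⟩ := third hn i k
      have h4 := tv_rel hji.symm hjk h
      have h5 : tv i k h 1 = tv i j hji.symm 1 * tv j k hjk 1 * (tv i j hji.symm 1)⁻¹ *
          (tv j k hjk 1)⁻¹ := by
        rw [h4]; group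
      rw [h5]
      exact hcomm _ _
    exact h3 h2
  intro y
  have := congrArg (fun x : (Mn n F)ˣ => (x : Mn n F)) (htop y)
  exact this

end Pool.Agent.T2h96.SN
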