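import Pool.Agent.T2h96.SN.Stm
import Pool.Agent.T2h61.PR.T_FF

/-!
# (CLE) the data `EDat` exist
-/

set_option autoImplicit false
set_option linter.unusedSimpArgs false
set_option linter.unusedVariables false

namespace Pool.Agent.T2h96.SN

open Matrix Pool.Agent.T2h61.PR Pool.Agent.T2h61.PR.FF Pool.Agent.Helper460_CSP

namespace CLE

theorem tr_eq {n : ℕ} (i j : Fin n) (h : i ≠ j) (c : ℤ) : tr (A := ℤ) i j h c = tv i j h c := rfl

theorem rd_eq (n M : ℕ) : rd n (ZMod M) = red n M := rfl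

theorem tv_rel_gen {n : ℕ} {i j k : Fin n} (hij : i ≠ j) (hjk : j ≠ k) (hik : i ≠ k) (m : ℤ) :
    tv i j hij m * tv j k hjk m = tv i k hik (m * m) * (tv j k hjk m * tv i j hij m) := by
  apply Subtype.ext
  show (Matrix.transvection i j m) * Matrix.transvection j k m =
    Matrix.transvection i k (m * m) * (Matrix.transvection j k m * Matrix.transvection i j m)
  simp only [Matrix.transvection, mul_add, add_mul, mul_one, one_mul,
    Matrix.single_mul_single_same, Matrix.single_mul_single_of_ne _ _ _ _ hik.symm,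
    Matrix.single_mul_single_of_ne _ _ _ _ hjk.symm, zero_mul, mul_zero, add_zero, zero_add]
  abel

theorem tv_com_gen {n : ℕ} {i j k l : Fin n} (hij : i ≠ j) (hkl : k ≠ l) (hjk : j ≠ k)
    (hil : i ≠ l) (m : ℤ) : tv i j hij m * tv k l hkl m = tv k l hkl m * tv i j hij m := by
  apply Subtype.ext
  show (Matrix.transvection i j m) * Matrix.transvection k l m =
    Matrix.transvection k l m * Matrix.transvection i j m
  simp only [Matrix.transvection, mul_add, add_mul, mul_one, one_mul,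
    Matrix.single_mul_single_of_ne _ _ _ _ hjk,
    Matrix.single_mul_single_of_ne _ _ _ _ hil.symm, zero_mul, mul_zero, add_zero, zero_add]
  abel

theorem kill_all (hUNI : S_UNI) {n ℓ : ℕ} (hn : 3 ≤ n) (hℓ : ℓ.Prime) (hnℓ : n.factorial < ℓ)
    {F : Type} [Field F] [CharP F ℓ] (g : SLn n ℤ →* SLn n F) (A : SLn n ℤ)
    (hA : A ∈ Gam n (n.factorial * ℓ)) : g A = 1 := by
  refine ker_of hn (Nat.mul_ne_zero (Nat.factorial_ne_zero n) hℓ.ne_zero) g ?_ A hA
  intro i k h
  exact FF.kill hUNI hn hℓ (le_trans (Nat.self_le_factorial n) hnℓ.le) (RingHom.id F)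
    (RingHom.id F) (fun s hs _ => hs) g i k h

end CLE

open CLE

theorem t_CLE : S_UNI → S_CLE := by
  intro hUNI n ℓ hn hℓ hnℓ F _ _ _ g
  classical
  have hFact : Fact ℓ.Prime := ⟨hℓ⟩
  have hn0 : n.factorial ≠ 0 := Nat.factorial_ne_zero n
  have hf0 : ((n.factorial : ℕ) : ZMod ℓ) ≠ 0 := by
    rw [Ne, ZMod.natCast_eq_zero_iff]
    exact Nat.not_dvd_of_pos_of_lt (Nat.pos_of_ne_zero hn0) hnℓ
  set k : ℕ := (((n.factorial : ℕ) : ZMod ℓ)⁻¹).val with hk
  set m : ℕ := n.factorial * k with hm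
  have hmod : (m : ZMod ℓ) = 1 := by
    rw [hm, Nat.cast_mul, hk, ZMod.natCast_val, ZMod.cast_id', id, mul_inv_cancel₀ hf0]
  have hco : (n.factorial).Coprime ℓ := by
    rw [Nat.coprime_comm, hℓ.coprime_iff_not_dvd]
    exact Nat.not_dvd_of_pos_of_lt (Nat.pos_of_ne_zero hn0) hnℓ
  have hpos : 0 < m := by
    rcases Nat.eq_zero_or_pos m with h | h
    · rw [h] at hmod
      simp at hmod
    · exact h
  have hdvdℓ : (ℓ : ℤ) ∣ (m : ℤ) - 1 := by
    rw [← ZMod.intCast_zmod_eq_zero_iff_dvd]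
    push_cast
    rw [hmod, sub_self]
  have hkill := kill_all hUNI hn hℓ hnℓ g
  have hkt : ∀ (i j : Fin n) (h : i ≠ j) (t : ℤ), ((n.factorial * ℓ : ℕ) : ℤ) ∣ t →
      g (tv i j h t) = 1 := by
    intro i j h t ht
    apply hkill
    rw [mem_Gam]
    exact El_cgr (tv_El i j h ht)
  have hE : ∀ (i j : Fin n) (h : i ≠ j), (if h : i ≠ j then g (tr i j h (m : ℤ)) else 1) =
      g (tv i j h (m : ℤ)) := by
    intro i j h
    rw [dif_pos h, tr_eq]
  refine ⟨m, fun i j => if h : i ≠ j then g (tr i j h (m : ℤ)) else 1, ?_⟩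
  refine ⟨⟨k, rfl⟩, hmod, hpos, ?_, ?_, ?_, ?_, ?_⟩
  · intro i j h
    exact hE i j h
  · intro A hA
    apply hkill
    rw [Gam, MonoidHom.mem_ker]
    exact hA
  · intro i j h
    show (if h : i ≠ j then g (tr i j h (m : ℤ)) else 1) ^ ℓ = 1
    rw [hE i j h, ← map_pow, ← zpow_natCast, ← tv_mul_zpow]
    apply hkt
    rw [hm]
    push_cast
    exact ⟨k, by ring⟩
  · intro i j k' hij hjk hik
    show (if h : i ≠ j then g (tr i j h (m : ℤ)) else 1) *
      (if h : j ≠ k' then g (tr j k' h (m : ℤ)) else 1) =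
      (if h : i ≠ k' then g (tr i k' h (m : ℤ)) else 1) *
      ((if h : j ≠ k' then g (tr j k' h (m : ℤ)) else 1) *
        (if h : i ≠ j then g (tr i j h (m : ℤ)) else 1))
    rw [hE i j hij, hE j k' hjk, hE i k' hik, ← map_mul, tv_rel_gen hij hjk hik, map_mul, map_mul]
    congr 1
    have h1 : (m : ℤ) * m = (m : ℤ) * m - m + m := by ring
    rw [h1, tv_add, map_mul, hkt i k' hik _ ?_, one_mul]
    obtain ⟨c, hc⟩ := hdvdℓ
    have h2 : (m : ℤ) * m - m = ((n.factorial * ℓ : ℕ) : ℤ) * (k * c) := by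
      have h3 : (m : ℤ) * m - m = m * (m - 1) := by ring
      rw [h3, hc, hm]
      push_cast
      ring
    rw [h2]
    exact dvd_mul_right _ _
  · intro i j k' l hij hkl hjk hil
    show (if h : i ≠ j then g (tr i j h (m : ℤ)) else 1) *
      (if h : k' ≠ l then g (tr k' l h (m : ℤ)) else 1) =
      (if h : k' ≠ l then g (tr k' l h (m : ℤ)) else 1) *
        (if h : i ≠ j then g (tr i j h (m : ℤ)) else 1)
    rw [hE i j hij, hE k' l hkl, ← map_mul, tv_com_gen hij hkl hjk hil, map_mul]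

end Pool.Agent.T2h96.SN
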