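import Pool.Agent.T2h96.SN.Stm

set_option autoImplicit false

/-!
# Project SN, task CLG
-/

namespace Pool.Agent.T2h96.SN

namespace CLG

theorem ind {n : ℕ} [NeZero n] (Q : Fin n → Prop) (h0 : Q 0) (hs : ∀ k, Q k → Q (k + 1)) : ∀ k, Q k := by
  obtain ⟨m, rfl⟩ := Nat.exists_eq_succ_of_ne_zero (NeZero.ne n)
  intro k
  induction k using Fin.induction with
  | zero => exact h0
  | succ i ih =>
    rw [← Fin.coeSucc_eq_succ]
    exact hs _ ih

theorem one_ne {n : ℕ} [NeZero n] (hn : 3 ≤ n) : (1 : Fin n) ≠ 0 := by
  intro h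
  have h1 := congrArg Fin.val h
  rw [Fin.val_one', Fin.val_zero, Nat.mod_eq_of_lt (by omega : 1 < n)] at h1
  omega

end CLG

theorem t_CLG : S_CLG := by
  intro n _ hn G _ E hE
  have h1 : ∀ d : Fin n, d ≠ 0 → ∀ j, E (j + d) j ∈ Subgroup.closure (Set.range fun k : Fin n => E (k + 1) k) := by
    refine CLG.ind _ (fun h => absurd rfl h) ?_
    intro d hd hd1 j
    by_cases hd0 : d = 0
    · subst hd0
      rw [zero_add]
      exact Subgroup.subset_closure ⟨j, rfl⟩
    · have h2 := hE (j + (d + 1)) (j + d) j (by
          intro h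
          apply CLG.one_ne hn
          have := add_left_cancel h
          simpa using this)
        (by
          intro h
          exact hd0 (by simpa using h))
        (by
          intro h
          exact hd1 (by simpa using h))
      have h3 : E (j + (d + 1)) j = E (j + (d + 1)) (j + d) * E (j + d) j *
          (E (j + d) j * E (j + (d + 1)) (j + d))⁻¹ := by
        rw [h2]
        group
      have h4 : E (j + (d + 1)) (j + d) ∈
          Subgroup.closure (Set.range fun k : Fin n => E (k + 1) k) := by
        rw [← add_assoc]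
        exact Subgroup.subset_closure ⟨j + d, rfl⟩
      rw [h3]
      exact Subgroup.mul_mem _ (Subgroup.mul_mem _ h4 (hd hd0 j))
        (Subgroup.inv_mem _ (Subgroup.mul_mem _ (hd hd0 j) h4))
  intro i j hij
  have h2 := h1 (i - j) (sub_ne_zero.2 hij) j
  rwa [add_sub_cancel] at h2

end Pool.Agent.T2h96.SN
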