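import Pool.Agent.T2h96.SN.Stm
import Pool.Agent.T2h61.PR.T_FF

/-!
# (CLK) small image
-/

set_option autoImplicit false
set_option linter.unusedSimpArgs false
set_option linter.unusedVariables false

namespace Pool.Agent.T2h96.SN

open Matrix Pool.Agent.T2h61.PR Pool.Agent.T2h61.PR.FF Pool.Agent.Helper460_CSP

theorem t_CLK : S_CLK := by
  intro n ℓ hn hℓ hnℓ F _ _ _ g m E hE h1
  classical
  have hn0 : n.factorial ≠ 0 := Nat.factorial_ne_zero n
  have hcomℓ : Nat.Coprime m ℓ := by
    rw [Nat.coprime_comm, hℓ.coprime_iff_not_dvd, ← ZMod.natCast_eq_zero_iff, hE.mod]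
    have : Fact ℓ.Prime := ⟨hℓ⟩
    exact one_ne_zero
  have hgcd : Nat.gcd m (n.factorial * ℓ) = n.factorial := by
    rw [Nat.Coprime.gcd_mul_right_cancel_right _ hcomℓ.symm]
    exact Nat.gcd_eq_right hE.dvd
  have hk : ∀ (i k : Fin n) (h : i ≠ k), g (tv i k h ((n.factorial : ℕ) : ℤ)) = 1 := by
    intro i k h
    have h2 := Nat.gcd_eq_gcd_ab m (n.factorial * ℓ)
    rw [hgcd] at h2
    rw [h2, tv_add, map_mul, tv_mul_zpow, tv_mul_zpow, map_zpow, map_zpow]
    have h3 : g (tv i k h (m : ℤ)) = 1 := by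
      rw [← h1 i k h]
      exact (hE.def' i k h).symm
    have h4 : g (tv i k h ((n.factorial * ℓ : ℕ) : ℤ)) = 1 := by
      apply hE.kill
      have h5 := (cgr_red (n := n) (M := n.factorial * ℓ)
        (tv i k h ((n.factorial * ℓ : ℕ) : ℤ))).mp (El_cgr (tv_El i k h dvd_rfl))
      exact h5
    rw [h3, h4, _root_.one_zpow, _root_.one_zpow, one_mul]
  have hG : ∀ A ∈ Gam n (1 * n.factorial), g A = 1 := by
    intro A hA
    rw [one_mul] at hA
    exact ker_of hn hn0 g hk A hA
  have h6 := (card_img (Nat.coprime_one_left _) hn0 g hG).2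
  have h7 : (Gam n 1).map g = g.range := by
    have : Gam n 1 = ⊤ := by
      rw [eq_top_iff]
      intro A _
      rw [mem_Gam]
      intro i j
      simp
    rw [this, MonoidHom.range_eq_map]
  rw [h7] at h6
  exact h6

end Pool.Agent.T2h96.SN
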