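import Pool.Agent.T2h96.SN.Stm

set_option autoImplicit false

namespace Pool.Agent.T2h96.SN.CLN

open Matrix Pool.Agent.T2h61.PR

variable {n : ℕ} {F : Type} [Field F]

lemma perm (σ : Equiv.Perm (Fin n)) : ∃ Q : (Mn n F)ˣ, ∀ i j : Fin n, ∀ a : F,
    (Q : Mn n F) * (1 + single i j a) * ((Q⁻¹ : (Mn n F)ˣ) : Mn n F)
      = 1 + single (σ i) (σ j) a := by
  have h1 : ∀ τ : Equiv.Perm (Fin n), (Matrix.of fun i j => if i = τ j then (1 : F) else 0 : Mn n F) *
      (Matrix.of fun i j => if i = τ.symm j then (1 : F) else 0 : Mn n F) = 1 := by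
    intro τ
    ext i j
    rw [mul_apply]
    simp only [of_apply, one_apply]
    rw [Finset.sum_eq_single (τ.symm j)]
    · simp
    · intro b _ hb
      rw [if_neg hb, mul_zero]
    · intro h
      exact absurd (Finset.mem_univ _) h
  have h2 := h1 σ.symm
  rw [Equiv.symm_symm] at h2
  refine ⟨⟨Matrix.of fun i j => if i = σ j then (1 : F) else 0,
    Matrix.of fun i j => if i = σ.symm j then (1 : F) else 0, h1 σ, h2⟩, ?_⟩
  intro i j a
  have h3 : (Matrix.of fun i j => if i = σ j then (1 : F) else 0 : Mn n F) * single i j a =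
      single (σ i) (σ j) a * (Matrix.of fun i j => if i = σ j then (1 : F) else 0 : Mn n F) := by
    ext k l
    rw [mul_apply, mul_apply]
    rw [Finset.sum_eq_single i, Finset.sum_eq_single (σ j)]
    · simp only [of_apply, single]
      by_cases h4 : j = l
      · subst h4
        by_cases h5 : k = σ i
        · subst h5; simp
        · simp [h5, Ne.symm h5]
      · have h6 : ¬ σ j = σ l := fun h => h4 (σ.injective h)
        simp [h4, h6]
    · intro b _ hb
      simp [single, Ne.symm hb]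
    · intro h
      exact absurd (Finset.mem_univ _) h
    · intro b _ hb
      simp [single, Ne.symm hb]
    · intro h
      exact absurd (Finset.mem_univ _) h
  have h4 : (Matrix.of fun i j => if i = σ j then (1 : F) else 0 : Mn n F) * (1 + single i j a) =
      (1 + single (σ i) (σ j) a) * (Matrix.of fun i j => if i = σ j then (1 : F) else 0 : Mn n F) := by
    rw [mul_add, add_mul, mul_one, one_mul, h3]
  change (Matrix.of fun i j => if i = σ j then (1 : F) else 0 : Mn n F) * (1 + single i j a) *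
    (Matrix.of fun i j => if i = σ.symm j then (1 : F) else 0 : Mn n F) = _
  rw [h4, mul_assoc, h1 σ, mul_one]

lemma two_ne [NeZero n] (hn : 3 ≤ n) (k : Fin n) : k + 1 + 1 ≠ k := by
  intro h
  have h1 : (1 : Fin n) + 1 = 0 := by
    have := congrArg (fun x => -k + x) h
    simp only [neg_add_cancel] at this
    rw [← this]; abel
  have h2 := congrArg Fin.val h1
  simp only [Fin.val_add, Fin.val_one', Fin.val_zero] at h2
  rw [Nat.mod_eq_of_lt (by omega : 1 < n)] at h2
  rw [Nat.mod_eq_of_lt (by omega : 1 + 1 < n)] at h2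
  omega

lemma one_ne [NeZero n] (hn : 3 ≤ n) (k : Fin n) : k + 1 ≠ k := by
  intro h
  have h1 : (1 : Fin n) = 0 := by
    have := congrArg (fun x => -k + x) h
    simp only [neg_add_cancel] at this
    rw [← this]; abel
  have h2 := congrArg Fin.val h1
  simp only [Fin.val_one', Fin.val_zero] at h2
  rw [Nat.mod_eq_of_lt (by omega : 1 < n)] at h2
  omega

lemma not_comm [NeZero n] (hn : 3 ≤ n) (k : Fin n) {a b : F} (ha : a ≠ 0) (hb : b ≠ 0)
    (h : (cy k a : Mn n F) * cy (k + 1) b = cy (k + 1) b * cy k a) : False := by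
  have h1 := congrFun (congrFun h (k + 1 + 1)) k
  unfold cy at h1
  have e1 : (single (k + 1) k a : Mn n F) * single (k + 1 + 1) (k + 1) b = 0 :=
    single_mul_single_of_ne _ _ _ _ (two_ne hn k).symm _
  have e2 : (single (k + 1 + 1) (k + 1) b : Mn n F) * single (k + 1) k a
      = single (k + 1 + 1) k (b * a) := single_mul_single_same _ _ _ _ _
  simp only [mul_add, add_mul, one_mul, mul_one, e1, e2, Matrix.add_apply, Matrix.zero_apply,
    single_apply_same] at h1
  have h2 : b * a = 0 := by linear_combination -h1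
  exact (mul_ne_zero hb ha) h2

lemma uncj (g : (Mn n F)ˣ) (A B : Mn n F)
    (h : ((g : Mn n F) * A * ((g⁻¹ : (Mn n F)ˣ) : Mn n F)) *
        ((g : Mn n F) * B * ((g⁻¹ : (Mn n F)ˣ) : Mn n F)) =
      ((g : Mn n F) * B * ((g⁻¹ : (Mn n F)ˣ) : Mn n F)) *
        ((g : Mn n F) * A * ((g⁻¹ : (Mn n F)ˣ) : Mn n F))) : A * B = B * A := by
  have key : ∀ C D : Mn n F, ((g : Mn n F) * C * ((g⁻¹ : (Mn n F)ˣ) : Mn n F)) *
        ((g : Mn n F) * D * ((g⁻¹ : (Mn n F)ˣ) : Mn n F))
        = (g : Mn n F) * (C * D) * ((g⁻¹ : (Mn n F)ˣ) : Mn n F) := by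
    intro C D
    calc _ = (g : Mn n F) * C * (((g⁻¹ : (Mn n F)ˣ) : Mn n F) * (g : Mn n F)) * D *
        ((g⁻¹ : (Mn n F)ˣ) : Mn n F) := by simp only [mul_assoc]
      _ = _ := by rw [Units.inv_mul, mul_one]; simp only [mul_assoc]
  rw [key, key] at h
  exact (Units.mul_right_inj g).1 ((Units.mul_left_inj g⁻¹).1 h)

end Pool.Agent.T2h96.SN.CLN

namespace Pool.Agent.T2h96.SN

open Matrix Pool.Agent.T2h61.PR

theorem t_CLN : S_ADJ → S_CLN := by
  intro hADJ n _ hn F _ E hE ⟨π, g, d, hd0, hd⟩
  have hadj : ∀ k, π (k + 1) = π k + 1 ∨ π (k + 1) + 1 = π k := by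
    intro k
    by_contra hcon
    push Not at hcon
    obtain ⟨h1, h2⟩ := hcon
    have h3 := hE (π k + 1) (π k) (π (k + 1) + 1) (π (k + 1)) (CLN.one_ne hn _) (CLN.one_ne hn _)
      (fun h => h2 h.symm) (fun h => h1 h.symm)
    have h4 : (E (π k + 1) (π k) : Mn n F) * (E (π (k + 1) + 1) (π (k + 1)) : Mn n F)
        = (E (π (k + 1) + 1) (π (k + 1)) : Mn n F) * (E (π k + 1) (π k) : Mn n F) := by
      exact congrArg (fun x : SLn n F => x.1) h3
    rw [hd k, hd (k + 1)] at h4
    refine CLN.not_comm hn k (hd0 k) (hd0 (k + 1)) ?_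
    exact CLN.uncj g _ _ h4
  rcases hADJ n hn π hadj with ⟨c, hc⟩ | ⟨c, hc⟩
  · left
    obtain ⟨Q, hQ⟩ := CLN.perm (F := F) (Equiv.subRight c)
    refine ⟨g * Q, fun m => d (m - c), fun k => hd0 _, fun m => ?_⟩
    have h1 := hd (m - c)
    have h2 : π (m - c) = m := by rw [hc]; abel
    rw [h2] at h1
    rw [h1, Units.val_mul, _root_.mul_inv_rev, Units.val_mul]
    have h3 := hQ (m + 1) m (d (m - c))
    have h4 : (1 + single ((Equiv.subRight c) (m + 1)) ((Equiv.subRight c) m) (d (m - c)) : Mn n F)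
        = cy (m - c) (d (m - c)) := by
      unfold cy
      have e1 : (Equiv.subRight c) (m + 1) = m - c + 1 := by
        rw [Equiv.subRight_apply]; abel
      rw [e1, Equiv.subRight_apply]
    rw [← h4, ← h3]
    simp only [mul_assoc]
  · right
    obtain ⟨Q, hQ⟩ := CLN.perm (F := F) (Equiv.subLeft (c + 1))
    refine ⟨g * Q, fun m => d (c - m), fun k => hd0 _, fun m => ?_⟩
    have h1 := hd (c - m)
    have h2 : π (c - m) = m := by
      have := hc (c - m)
      have h3 := congrArg (fun x => x - (c - m)) this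
      simp only [add_sub_cancel_right] at h3
      rw [h3]; abel
    rw [h2] at h1
    rw [h1, Units.val_mul, _root_.mul_inv_rev, Units.val_mul]
    have h3 := hQ m (m + 1) (d (c - m))
    have h4 : (1 + single ((Equiv.subLeft (c + 1)) m) ((Equiv.subLeft (c + 1)) (m + 1)) (d (c - m)) : Mn n F)
        = cy (c - m) (d (c - m)) := by
      unfold cy
      have e1 : (Equiv.subLeft (c + 1)) m = c - m + 1 := by
        rw [Equiv.subLeft_apply]; abel
      have e2 : (Equiv.subLeft (c + 1)) (m + 1) = c - m := by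
        rw [Equiv.subLeft_apply]; abel
      rw [e1, e2]
    rw [← h4, ← h3]
    simp only [mul_assoc]

end Pool.Agent.T2h96.SN
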