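import Pool.Agent.T2h96.SN.Stm

set_option autoImplicit false

/-!
# Project SN, task CLP
-/

namespace Pool.Agent.T2h96.SN

open Matrix Pool.Agent.T2h61.PR

namespace CLP

variable {n : ℕ}

/-- strictly triangular for the rank function `r`, with entries divisible by `q` -/
def Low (r : Fin n → ℕ) (q : ℤ) (X : Mn n ℤ) : Prop :=
  ∀ a b, q ∣ X a b ∧ (¬ r b < r a → X a b = 0)

theorem Low.add {r : Fin n → ℕ} {q : ℤ} {X Y : Mn n ℤ} (hX : Low r q X) (hY : Low r q Y) :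
    Low r q (X + Y) := by
  intro a b
  refine ⟨?_, fun h => ?_⟩
  · rw [Matrix.add_apply]; exact dvd_add (hX a b).1 (hY a b).1
  · rw [Matrix.add_apply, (hX a b).2 h, (hY a b).2 h, add_zero]

theorem Low.mul {r : Fin n → ℕ} {q : ℤ} {X Y : Mn n ℤ} (hX : Low r q X) (hY : Low r q Y) :
    Low r q (X * Y) := by
  intro a b
  rw [Matrix.mul_apply]
  refine ⟨Finset.dvd_sum fun c _ => Dvd.dvd.mul_right (hX a c).1 _, fun h => ?_⟩
  apply Finset.sum_eq_zero
  intro c _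
  by_cases h1 : r c < r a
  · have h2 : ¬ r b < r c := fun h2 => h (h2.trans h1)
    rw [(hY c b).2 h2, mul_zero]
  · rw [(hX a c).2 h1, zero_mul]

/-- the powers -/
theorem Low.pow_dvd {r : Fin n → ℕ} {q : ℤ} {X : Mn n ℤ} (hX : Low r q X) {s : ℕ} (hs : 1 ≤ s) (a b : Fin n) :
    q ∣ (X ^ s) a b := by
  obtain ⟨t, rfl⟩ := Nat.exists_eq_add_of_le' hs
  rw [pow_succ', Matrix.mul_apply]
  exact Finset.dvd_sum fun c _ => Dvd.dvd.mul_right (hX a c).1 _

theorem Low.pow_zero' {r : Fin n → ℕ} {q : ℤ} {X : Mn n ℤ} (hX : Low r q X) (s : ℕ) :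
    ∀ a b, r a < r b + s → (X ^ s) a b = 0 := by
  induction s with
  | zero =>
    intro a b h
    rw [pow_zero, Matrix.one_apply_ne]
    rintro rfl
    omega
  | succ s ih =>
    intro a b h
    rw [pow_succ', Matrix.mul_apply]
    apply Finset.sum_eq_zero
    intro c _
    by_cases h1 : r c < r a
    · rw [ih c b (by omega), mul_zero]
    · rw [(hX a c).2 h1, zero_mul]

/-- the submonoid -/
def T (r : Fin n → ℕ) (q : ℤ) : Submonoid (SLn n ℤ) where
  carrier := {A | Low r q ((A : Mn n ℤ) - 1)}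
  one_mem' := by
    change Low r q ((1 : Mn n ℤ) - 1)
    rw [sub_self]
    exact fun a b => ⟨by simp, fun _ => rfl⟩
  mul_mem' := by
    intro A B hA hB
    have h1 : ((A * B : SLn n ℤ) : Mn n ℤ) - 1 =
        ((A : Mn n ℤ) - 1) + ((B : Mn n ℤ) - 1) + ((A : Mn n ℤ) - 1) * ((B : Mn n ℤ) - 1) := by
      rw [Matrix.SpecialLinearGroup.coe_mul]
      noncomm_ring
    change Low r q (((A * B : SLn n ℤ) : Mn n ℤ) - 1)
    rw [h1]
    exact (hA.add hB).add (hA.mul hB)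

theorem pow_red {r : Fin n → ℕ} {q : ℕ} (hr : ∀ a, r a < n) {ℓ : ℕ} (hℓ : ℓ.Prime) (hn : n ≤ ℓ)
    {A : SLn n ℤ} (hA : A ∈ T r (q : ℤ)) : rd n (ZMod (q * ℓ)) (A ^ ℓ) = 1 := by
  set X : Mn n ℤ := (A : Mn n ℤ) - 1 with hX
  have hXL : Low r (q : ℤ) X := hA
  have h1 : (A : Mn n ℤ) = 1 + X := by rw [hX]; abel
  have h2 : ((A ^ ℓ : SLn n ℤ) : Mn n ℤ) = ∑ s ∈ Finset.range (ℓ + 1), (ℓ.choose s : ℤ) • X ^ s := by
    rw [Matrix.SpecialLinearGroup.coe_pow, h1, add_comm, (Commute.one_right X).add_pow]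
    refine Finset.sum_congr rfl fun s _ => ?_
    rw [one_pow, mul_one, zsmul_eq_mul, Int.cast_natCast, (Nat.cast_commute (ℓ.choose s) (X ^ s)).eq]
  have h3' : ((A ^ ℓ : SLn n ℤ) : Mn n ℤ) - 1 =
      ∑ k ∈ Finset.range ℓ, (ℓ.choose (k + 1) : ℤ) • X ^ (k + 1) := by
    rw [h2, Finset.sum_range_succ']
    simp
  have h3 : ∀ a b, ((q * ℓ : ℕ) : ℤ) ∣ (((A ^ ℓ : SLn n ℤ) : Mn n ℤ) - 1) a b := by
    intro a b
    rw [h3', Matrix.sum_apply]
    apply Finset.dvd_sum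
    intro k hk
    rw [Matrix.smul_apply, smul_eq_mul]
    have hk' := Finset.mem_range.1 hk
    by_cases h : k + 1 < ℓ
    · have h5 : (ℓ : ℤ) ∣ (ℓ.choose (k + 1) : ℤ) := by
        exact_mod_cast hℓ.dvd_choose_self (Nat.succ_ne_zero k) h
      have h6 := hXL.pow_dvd (s := k + 1) (by omega) a b
      rw [Nat.cast_mul, mul_comm]
      exact mul_dvd_mul h5 h6
    · have h7 : k + 1 = ℓ := by omega
      have h8 := hr a
      rw [hXL.pow_zero' (k + 1) a b (by omega), mul_zero]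
      exact dvd_zero _
  ext a b
  change ((((A ^ ℓ : SLn n ℤ) : Mn n ℤ) a b : ℤ) : ZMod (q * ℓ)) = (1 : Mn n (ZMod (q * ℓ))) a b
  have h4 := (ZMod.intCast_zmod_eq_zero_iff_dvd _ _).2 (h3 a b)
  rw [Matrix.sub_apply, Int.cast_sub, sub_eq_zero] at h4
  rw [h4, Matrix.one_apply, Matrix.one_apply]
  split_ifs <;> simp

/-- successor in `Fin n` -/
theorem val_succ [NeZero n] (hn : 2 ≤ n) (x : Fin n) (h : x + 1 ≠ 0) : (x + 1).val = x.val + 1 := by
  have h1 : (x + 1).val = (x.val + 1) % n := by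
    rw [Fin.val_add, Fin.val_one', Nat.mod_eq_of_lt (by omega : 1 < n)]
  have h2 := x.2
  by_cases h3 : x.val + 1 < n
  · rw [h1, Nat.mod_eq_of_lt h3]
  · exfalso
    apply h
    apply Fin.ext
    rw [h1, Fin.val_zero, (by omega : x.val + 1 = n), Nat.mod_self]

end CLP

theorem t_CLP : S_CLP := by
  intro n ℓ _ hn hℓ hnℓ F _ _ _ g m E hE i
  set r : Fin n → ℕ := fun a => (a - (i + 1)).val with hr
  have hr' : ∀ a, r a < n := fun a => (a - (i + 1)).2
  have hnl : n ≤ ℓ := (Nat.self_le_factorial n).trans hnℓ.le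
  have hpow : ∀ A ∈ CLP.T r (n.factorial : ℤ), g A ^ ℓ = 1 := by
    intro A hA
    rw [← map_pow]
    exact hE.kill _ (CLP.pow_red hr' hℓ hnl hA)
  refine ⟨{ carrier := {h | ∃ A ∈ CLP.T r (n.factorial : ℤ), g A = h}
            one_mem' := ⟨1, (CLP.T r (n.factorial : ℤ)).one_mem, map_one g⟩
            mul_mem' := ?_
            inv_mem' := ?_ }, ?_, ?_⟩
  · rintro _ _ ⟨A, hA, rfl⟩ ⟨B, hB, rfl⟩
    exact ⟨A * B, (CLP.T r (n.factorial : ℤ)).mul_mem hA hB, map_mul g A B⟩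
  · rintro _ ⟨A, hA, rfl⟩
    refine ⟨A ^ (ℓ - 1), (CLP.T r (n.factorial : ℤ)).pow_mem hA _, ?_⟩
    have h1 : g A ^ (ℓ - 1) * g A = 1 := by
      rw [← pow_succ, Nat.sub_add_cancel hℓ.one_lt.le]
      exact hpow A hA
    rw [map_pow]
    exact eq_inv_of_mul_eq_one_left h1
  · rintro _ ⟨A, hA, rfl⟩
    exact hpow A hA
  · intro j hj
    have hne : j + 1 ≠ j := by
      intro h
      have h1 : (1 : Fin n) = 0 := by
        have : j + 1 = j + 0 := by rw [h, add_zero]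
        exact add_left_cancel this
      have h2 := congrArg Fin.val h1
      rw [Fin.val_one', Fin.val_zero, Nat.mod_eq_of_lt (by omega : 1 < n)] at h2
      omega
    refine ⟨tr (j + 1) j hne (m : ℤ), ?_, (hE.def' _ _ hne).symm⟩
    have h1 : ((tr (j + 1) j hne (m : ℤ) : SLn n ℤ) : Mn n ℤ) - 1 = Matrix.single (j + 1) j (m : ℤ) := by
      change Matrix.transvection (j + 1) j (m : ℤ) - 1 = _
      rw [Matrix.transvection, add_sub_cancel_left]
    change CLP.Low r (n.factorial : ℤ) (((tr (j + 1) j hne (m : ℤ) : SLn n ℤ) : Mn n ℤ) - 1)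
    rw [h1]
    intro a b
    rw [Matrix.single_apply]
    split_ifs with h2
    · refine ⟨by exact_mod_cast hE.dvd, fun h3 => ?_⟩
      exfalso
      apply h3
      obtain ⟨rfl, rfl⟩ := h2
      have h4 : (j - (i + 1)) + 1 ≠ 0 := by
        intro h5
        apply hj
        have : j - (i + 1) + 1 = j - i := by abel
        rw [this, sub_eq_zero] at h5
        exact h5
      have h6 := CLP.val_succ (by omega) _ h4
      have h7 : r (j + 1) = ((j - (i + 1)) + 1).val := by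
        rw [hr]
        congr 1
        abel
      rw [h7, h6]
      exact Nat.lt_succ_self _
    · exact ⟨dvd_zero _, fun _ => rfl⟩

end Pool.Agent.T2h96.SN
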