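import Pool.Agent.T2h96.SN.Stm

set_option autoImplicit false

namespace Pool.Agent.T2h96.SN.CLR

open Matrix Pool.Agent.T2h61.PR

variable {n : ℕ} [NeZero n] {F : Type} [Field F]

/-- the class of `s` in `Fin n` -/
def e (n : ℕ) [NeZero n] (s : ℕ) : Fin n := Fin.ofNat n s

lemma e_val {s : ℕ} (h : s < n) : (e n s).val = s := by
  simp [e, Fin.ofNat, Nat.mod_eq_of_lt h]

lemma e_zero : e n 0 = 0 := by
  apply Fin.ext; simp [e, Fin.ofNat]

lemma e_succ (s : ℕ) : e n (s + 1) = e n s + 1 := by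
  apply Fin.ext
  simp [e, Fin.ofNat, Fin.add_def]

lemma e_one : e n 1 = 1 := by
  apply Fin.ext; simp [e, Fin.ofNat]

lemma e_self : e n n = 0 := by
  apply Fin.ext; simp [e, Fin.ofNat]

lemma e_eq (i : Fin n) : e n i.val = i := by
  apply Fin.ext; simp [e, Fin.ofNat, Nat.mod_eq_of_lt i.isLt]

lemma e_inj {s t : ℕ} (hs : s < n) (ht : t < n) (h : e n s = e n t) : s = t := by
  rw [← e_val hs, ← e_val ht, h]

lemma ne_add {s : ℕ} (h1 : 1 ≤ s) (h2 : s < n) (j : Fin n) : j + e n s ≠ j := by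
  intro h
  have h3 : e n s = 0 := by
    have := congrArg (fun x => -j + x) h
    simpa using this
  have h4 : s = 0 := e_inj h2 (by omega) (by rw [h3, e_zero])
  omega

lemma ne_add' {s t : ℕ} (hs : s < n) (ht : t < n) (hst : s ≠ t) (j : Fin n) :
    j + e n s ≠ j + e n t := by
  intro h
  exact hst (e_inj hs ht (add_left_cancel h))

lemma step {i j k : Fin n} (hij : i ≠ j) (hjk : j ≠ k) (hik : i ≠ k) (A B C : (Mn n F)ˣ)
    {a b : F} (hA : (A : Mn n F) = 1 + single i j a) (hB : (B : Mn n F) = 1 + single j k b)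
    (h : A * B = C * (B * A)) : (C : Mn n F) = 1 + single i k (a * b) := by
  have h1 : ((1 + single i k (a * b)) : Mn n F) * ((B * A : (Mn n F)ˣ) : Mn n F)
      = ((A * B : (Mn n F)ˣ) : Mn n F) := by
    rw [Units.val_mul, Units.val_mul, hA, hB]
    have e1 : (single j k b : Mn n F) * single i j a = 0 :=
      single_mul_single_of_ne _ _ _ _ hik.symm _
    have e2 : (single i k (a * b) : Mn n F) * single j k b = 0 :=
      single_mul_single_of_ne _ _ _ _ hjk.symm _
    have e3 : (single i k (a * b) : Mn n F) * single i j a = 0 :=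
      single_mul_single_of_ne _ _ _ _ hik.symm _
    have e4 : (single i j a : Mn n F) * single j k b = single i k (a * b) :=
      single_mul_single_same _ _ _ _ _
    simp only [mul_add, add_mul, one_mul, mul_one, e1, e2, e3, e4, add_zero, zero_add]
    abel
  have h2 : (C : Mn n F) * ((B * A : (Mn n F)ˣ) : Mn n F)
      = ((1 + single i k (a * b)) : Mn n F) * ((B * A : (Mn n F)ˣ) : Mn n F) := by
    rw [h1, h, Units.val_mul C (B * A)]
  exact (Units.mul_left_inj (B * A)).1 h2

/-- the formula for all entries -/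
lemma chain (hn : 3 ≤ n) (X : Fin n → Fin n → (Mn n F)ˣ)
    (hX : ∀ i j k, i ≠ j → j ≠ k → i ≠ k → X i j * X j k = X i k * (X j k * X i j))
    (d : Fin n → F) (hd : ∀ k, (X (k + 1) k : Mn n F) = 1 + single (k + 1) k (d k)) :
    ∀ s : ℕ, 1 ≤ s → s < n → ∀ j : Fin n,
      (X (j + e n s) j : Mn n F) = 1 + single (j + e n s) j (∏ t ∈ Finset.range s, d (j + e n t)) := by
  intro s hs
  induction s, hs using Nat.le_induction with
  | base =>
    intro h1 j
    rw [e_one, Finset.prod_range_one, e_zero, add_zero]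
    exact hd j
  | succ s hs ih =>
    intro h1 j
    have h2 := ih (by omega) j
    have h3 : j + e n (s + 1) = j + e n s + 1 := by rw [e_succ, add_assoc]
    have h4 := hd (j + e n s)
    have hne1 : j + e n s + 1 ≠ j + e n s := by
      rw [← h3]; exact ne_add' h1 (by omega) (by omega) j
    have hne2 : j + e n s ≠ j := ne_add hs (by omega) j
    have hne3 : j + e n s + 1 ≠ j := by
      rw [← h3]; exact ne_add (by omega) h1 j
    have h5 := step hne1 hne2 hne3 (X (j + e n s + 1) (j + e n s)) (X (j + e n s) j)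
      (X (j + e n s + 1) j) h4 h2 (hX _ _ _ hne1 hne2 hne3)
    rw [h3, h5, Finset.prod_range_succ, mul_comm]

lemma prod_shift (d : Fin n → F) (j : Fin n) :
    ∏ t ∈ Finset.range n, d (j + e n t) = ∏ k, d k := by
  rw [Finset.prod_range]
  have h1 : ∀ i : Fin n, d (j + e n i.val) = d (Equiv.addLeft j i) := by
    intro i
    rw [e_eq]
    rfl
  rw [Finset.prod_congr rfl fun i _ => h1 i]
  exact Equiv.prod_comp (Equiv.addLeft j) d

lemma prod_one (hn : 3 ≤ n) (X : Fin n → Fin n → (Mn n F)ˣ)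
    (hX : ∀ i j k, i ≠ j → j ≠ k → i ≠ k → X i j * X j k = X i k * (X j k * X i j))
    (d : Fin n → F) (hd0 : ∀ k, d k ≠ 0)
    (hd : ∀ k, (X (k + 1) k : Mn n F) = 1 + single (k + 1) k (d k)) : ∏ k, d k = 1 := by
  have hch := chain hn X hX d hd
  -- the element `j = 0`
  set j : Fin n := 0 with hj
  have h2 := hch 2 (by norm_num) (by omega) j
  have h3 := hch (n - 1) (by omega) (by omega) (j + e n 2)
  have e1 : (e n 1 : Fin n) = 1 := e_one
  have e2 : (e n 2 : Fin n) = 1 + 1 := by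
    have := e_succ (n := n) 1
    rw [e1] at this
    exact this
  have e3 : j + e n 2 + e n (n - 1) = j + e n 1 := by
    have h5 : e n (n - 1) + 1 = 0 := by
      rw [← e_succ, Nat.sub_add_cancel (by omega), e_self]
    rw [e2, e1]
    calc j + (1 + 1) + e n (n - 1) = j + 1 + (e n (n - 1) + 1) := by abel
      _ = j + 1 := by rw [h5, add_zero]
  rw [e3] at h3
  have hne1 : j + e n 1 ≠ j + e n 2 := ne_add' (by omega) (by omega) (by norm_num) j
  have hne2 : j + e n 2 ≠ j := ne_add (by norm_num) (by omega) j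
  have hne3 : j + e n 1 ≠ j := ne_add (by norm_num) (by omega) j
  have h4 := step hne1 hne2 hne3 (X (j + e n 1) (j + e n 2)) (X (j + e n 2) j)
      (X (j + e n 1) j) h3 h2 (hX _ _ _ hne1 hne2 hne3)
  have h5 := hch 1 (by norm_num) (by omega) j
  rw [h5] at h4
  have h6 : (∏ t ∈ Finset.range 1, d (j + e n t)) =
      (∏ t ∈ Finset.range (n - 1), d (j + e n 2 + e n t)) * ∏ t ∈ Finset.range 2, d (j + e n t) := by
    have h9 : (single (j + e n 1) j (∏ t ∈ Finset.range 1, d (j + e n t)) : Mn n F)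
        = single (j + e n 1) j ((∏ t ∈ Finset.range (n - 1), d (j + e n 2 + e n t)) *
          ∏ t ∈ Finset.range 2, d (j + e n t)) := add_left_cancel h4
    have h10 := congrFun (congrFun h9 (j + e n 1)) j
    rwa [single_apply_same, single_apply_same] at h10
  have h7 : (∏ t ∈ Finset.range (n - 1), d (j + e n 2 + e n t)) * d (j + e n 1) = ∏ k, d k := by
    rw [← prod_shift d (j + e n 2)]
    have h9 : Finset.range n = Finset.range ((n - 1) + 1) := by
      rw [Nat.sub_add_cancel (by omega)]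
    rw [h9, Finset.prod_range_succ, e3]
  rw [Finset.prod_range_one, Finset.prod_range_succ, Finset.prod_range_one] at h6
  have h8 : d (j + e n 0) * (∏ k, d k) = d (j + e n 0) * 1 := by
    rw [mul_one, ← h7]
    conv_rhs => rw [h6]
    ring
  exact mul_left_cancel₀ (hd0 _) h8

end Pool.Agent.T2h96.SN.CLR

namespace Pool.Agent.T2h96.SN

open Matrix Pool.Agent.T2h61.PR

theorem t_CLR : S_NFS → S_CLR := by
  intro hNFS n _ hn F _ E hE ⟨u, d, hd0, hd⟩
  -- conjugation
  have key : ∀ v : (Mn n F)ˣ, ∀ c : Fin n → F,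
      (∀ k, (E (k + 1) k : Mn n F) =
        (v : Mn n F) * (1 + Matrix.single (k + 1) k (c k)) * ((v⁻¹ : (Mn n F)ˣ) : Mn n F)) →
      ∃ X : Fin n → Fin n → (Mn n F)ˣ,
        (∀ i j k, i ≠ j → j ≠ k → i ≠ k → X i j * X j k = X i k * (X j k * X i j)) ∧
        (∀ k, (X (k + 1) k : Mn n F) = 1 + single (k + 1) k (c k)) ∧
        ∀ i j, (E i j : Mn n F) = (v : Mn n F) * (X i j : Mn n F) * ((v⁻¹ : (Mn n F)ˣ) : Mn n F) := by
    intro v c hc
    refine ⟨fun i j => v⁻¹ * SpecialLinearGroup.toGL (E i j) * v, ?_, ?_, ?_⟩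
    · intro i j k h1 h2 h3
      have h4 := congrArg (SpecialLinearGroup.toGL (n := Fin n) (R := F)) (hE i j k h1 h2 h3)
      simp only [map_mul] at h4
      calc v⁻¹ * SpecialLinearGroup.toGL (E i j) * v * (v⁻¹ * SpecialLinearGroup.toGL (E j k) * v)
          = v⁻¹ * (SpecialLinearGroup.toGL (E i j) * SpecialLinearGroup.toGL (E j k)) * v := by group
        _ = _ := by rw [h4]; group
    · intro k
      simp only [Units.val_mul]
      have h5 : ((SpecialLinearGroup.toGL (E (k + 1) k) : (Mn n F)ˣ) : Mn n F) = (E (k + 1) k : Mn n F) := rfl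
      rw [h5, hc k]
      simp only [← mul_assoc, Units.inv_mul, one_mul]
      rw [mul_assoc, Units.inv_mul, mul_one]
    · intro i j
      simp only [Units.val_mul]
      have h5 : ((SpecialLinearGroup.toGL (E i j) : (Mn n F)ˣ) : Mn n F) = (E i j : Mn n F) := rfl
      rw [h5]
      simp only [← mul_assoc, Units.mul_inv, one_mul]
      rw [mul_assoc, Units.mul_inv, mul_one]
  obtain ⟨X, hX1, hX2, hX3⟩ := key u d hd
  have hp := CLR.prod_one hn X hX1 d hd0 hX2
  obtain ⟨D, hD⟩ := hNFS n F d (fun _ => 1) hd0 (fun _ => one_ne_zero) (by rw [hp]; simp)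
  have hd' : ∀ k, (E (k + 1) k : Mn n F) = ((u * D⁻¹ : (Mn n F)ˣ) : Mn n F) *
      (1 + Matrix.single (k + 1) k ((fun _ => (1 : F)) k)) * (((u * D⁻¹)⁻¹ : (Mn n F)ˣ) : Mn n F) := by
    intro k
    have h1 := hD k
    rw [hd k, Units.val_mul]
    have h2 : ((u * D⁻¹)⁻¹ : (Mn n F)ˣ) = D * u⁻¹ := by group
    rw [h2, Units.val_mul]
    have h3 : (1 + Matrix.single (k + 1) k ((fun _ => (1 : F)) k) : Mn n F) = cy k 1 := rfl
    have h4 : (1 + Matrix.single (k + 1) k (d k) : Mn n F) = cy k (d k) := rfl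
    rw [h3, h4, ← h1]
    simp only [← mul_assoc]
    rw [mul_assoc (u : Mn n F) _ (D : Mn n F), Units.inv_mul, mul_one,
      mul_assoc _ _ (D : Mn n F), Units.inv_mul, mul_one]
  obtain ⟨Y, hY1, hY2, hY3⟩ := key (u * D⁻¹) (fun _ => 1) hd'
  refine ⟨u * D⁻¹, fun i j hij => ?_⟩
  rw [hY3 i j]
  have h1 := CLR.chain hn Y hY1 (fun _ => 1) hY2 (i - j).val (by
    rcases Nat.eq_zero_or_pos (i - j).val with h | h
    · exact absurd (sub_eq_zero.1 (Fin.ext (by simpa using h))) hij
    · exact h) (i - j).isLt j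
  rw [CLR.e_eq] at h1
  have h2 : j + (i - j) = i := by abel
  rw [h2] at h1
  rw [h1]
  simp

end Pool.Agent.T2h96.SN
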