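import Pool.Agent.T2h96.SN.Stm

set_option autoImplicit false

namespace Pool.Agent.T2h96.SN

open Matrix Pool.Agent.T2h61.PR

namespace CT

/-- the trace of a conjugate -/
lemma trace_conj {n : ℕ} {F : Type} [Field F] (u : (Mn n F)ˣ) (M : Mn n F) :
    ((u : Mn n F) * M * ((u⁻¹ : (Mn n F)ˣ) : Mn n F)).trace = M.trace := by
  rw [Matrix.trace_mul_comm, ← mul_assoc, Units.inv_mul, one_mul]

/-- the two types of homomorphisms, on traces -/
lemma cl_trace {n : ℕ} {F : Type} [Field F] (g : SLn n ℤ →* SLn n F)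
    (h : (∃ u : (Mn n F)ˣ, ∀ y, (g y : Mn n F) =
      (u : Mn n F) * (rd n F y : Mn n F) * ((u⁻¹ : (Mn n F)ˣ) : Mn n F)) ∨
      (∃ u : (Mn n F)ˣ, ∀ y, (g y : Mn n F) =
      (u : Mn n F) * ((rd n F y⁻¹ : SLn n F) : Mn n F)ᵀ * ((u⁻¹ : (Mn n F)ˣ) : Mn n F))) :
    (∀ y, (g y : Mn n F).trace = (rd n F y : Mn n F).trace) ∨
    (∀ y, (g y : Mn n F).trace = (rd n F y⁻¹ : Mn n F).trace) := by
  rcases h with ⟨u, hu⟩ | ⟨u, hu⟩
  · left
    intro y
    rw [hu, trace_conj]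
  · right
    intro y
    rw [hu, trace_conj, Matrix.trace_transpose]

lemma trace_mapSL {n : ℕ} {A B : Type} [CommRing A] [CommRing B] (f : A →+* B) (M : SLn n A) :
    ((Matrix.SpecialLinearGroup.map f M : SLn n B) : Mn n B).trace = f (M : Mn n A).trace := by
  simp [Matrix.trace, Matrix.SpecialLinearGroup.map_apply_coe]

end CT

open CT

theorem t_CT : S_RED → S_CL → S_CT := by
  intro hRED hCL n hn Λ _ hFG hS K _ _ ρ₁ ρ₂ hi₁ hi₂ l
  by_contra hcon
  push Not at hcon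
  obtain ⟨h1, h2⟩ := hcon
  obtain ⟨B₁, c, hCL⟩ := hCL n hn
  classical
  obtain ⟨B₂, hRED⟩ := hRED n Λ hFG K Bool (fun b => cond b ρ₁ ρ₂)
    {(ρ₁ l : Mn n K).trace - (ρ₂ l : Mn n K).trace,
      (ρ₁ l : Mn n K).trace - (ρ₂ l⁻¹ : Mn n K).trace} c (by
        intro z hz
        simp only [Finset.mem_insert, Finset.mem_singleton] at hz
        rcases hz with rfl | rfl
        · exact sub_ne_zero.mpr h1
        · exact sub_ne_zero.mpr h2)
  obtain ⟨ℓ, hℓ, hℓp⟩ := Nat.exists_infinite_primes (B₁ + B₂ + 1)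
  obtain ⟨F, _, _, _, A, ψ, ρ', hρ', hZ, hrange⟩ := hRED ℓ hℓp (by omega)
  set σ : Bool → Λ →* SLn n F := fun b => (Matrix.SpecialLinearGroup.map ψ).comp (ρ' b) with hσ
  have hc1 : c < Nat.card (σ true).range := hrange true hi₁
  have hc2 : c < Nat.card (σ false).range := hrange false hi₂
  set P : Λ →* SLn n F × SLn n F := (σ true).prod (σ false) with hP
  have : Finite (SLn n F) := inferInstance
  obtain ⟨g, hg⟩ := (hS P.range).1 ⟨P.rangeRestrict, P.rangeRestrict_surjective⟩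
  set g₁ : SLn n ℤ →* SLn n F := (MonoidHom.fst _ _).comp (P.range.subtype.comp g) with hg₁
  set g₂ : SLn n ℤ →* SLn n F := (MonoidHom.snd _ _).comp (P.range.subtype.comp g) with hg₂
  have hlift : ∀ m : Λ, ∃ y, g₁ y = σ true m ∧ g₂ y = σ false m := by
    intro m
    obtain ⟨y, hy⟩ := hg ⟨P m, m, rfl⟩
    refine ⟨y, ?_, ?_⟩
    · simp [hg₁, hy, hP]
    · simp [hg₂, hy, hP]
  have hr1 : (σ true).range ≤ g₁.range := by
    rintro _ ⟨m, rfl⟩
    obtain ⟨y, hy, -⟩ := hlift m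
    exact ⟨y, hy⟩
  have hr2 : (σ false).range ≤ g₂.range := by
    rintro _ ⟨m, rfl⟩
    obtain ⟨y, -, hy⟩ := hlift m
    exact ⟨y, hy⟩
  have hcard1 : ¬ Nat.card g₁.range ≤ c := by
    have := Subgroup.card_le_of_le hr1
    omega
  have hcard2 : ¬ Nat.card g₂.range ≤ c := by
    have := Subgroup.card_le_of_le hr2
    omega
  have t1 := cl_trace g₁ ((hCL ℓ hℓp (by omega) F g₁).resolve_left hcard1)
  have t2 := cl_trace g₂ ((hCL ℓ hℓp (by omega) F g₂).resolve_left hcard2)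
  obtain ⟨y, hy1, hy2⟩ := hlift l
  have hy2' : g₂ y⁻¹ = σ false l⁻¹ := by rw [map_inv, hy2, map_inv]
  -- the differences
  have key : ∀ m : Λ, (ρ₁ l : Mn n K).trace - (ρ₂ m : Mn n K).trace ∈
      ({(ρ₁ l : Mn n K).trace - (ρ₂ l : Mn n K).trace,
      (ρ₁ l : Mn n K).trace - (ρ₂ l⁻¹ : Mn n K).trace} : Finset K) →
      (σ true l : Mn n F).trace ≠ (σ false m : Mn n F).trace := by
    intro m hm heq
    obtain ⟨a, ha, ha0⟩ := hZ _ hm
    apply ha0
    have e1 : (ρ₁ l : Mn n K).trace = ((ρ' true l : Mn n A).trace : A) := by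
      have := hρ' true l
      simp only [cond_true] at this
      rw [← this, trace_mapSL]; rfl
    have e2 : (ρ₂ m : Mn n K).trace = ((ρ' false m : Mn n A).trace : A) := by
      have := hρ' false m
      simp only [cond_false] at this
      rw [← this, trace_mapSL]; rfl
    have e3 : a = (ρ' true l : Mn n A).trace - (ρ' false m : Mn n A).trace := by
      apply Subtype.ext
      rw [ha, e1, e2]; rfl
    rw [e3, map_sub, ← trace_mapSL ψ, ← trace_mapSL ψ]
    exact sub_eq_zero.mpr heq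
  have k1 := key l (by simp)
  have k2 := key l⁻¹ (by simp)
  rw [← hy1, ← hy2] at k1
  rw [← hy1, ← hy2'] at k2
  rcases t1 with t1 | t1 <;> rcases t2 with t2 | t2
  · exact k1 (by rw [t1, t2])
  · exact k2 (by rw [t1, t2, inv_inv])
  · exact k2 (by rw [t1, t2])
  · exact k1 (by rw [t1, t2])

end Pool.Agent.T2h96.SN
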