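import Pool.Agent.T2h96.SN.Stm

set_option autoImplicit false

/-!
# Project SN, task DIM
-/

namespace Pool.Agent.T2h96.SN

open Matrix Pool.Agent.T2h61.PR

theorem t_DIM : S_FIXV → S_DIM := by
  intro hF n ℓ _ F V G _ _ _ _ _ _ Φ y P U hn hU hinv hpow hy hv
  have h1 : ∀ i, ∃ v, v ∉ U ∧ ∀ g ∈ P i, Φ g v - v ∈ U := fun i =>
    hF ℓ F V G Φ (P i) U hU (hinv i) (hpow i)
  choose v hvU hvP using h1
  refine ⟨v, fun i j hij => hvP i _ (hy i j hij), ?_⟩
  rw [Fintype.linearIndependent_iff]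
  intro a ha j
  by_contra haj
  apply hvU j
  apply hv
  intro t
  by_cases htj : t = j
  · subst htj
    -- `Φ (y t) - 1` maps `U` to `U`
    obtain ⟨i, hi⟩ : ∃ i : Fin n, i ≠ t := by
      have : Nontrivial (Fin n) := Fin.nontrivial_iff_two_le.2 hn
      exact exists_ne t
    have h2 : ∑ i, a i • v i ∈ U := by
      rw [← Submodule.Quotient.mk_eq_zero U, ← Submodule.mkQ_apply, map_sum]
      simpa using ha
    have h3 : Φ (y t) (∑ i, a i • v i) - ∑ i, a i • v i ∈ U :=
      U.sub_mem (hinv i _ (hy i t (Ne.symm hi)) _ h2) h2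
    rw [map_sum, ← Finset.sum_sub_distrib, ← Finset.add_sum_erase _ _ (Finset.mem_univ t)] at h3
    have h4 : ∑ x ∈ Finset.univ.erase t, (Φ (y t) (a x • v x) - a x • v x) ∈ U := by
      apply U.sum_mem
      intro x hx
      have hx' := Finset.ne_of_mem_erase hx
      rw [map_smul, ← smul_sub]
      exact U.smul_mem _ (hvP x _ (hy x t (Ne.symm hx')))
    have h5 := U.sub_mem h3 h4
    rw [add_sub_cancel_right, map_smul, ← smul_sub] at h5
    have h6 := U.smul_mem (a t)⁻¹ h5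
    rwa [smul_smul, inv_mul_cancel₀ haj, one_smul] at h6
  · exact hvP j _ (hy j t htj)

end Pool.Agent.T2h96.SN
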