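import Pool.Agent.T2h96.SN.T_CT
import Pool.Agent.T2h61.PR.T_TOP
import Pool.Agent.T2h77N.Gen

set_option autoImplicit false

namespace Pool.Agent.T2h96.SN

open Matrix Pool.Agent.T2h61.PR

namespace EL

/-- conjugation by a unit -/
noncomputable def cj {n : ℕ} {F : Type} [Field F] (u : (Mn n F)ˣ) : SLn n F →* SLn n F where
  toFun M := ⟨((u⁻¹ : (Mn n F)ˣ) : Mn n F) * (M : Mn n F) * (u : Mn n F), by
    rw [Matrix.det_mul, Matrix.det_mul, M.2, mul_one, ← Matrix.det_mul, Units.inv_mul,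
      Matrix.det_one]⟩
  map_one' := by
    apply Subtype.ext
    change ((u⁻¹ : (Mn n F)ˣ) : Mn n F) * ((1 : SLn n F) : Mn n F) * (u : Mn n F) = _
    rw [Matrix.SpecialLinearGroup.coe_one, mul_one, Units.inv_mul]
  map_mul' a b := by
    apply Subtype.ext
    change ((u⁻¹ : (Mn n F)ˣ) : Mn n F) * ((a * b : SLn n F) : Mn n F) * (u : Mn n F) =
      (((u⁻¹ : (Mn n F)ˣ) : Mn n F) * (a : Mn n F) * (u : Mn n F)) *
        (((u⁻¹ : (Mn n F)ˣ) : Mn n F) * (b : Mn n F) * (u : Mn n F))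
    rw [Matrix.SpecialLinearGroup.coe_mul]
    have : (u : Mn n F) * ((u⁻¹ : (Mn n F)ˣ) : Mn n F) = 1 := Units.mul_inv u
    calc ((u⁻¹ : (Mn n F)ˣ) : Mn n F) * ((a : Mn n F) * (b : Mn n F)) * (u : Mn n F)
        = ((u⁻¹ : (Mn n F)ˣ) : Mn n F) * (a : Mn n F) *
          ((u : Mn n F) * ((u⁻¹ : (Mn n F)ˣ) : Mn n F)) * (b : Mn n F) * (u : Mn n F) := by
          rw [this]; simp only [mul_one, mul_assoc]
      _ = _ := by simp only [mul_assoc]

lemma cj_coe {n : ℕ} {F : Type} [Field F] (u : (Mn n F)ˣ) (M : SLn n F) :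
    (cj u M : Mn n F) = ((u⁻¹ : (Mn n F)ˣ) : Mn n F) * (M : Mn n F) * (u : Mn n F) := rfl

lemma cj_conj {n : ℕ} {F : Type} [Field F] (u : (Mn n F)ˣ) (M N : SLn n F)
    (h : (M : Mn n F) = (u : Mn n F) * (N : Mn n F) * ((u⁻¹ : (Mn n F)ˣ) : Mn n F)) :
    cj u M = N := by
  apply Subtype.ext
  rw [cj_coe, h]
  have : ((u⁻¹ : (Mn n F)ˣ) : Mn n F) * (u : Mn n F) = 1 := Units.inv_mul u
  calc ((u⁻¹ : (Mn n F)ˣ) : Mn n F) * ((u : Mn n F) * (N : Mn n F) *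
        ((u⁻¹ : (Mn n F)ˣ) : Mn n F)) * (u : Mn n F)
      = (((u⁻¹ : (Mn n F)ˣ) : Mn n F) * (u : Mn n F)) * (N : Mn n F) *
        (((u⁻¹ : (Mn n F)ˣ) : Mn n F) * (u : Mn n F)) := by simp only [mul_assoc]
    _ = N := by rw [this, one_mul, mul_one]

lemma cj_one {n : ℕ} {F : Type} [Field F] (u : (Mn n F)ˣ) (M : SLn n F) (h : cj u M = 1) :
    M = 1 := by
  apply Subtype.ext
  have h1 : ((u⁻¹ : (Mn n F)ˣ) : Mn n F) * (M : Mn n F) * (u : Mn n F) = 1 := by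
    rw [← cj_coe, h, Matrix.SpecialLinearGroup.coe_one]
  have : (u : Mn n F) * ((u⁻¹ : (Mn n F)ˣ) : Mn n F) = 1 := Units.mul_inv u
  calc (M : Mn n F) = ((u : Mn n F) * ((u⁻¹ : (Mn n F)ˣ) : Mn n F)) * (M : Mn n F) *
        ((u : Mn n F) * ((u⁻¹ : (Mn n F)ˣ) : Mn n F)) := by rw [this, one_mul, mul_one]
    _ = (u : Mn n F) * (((u⁻¹ : (Mn n F)ˣ) : Mn n F) * (M : Mn n F) * (u : Mn n F)) *
        ((u⁻¹ : (Mn n F)ˣ) : Mn n F) := by simp only [mul_assoc]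
    _ = ((1 : SLn n F) : Mn n F) := by
        rw [h1, mul_one, this, Matrix.SpecialLinearGroup.coe_one]

/-- the reduction to `F` factors through `ZMod ℓ` -/
lemma rd_fac (n ℓ : ℕ) (F : Type) [Field F] [CharP F ℓ] (y : SLn n ℤ) :
    Matrix.SpecialLinearGroup.map (n := Fin n) (ZMod.castHom (dvd_refl ℓ) F) (rd n (ZMod ℓ) y) =
      rd n F y := by
  ext i j
  simp [rd]

/-- the two cases together: after conjugation there is a surjective map `τ` from `SL (n, ℤ)` to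
`SL (n, ZMod ℓ)` -/
lemma cases {n ℓ : ℕ} [NeZero ℓ] {F : Type} [Field F] [CharP F ℓ] (g : SLn n ℤ →* SLn n F)
    (h : (∃ u : (Mn n F)ˣ, ∀ y, (g y : Mn n F) =
      (u : Mn n F) * (rd n F y : Mn n F) * ((u⁻¹ : (Mn n F)ˣ) : Mn n F)) ∨
      (∃ u : (Mn n F)ˣ, ∀ y, (g y : Mn n F) =
      (u : Mn n F) * ((rd n F y⁻¹ : SLn n F) : Mn n F)ᵀ * ((u⁻¹ : (Mn n F)ˣ) : Mn n F))) :
    ∃ (u : (Mn n F)ˣ) (τ : SLn n ℤ → SLn n (ZMod ℓ)), Function.Surjective τ ∧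
      ∀ y, Matrix.SpecialLinearGroup.map (n := Fin n) (ZMod.castHom (dvd_refl ℓ) F) (τ y) =
        cj u (g y) := by
  have hs := Pool.Agent.T2h77.N.surj n ℓ
  rcases h with ⟨u, hu⟩ | ⟨u, hu⟩
  · refine ⟨u, rd n (ZMod ℓ), hs, fun y => ?_⟩
    rw [rd_fac, cj_conj u (g y) (rd n F y) (hu y)]
  · refine ⟨u, fun y => (rd n (ZMod ℓ) y⁻¹).transpose, fun M => ?_, fun y => ?_⟩
    · obtain ⟨y, hy⟩ := hs (M.transpose)
      refine ⟨y⁻¹, ?_⟩
      change (rd n (ZMod ℓ) (y⁻¹)⁻¹).transpose = M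
      rw [inv_inv]
      change (Matrix.SpecialLinearGroup.map (n := Fin n) (Int.castRingHom (ZMod ℓ)) y).transpose = M
      rw [hy]
      ext i j
      simp
    · rw [cj_conj u (g y) (rd n F y⁻¹).transpose (hu y), ← rd_fac n ℓ F]
      beta_reduce
      generalize rd n (ZMod ℓ) y⁻¹ = N
      ext i j
      simp

end EL

open EL

theorem t_EL : S_RED → S_CL → S_EL := by
  intro hRED hCL n hn Λ _ hFG hS K _ _ ρ hi γ hγ
  obtain ⟨B₁, c, hCL⟩ := hCL n hn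
  classical
  obtain ⟨i, j, hij⟩ : ∃ i j, (ρ γ : Mn n K) i j ≠ (1 : Mn n K) i j := by
    by_contra hcon
    push Not at hcon
    apply hγ
    apply Subtype.ext
    ext i j
    exact hcon i j
  obtain ⟨B₂, hRED⟩ := hRED n Λ hFG K Unit (fun _ => ρ)
    {(ρ γ : Mn n K) i j - (1 : Mn n K) i j} c (by
        intro z hz
        simp only [Finset.mem_singleton] at hz
        subst hz
        exact sub_ne_zero.mpr hij)
  refine ⟨B₁ + B₂, fun ℓ hℓp hℓ => ?_⟩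
  obtain ⟨F, _, _, _, A, ψ, ρ', hρ', hZ, hrange⟩ := hRED ℓ hℓp (by omega)
  have : Fact ℓ.Prime := ⟨hℓp⟩
  have : NeZero ℓ := ⟨hℓp.ne_zero⟩
  set σ : Λ →* SLn n F := (Matrix.SpecialLinearGroup.map ψ).comp (ρ' ()) with hσ
  have hc1 : c < Nat.card σ.range := hrange () hi
  obtain ⟨g', hg'⟩ := (hS σ.range).1 ⟨σ.rangeRestrict, σ.rangeRestrict_surjective⟩
  set g : SLn n ℤ →* SLn n F := σ.range.subtype.comp g' with hg
  have hgr : g.range = σ.range := by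
    ext M
    constructor
    · rintro ⟨y, rfl⟩
      exact (g' y).2
    · intro hM
      obtain ⟨y, hy⟩ := hg' ⟨M, hM⟩
      exact ⟨y, by simp [hg, hy]⟩
  have hcard : ¬ Nat.card g.range ≤ c := by
    rw [hgr]; omega
  obtain ⟨u, τ, hτ, hτg⟩ := cases (ℓ := ℓ) g ((hCL ℓ hℓp (by omega) F g).resolve_left hcard)
  have hinj : Function.Injective (ZMod.castHom (dvd_refl ℓ) F) := (ZMod.castHom (dvd_refl ℓ) F).injective
  obtain ⟨f, hf⟩ := lift_sl (ZMod.castHom (dvd_refl ℓ) F) hinj ((cj u).comp σ) Set.univ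
    (by simp) (fun l _ => by
      obtain ⟨y, hy⟩ : σ l ∈ g.range := hgr ▸ ⟨l, rfl⟩
      refine ⟨τ y, ?_⟩
      rw [hτg y, hy]; rfl)
  refine ⟨f, fun M => ?_, fun hfγ => ?_⟩
  · obtain ⟨y, rfl⟩ := hτ M
    obtain ⟨l, hl⟩ : g y ∈ σ.range := hgr ▸ ⟨y, rfl⟩
    refine ⟨l, ?_⟩
    apply sl_map_inj _ hinj
    rw [hf l, hτg y, ← hl]; rfl
  · have h1 : cj u (σ γ) = 1 := by
      have := hf γ
      rw [hfγ, map_one] at this
      exact this.symm
    have h2 := cj_one u _ h1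
    obtain ⟨a, ha, ha0⟩ := hZ _ (Finset.mem_singleton_self _)
    apply ha0
    have e : a = (ρ' () γ : Mn n A) i j - (1 : Mn n A) i j := by
      apply Subtype.ext
      have h3 := hρ' () γ
      rw [ha, ← h3]
      simp only [Matrix.SpecialLinearGroup.map_apply_coe, RingHom.mapMatrix_apply,
        Matrix.map_apply, Subring.subtype_apply, Matrix.one_apply]
      split_ifs <;> simp
    have h4 : ψ ((ρ' () γ : Mn n A) i j) = (σ γ : Mn n F) i j := by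
      simp [hσ]
    rw [e, map_sub, h4, h2]
    simp only [Matrix.SpecialLinearGroup.coe_one, Matrix.one_apply]
    split_ifs <;> simp

end Pool.Agent.T2h96.SN
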