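import Pool.Agent.T2h96.SN.Stm

set_option autoImplicit false

/-!
# Project SN, task FIXV
-/

namespace Pool.Agent.T2h96.SN

open Matrix Pool.Agent.T2h61.PR

namespace FIXV

variable {F V G : Type} [Field F] [AddCommGroup V] [Module F V] [Group G]

/-- the action on the quotient -/
def rho (Φ : G →* Module.End F V) (S : Subgroup G) (U : Submodule F V)
    (h : ∀ g ∈ S, ∀ u ∈ U, Φ g u ∈ U) : S →* Module.End F (V ⧸ U) where
  toFun g := U.mapQ U (Φ g) (fun u hu => h g g.2 u hu)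
  map_one' := by
    ext x
    simp
  map_mul' a b := by
    ext x
    simp

end FIXV

theorem t_FIXV : S_FIXV := by
  intro ℓ _ F V G _ _ _ _ _ _ Φ S U hU hinv hpow
  have : Finite (V ⧸ U) := Quotient.finite _
  have : Nontrivial (V ⧸ U) := Submodule.Quotient.nontrivial_iff.2 hU
  have : Finite (Module.End F (V ⧸ U)) := Finite.of_injective (fun f : Module.End F (V ⧸ U) => (f : V ⧸ U → V ⧸ U))
    DFunLike.coe_injective
  let r := (FIXV.rho Φ S U hinv).toHomUnits
  have hP : IsPGroup ℓ r.range := by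
    rintro ⟨h, g, rfl⟩
    obtain ⟨k, hk⟩ := hpow g g.2
    refine ⟨k, ?_⟩
    apply Subtype.ext
    change (r g) ^ ℓ ^ k = 1
    rw [← map_pow]
    apply Units.ext
    change FIXV.rho Φ S U hinv (g ^ ℓ ^ k) = 1
    ext x
    change U.mkQ (Φ ((g ^ ℓ ^ k : S) : G) x) = U.mkQ x
    rw [Subgroup.coe_pow, map_pow, hk]
    rfl
  have hd : ℓ ∣ Nat.card (V ⧸ U) := by
    obtain ⟨q, hq⟩ := exists_ne (0 : V ⧸ U)
    have h1 : addOrderOf q = ℓ := by
      apply addOrderOf_eq_prime _ hq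
      rw [← Nat.cast_smul_eq_nsmul F, CharP.cast_eq_zero, zero_smul]
    rw [← h1]
    exact addOrderOf_dvd_natCard q
  obtain ⟨b, hb, hb0⟩ := hP.exists_fixed_point_of_prime_dvd_card_of_fixed_point (V ⧸ U) hd
    (a := 0) (by
      rintro ⟨h, hh⟩
      change (h : Module.End F (V ⧸ U)) 0 = 0
      exact map_zero _)
  obtain ⟨v, rfl⟩ := U.mkQ_surjective b
  refine ⟨v, ?_, ?_⟩
  · intro hv
    apply hb0
    symm
    simpa using hv
  · intro g hg
    have h1 := hb ⟨r ⟨g, hg⟩, ⟨_, rfl⟩⟩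
    have h2 : U.mkQ (Φ g v) = U.mkQ v := h1
    rw [← sub_eq_zero, ← map_sub, Submodule.mkQ_apply, Submodule.Quotient.mk_eq_zero] at h2
    exact h2

end Pool.Agent.T2h96.SN
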