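import Pool.Agent.T2h96.SN.Stm
import Pool.Agent.T2h77N.Gen
import Pool.Agent.Helper460_PR.Hopf

/-!
# (IN1) a compatible system of surjections exists
-/

set_option autoImplicit false

namespace Pool.Agent.T2h96.SN

open Matrix Filter Pool.Agent.T2h61.PR

namespace IN1

/-- reduction from level `k` to the level `M` -/
noncomputable def red (n : ℕ) {M k : ℕ} (h : M ∣ k) : SLn n (ZMod k) →* SLn n (ZMod M) :=
  Matrix.SpecialLinearGroup.map (n := Fin n) (ZMod.castHom h (ZMod M))

theorem red_surj (n : ℕ) {M k : ℕ} (hM : 0 < M) (h : M ∣ k) : Function.Surjective (red n h) := by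
  intro x
  have : NeZero M := ⟨hM.ne'⟩
  obtain ⟨y, hy⟩ := Pool.Agent.T2h77.N.surj n M x
  refine ⟨SpecialLinearGroup.map (Int.castRingHom _) y, ?_⟩
  rw [← hy]
  apply Subtype.ext
  ext i j
  show (ZMod.castHom h (ZMod M)) ((y.1 i j : ℤ) : ZMod k) = ((y.1 i j : ℤ) : ZMod M)
  rw [map_intCast]

theorem red_comp (n : ℕ) {M M' k : ℕ} (h : M ∣ M') (h' : M' ∣ k) (h'' : M ∣ k) :
    (red n h).comp (red n h') = red n h'' := by
  have e : (ZMod.castHom h (ZMod M)).comp (ZMod.castHom h' (ZMod M')) =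
      ZMod.castHom h'' (ZMod M) := Subsingleton.elim _ _
  ext x i j
  exact congrFun (congrArg DFunLike.coe e) (x.1 i j)

theorem fin_sl (n M : ℕ) (hM : 0 < M) : Finite (SLn n (ZMod M)) := by
  have : NeZero M := ⟨hM.ne'⟩
  have : Finite (Matrix (Fin n) (Fin n) (ZMod M)) := inferInstance
  exact Subtype.finite

/-- a function with values in a finite type is constant along an ultrafilter -/
theorem ultra_const {T : Type} [Finite T] (g : ℕ → T) :
    ∃ a : T, ∀ᶠ k in (hyperfilter ℕ : Filter ℕ), g k = a := by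
  have h : ∀ᶠ k in (hyperfilter ℕ : Filter ℕ), ∃ a : T, g k = a :=
    Filter.Eventually.of_forall fun k => ⟨g k, rfl⟩
  exact Ultrafilter.eventually_exists_iff.1 h

end IN1

open IN1

theorem t_IN1 : S_IN1 := by
  classical
  intro n _ Λ _ hfg hΛ
  have hf0 : ∀ k : ℕ, ∃ f : Λ →* SLn n (ZMod k.factorial), Function.Surjective f := by
    intro k
    have : NeZero k.factorial := ⟨Nat.factorial_ne_zero k⟩
    have : Finite (SLn n (ZMod k.factorial)) := fin_sl n _ (Nat.factorial_pos k)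
    exact (hΛ _).2 ⟨_, Pool.Agent.T2h77.N.surj n k.factorial⟩
  choose f hf using hf0
  let g : ∀ M : ℕ, ℕ → (Λ →* SLn n (ZMod M)) := fun M k =>
    if h : M ∣ k.factorial then (red n h).comp (f k) else 1
  have hg : ∀ M k (h : M ∣ k.factorial), g M k = (red n h).comp (f k) := by
    intro M k h
    simp only [g, dif_pos h]
  have hθ0 : ∀ M : ℕ, ∃ θ : Λ →* SLn n (ZMod M), 0 < M →
      ∀ᶠ k in (hyperfilter ℕ : Filter ℕ), g M k = θ := by
    intro M
    rcases Nat.eq_zero_or_pos M with h0 | h0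
    · exact ⟨1, fun h => absurd h0 h.ne'⟩
    · have : Finite (SLn n (ZMod M)) := fin_sl n _ h0
      have : Finite (Λ →* SLn n (ZMod M)) := Pool.Agent.Helper460_PR.finite_hom _ _ hfg
      obtain ⟨θ, hθ⟩ := ultra_const (g M)
      exact ⟨θ, fun _ => hθ⟩
  choose θ hθ using hθ0
  have hge : ∀ s : ℕ, ∀ᶠ t in (hyperfilter ℕ : Filter ℕ), s ≤ t := by
    intro s
    have h : (hyperfilter ℕ : Filter ℕ) ≤ atTop := by
      rw [← Nat.cofinite_eq_atTop]
      exact hyperfilter_le_cofinite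
    exact h (eventually_ge_atTop s)
  refine ⟨θ, ?_, ?_⟩
  · intro M hM
    obtain ⟨k, h1, h2⟩ := ((hθ M hM).and (hge M)).exists
    have hd : M ∣ k.factorial := Nat.dvd_factorial hM h2
    rw [← h1, hg M k hd]
    exact (red_surj n hM hd).comp (hf k)
  · intro M M' h hM'
    have hM : 0 < M := Nat.pos_of_dvd_of_pos h hM'
    obtain ⟨k, ⟨h1, h1'⟩, h2⟩ := (((hθ M hM).and (hθ M' hM')).and (hge M')).exists
    have hd' : M' ∣ k.factorial := Nat.dvd_factorial hM' h2
    have hd : M ∣ k.factorial := h.trans hd'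
    rw [← h1, ← h1', hg M k hd, hg M' k hd']
    show ((red n h).comp ((red n hd').comp (f k))) = _
    rw [← MonoidHom.comp_assoc, red_comp n h hd' hd]

end Pool.Agent.T2h96.SN
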