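import Pool.Agent.T2h96.SN.Stm
import Pool.Agent.T2h77N.Gen
import Pool.Agent.Helper460_PR.Hopf
import Pool.Agent.T2h61.PR.T_FF

/-!
# (IN2) the common kernel is trivial
-/

set_option autoImplicit false

namespace Pool.Agent.T2h96.SN

open Matrix Pool.Agent.T2h61.PR Pool.Agent.Helper460_CSP

namespace IN2

/-- a surjection onto a finite group factors through a congruence quotient -/
theorem factor {n : ℕ} (hn : 3 ≤ n) {Q : Type} [Group Q] [Finite Q] (h : SLn n ℤ →* Q)
    (hs : Function.Surjective h) :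
    ∃ h' : SLn n (ZMod (Nat.card Q)) →* Q, Function.Surjective h' := by
  have hM : Nat.card Q ≠ 0 := Nat.card_pos.ne'
  have : NeZero (Nat.card Q) := ⟨hM⟩
  have hk : ∀ A ∈ FF.Gam n (Nat.card Q), h A = 1 := by
    intro A hA
    refine FF.ker_of hn hM h ?_ A hA
    intro i k hik
    have h3 : tv i k hik ((Nat.card Q : ℕ) : ℤ) = tv i k hik 1 ^ (Nat.card Q) := by
      have := tv_mul_zpow i k hik 1 ((Nat.card Q : ℕ) : ℤ)
      rw [one_mul, zpow_natCast] at this
      exact this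
    rw [h3, map_pow, pow_card_eq_one']
  have hsj : Function.Surjective (FF.red n (Nat.card Q)) :=
    Pool.Agent.T2h77.N.surj n (Nat.card Q)
  have hker : (FF.red n (Nat.card Q)).ker ≤ h.ker := by
    intro A hA
    rw [MonoidHom.mem_ker]
    exact hk A hA
  refine ⟨(FF.red n (Nat.card Q)).liftOfSurjective hsj ⟨h, hker⟩, ?_⟩
  intro q
  obtain ⟨A, rfl⟩ := hs q
  refine ⟨FF.red n (Nat.card Q) A, ?_⟩
  exact MonoidHom.liftOfRightInverse_comp_apply _ _ _ ⟨h, hker⟩ A

end IN2

theorem t_IN2 : S_IN2 := by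
  intro n hn Λ _ hfg hRF hΛ θ hθ γ hγ
  let N : Subgroup Λ := ⨅ M : ℕ, (θ (M + 1)).ker
  have hN : N.Normal := Subgroup.normal_iInf_normal fun M => inferInstance
  have hNle : ∀ M, 0 < M → N ≤ (θ M).ker := by
    intro M hM
    obtain ⟨k, rfl⟩ := Nat.exists_eq_succ_of_ne_zero hM.ne'
    exact iInf_le (fun M : ℕ => (θ (M + 1)).ker) k
  have hγN : γ ∈ N := by
    refine Subgroup.mem_iInf.2 fun M => ?_
    rw [MonoidHom.mem_ker]
    exact hγ _ (Nat.succ_pos M)
  have hinj : Function.Injective (QuotientGroup.mk' N) := by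
    refine Pool.Agent.Helper460_PR.hopf hfg hRF ?_ _ (QuotientGroup.mk'_surjective N)
    intro Q _ _
    constructor
    · intro hQ
      obtain ⟨h, hs⟩ := (hΛ Q).1 hQ
      obtain ⟨h', hs'⟩ := IN2.factor hn h hs
      have hpos : 0 < Nat.card Q := Nat.card_pos
      refine ⟨QuotientGroup.lift N (h'.comp (θ (Nat.card Q))) ?_, ?_⟩
      · intro x hx
        have h1 : θ (Nat.card Q) x = 1 := hNle _ hpos hx
        rw [MonoidHom.mem_ker, MonoidHom.comp_apply, h1, map_one]
      · intro q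
        obtain ⟨y, rfl⟩ := hs' q
        obtain ⟨x, rfl⟩ := hθ.1 _ hpos y
        exact ⟨QuotientGroup.mk' N x, rfl⟩
    · rintro ⟨f, hf⟩
      exact ⟨f.comp (QuotientGroup.mk' N), hf.comp (QuotientGroup.mk'_surjective N)⟩
  apply hinj
  rw [map_one]
  exact (QuotientGroup.eq_one_iff γ).2 hγN

end Pool.Agent.T2h96.SN
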