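import Pool.Agent.T2h96.SN.Stm
import Pool.Agent.T2h61.PR.T_PAD

/-!
# (IN3) `q`-adic limits
-/

set_option autoImplicit false

namespace Pool.Agent.T2h96.SN

open Matrix Filter Pool.Agent.T2h61.PR

theorem t_IN3 : S_IN3 := by
  intro n Λ _ θ hθ q hq
  refine ⟨Pad.rho (fun s => θ (q ^ s)), ?_⟩
  intro s
  ext l i j
  obtain ⟨t, h, e⟩ := (Pad.ev_mat (fun s => θ (q ^ s)) l s).exists
  have h1 := congrFun (congrFun e i) j
  have h2 := hθ.2 (q ^ s) (q ^ t) (pow_dvd_pow q h) (pow_pos hq.out.pos t)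
  have h3 : (Pad.redm n q h (θ (q ^ t) l)) = θ (q ^ s) l := by
    rw [← h2]
    rfl
  rw [h3] at h1
  exact h1

end Pool.Agent.T2h96.SN
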