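import Pool.Agent.T2h96.SN.Stm

/-!
# (INJ) the `Dn` representations separate points
-/

set_option autoImplicit false

namespace Pool.Agent.T2h96.SN

open Matrix Pool.Agent.T2h61.PR

namespace INJ

theorem zmod_zero {M : ℕ} (hM : 0 < M) (a : ZMod M)
    (h : ∀ (q s : ℕ) (_ : q.Prime) (hd : q ^ s ∣ M), ZMod.castHom hd (ZMod (q ^ s)) a = 0) :
    a = 0 := by
  have : NeZero M := ⟨hM.ne'⟩
  rw [← ZMod.natCast_zmod_val a, ZMod.natCast_eq_zero_iff]
  rw [Nat.dvd_iff_prime_pow_dvd_dvd]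
  intro q s hq hd
  have h1 := h q s hq hd
  rw [← ZMod.natCast_zmod_val a, map_natCast, ZMod.natCast_eq_zero_iff] at h1
  exact h1

end INJ

theorem t_INJ : S_IN1 → S_IN2 → S_IN3 → S_INJ := by
  intro h1 h2 h3 n hn Λ _ hfg hRF hΛ γ hγ
  obtain ⟨θ, hθ⟩ := h1 n (by omega) Λ hfg hΛ
  have hex : ∃ q s : ℕ, q.Prime ∧ θ (q ^ s) γ ≠ 1 := by
    by_contra hcon
    push Not at hcon
    apply hγ
    apply h2 n hn Λ hfg hRF hΛ θ hθ γ
    intro M hM
    apply Subtype.ext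
    ext i j
    rw [← sub_eq_zero]
    apply INJ.zmod_zero hM
    intro q s hq hd
    have h4 := hθ.2 (q ^ s) M hd hM
    have h5 := hcon q s hq
    rw [← h4] at h5
    have h6 := congrFun (congrFun (congrArg Subtype.val h5) i) j
    rw [map_sub, sub_eq_zero]
    refine h6.trans ?_
    show (1 : Matrix (Fin n) (Fin n) (ZMod (q ^ s))) i j =
      ZMod.castHom hd (ZMod (q ^ s)) ((1 : Matrix (Fin n) (Fin n) (ZMod M)) i j)
    rw [Matrix.one_apply, Matrix.one_apply]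
    split_ifs
    · rw [map_one]
    · rw [map_zero]
  obtain ⟨q, s, hq, hne⟩ := hex
  have hqf : Fact q.Prime := ⟨hq⟩
  obtain ⟨ρ, hρ⟩ := h3 n Λ θ hθ q
  refine ⟨q, hqf, ρ, ?_, ?_⟩
  · intro t
    rw [hρ t]
    exact hθ.1 _ (pow_pos hq.pos t)
  · intro h
    apply hne
    rw [← hρ s, MonoidHom.comp_apply, h, map_one]

end Pool.Agent.T2h96.SN
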