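import Pool.Agent.T2h96.SN.Stm

/-!
# (NF) and (INFT): assembly of the normal form and of the infinitely many primes
-/

set_option autoImplicit false

namespace Pool.Agent.T2h96.SN

open Matrix Pool.Agent.T2h61.PR

theorem t_NF (hA : S_NFA) (hB : S_NFB) (hC : S_NFC) : S_NF := by
  intro n ℓ _ _ F _ _ _ hn y P hP hy hv
  obtain ⟨b, hb⟩ := hA n ℓ F hn y P hP hy hv
  obtain ⟨s, c, hc, hs, hT⟩ := hB n ℓ F hn y P hP hy hv b hb
  exact hC n F hn y b hb s c hc hs hT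

/-- the common part of INFT and RNK -/
lemma big (hP : S_PROG) (hE : S_EL) (hI : S_INJ) (hInf : S_INF) (n m : ℕ) (hn : 3 ≤ n)
    (Λ : Type) [Group Λ] (x : Fin m → Λ) (hRF : RF Λ) (hFQ : SameFQ Λ (SLn n ℤ))
    (hx : Subgroup.closure (Set.range x) = ⊤) (i : Fin m) (hi : ¬ IsOfFinOrder (x i)) (B : ℕ) :
    ∃ (ℓ : ℕ) (_ : Fact ℓ.Prime) (f : Λ →* SLn n (ZMod ℓ)), B < ℓ ∧ Function.Surjective f ∧
      ¬ (∀ r : ℕ, r.Prime → r ∣ orderOf (f (x i)) → r ≤ n) := by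
  have hFG : Group.FG Λ := by
    rw [Group.fg_iff]
    exact ⟨Set.range x, hx, Set.finite_range x⟩
  obtain ⟨D, hD, hPD⟩ := hP n (by omega)
  have hne : (x i) ^ D ≠ 1 := fun h => hi (isOfFinOrder_iff_pow_eq_one.2 ⟨D, hD, h⟩)
  obtain ⟨q, hq, ρ, hρ, hρ1⟩ := hI n hn Λ hFG hRF hFQ _ hne
  have h1 := hInf n q (by omega) Λ ρ hρ
  let σ : Λ →* SLn n ℚ_[q] :=
    (Matrix.SpecialLinearGroup.map (n := Fin n) (PadicInt.Coe.ringHom (p := q))).comp ρ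
  have hσ : (Set.range σ).Infinite := by
    intro hfin
    apply h1
    have h2 : (((toU n q).comp ρ).range : Set (Mn n ℚ_[q])ˣ) =
        (Matrix.SpecialLinearGroup.toGL (n := Fin n) (R := ℚ_[q])) '' (Set.range σ) := by
      ext u
      constructor
      · rintro ⟨l, rfl⟩
        refine ⟨σ l, ⟨l, rfl⟩, ?_⟩
        apply Units.ext
        rfl
      · rintro ⟨_, ⟨l, rfl⟩, rfl⟩
        refine ⟨l, ?_⟩
        apply Units.ext
        rfl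
    have h3 := hfin.image (Matrix.SpecialLinearGroup.toGL (n := Fin n) (R := ℚ_[q]))
    rw [← h2] at h3
    exact h3
  have hσ1 : σ ((x i) ^ D) ≠ 1 := by
    intro h
    apply hρ1
    apply Subtype.ext
    ext a b
    have h4 := congrArg (fun t : SLn n ℚ_[q] => t.1 a b) h
    have h5 : (((ρ ((x i) ^ D)).1 a b : ℤ_[q]) : ℚ_[q]) = (1 : Mn n ℚ_[q]) a b := h4
    have h6 : (((1 : SLn n ℤ_[q]).1 a b : ℤ_[q]) : ℚ_[q]) = (1 : Mn n ℚ_[q]) a b := by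
      show (((1 : Mn n ℤ_[q]) a b : ℤ_[q]) : ℚ_[q]) = _
      rw [Matrix.one_apply, Matrix.one_apply]
      split_ifs <;> simp
    exact Subtype.ext (h5.trans h6.symm)
  obtain ⟨B', hB'⟩ := hE n hn Λ hFG hFQ ℚ_[q] σ hσ _ hσ1
  obtain ⟨ℓ, hℓ, hℓp, hℓD⟩ := hPD (max B B')
  obtain ⟨f, hf, hf1⟩ := hB' ℓ hℓp (lt_of_le_of_lt (le_max_right _ _) hℓ)
  refine ⟨ℓ, ⟨hℓp⟩, f, lt_of_le_of_lt (le_max_left _ _) hℓ, hf, fun h => ?_⟩
  apply hf1
  rw [map_pow]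
  exact hℓD (f (x i)) h

theorem t_INFT (hT : S_TYP) (hP : S_PROG) (hE : S_EL) (hI : S_INJ) (hInf : S_INF) : S_INFT := by
  intro n _ hn Λ _ x hRF hFQ hx hN hO B
  obtain ⟨i, hi⟩ := hO
  obtain ⟨ℓ, hℓ, f, hB, hf, hno⟩ := big hP hE hI hInf n n hn Λ x hRF hFQ hx i hi B
  refine ⟨ℓ, hℓ, f, hB, ?_⟩
  rcases hT n ℓ hn Λ x hx hN f hf with h | h
  · exact h
  · exact absurd (h i) hno

theorem t_RNK (hT : S_TYQ) (hP : S_PROG) (hE : S_EL) (hI : S_INJ) (hInf : S_INF) : S_RNK := by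
  intro n m hn hm Λ _ x hRF hFQ hx hN i
  by_contra hi
  obtain ⟨ℓ, hℓ, f, hB, hf, hno⟩ := big hP hE hI hInf n m hn Λ x hRF hFQ hx i hi 0
  exact hno (hT n m ℓ hn hm Λ x hx hN f hf i)

end Pool.Agent.T2h96.SN
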