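import Pool.Agent.T2h96.SN.Stm

set_option autoImplicit false

/-!
# Project SN, task NFA
-/

namespace Pool.Agent.T2h96.SN

open Matrix Pool.Agent.T2h61.PR

namespace NFA

/-- the action of the invertible matrices on the column vectors -/
def act (n : ℕ) (F : Type) [Field F] : (Mn n F)ˣ →* Module.End F (Fin n → F) where
  toFun g := (g : Mn n F).mulVecLin
  map_one' := by
    ext x
    simp
  map_mul' a b := by
    ext x
    simp

theorem act_apply {n : ℕ} {F : Type} [Field F] (g : (Mn n F)ˣ) (v : Fin n → F) :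
    act n F g v = (g : Mn n F) *ᵥ v := rfl

theorem act_pow {n : ℕ} {F : Type} [Field F] {g : (Mn n F)ˣ} {k : ℕ} (h : g ^ k = 1) :
    act n F g ^ k = 1 := by rw [← map_pow, h, map_one]

end NFA

theorem t_NFA : S_DIM → S_NFA := by
  intro hD n ℓ _ F _ _ _ hn y P hP hy hv
  have hne : Nonempty (Fin n) := Fin.pos_iff_nonempty.1 (by omega)
  have hbt : (⊥ : Submodule F (Fin n → F)) ≠ ⊤ := bot_ne_top
  obtain ⟨v, h1, h2⟩ := hD n ℓ F (Fin n → F) (Mn n F)ˣ (NFA.act n F) y P ⊥ hn
    hbt
    (fun i g _ u hu => by rw [Submodule.mem_bot] at hu ⊢; rw [hu, map_zero])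
    (fun i g hg => by
      obtain ⟨k, hk⟩ := hP i g hg
      exact ⟨k, NFA.act_pow hk⟩)
    hy
    (fun v hv' => by
      rw [Submodule.mem_bot]
      apply hv
      intro j
      have := hv' j
      rw [Submodule.mem_bot, sub_eq_zero] at this
      exact this)
  have h3 : LinearIndependent F v := LinearIndependent.of_comp _ h2
  refine ⟨basisOfLinearIndependentOfCardEqFinrank h3 (by simp), ?_⟩
  intro i j hij
  rw [coe_basisOfLinearIndependentOfCardEqFinrank]
  have := h1 i j hij.symm
  rw [Submodule.mem_bot, sub_eq_zero] at this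
  exact this

end Pool.Agent.T2h96.SN
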