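import Pool.Agent.T2h96.SN.Stm

set_option autoImplicit false

/-!
# Project SN, task NFB
-/

namespace Pool.Agent.T2h96.SN

open Matrix Pool.Agent.T2h61.PR

namespace NFB

/-- the action of the invertible matrices on the column vectors -/
def act (n : ℕ) (F : Type) [Field F] : (Mn n F)ˣ →* Module.End F (Fin n → F) where
  toFun g := (g : Mn n F).mulVecLin
  map_one' := by
    ext x
    simp
  map_mul' a b := by
    ext x
    simp

/-- the group fixing a subspace pointwise -/
def fix {n : ℕ} {F : Type} [Field F] (U : Submodule F (Fin n → F)) : Subgroup (Mn n F)ˣ where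
  carrier := {g | ∀ u ∈ U, act n F g u = u}
  one_mem' := by
    intro u _
    rw [map_one]
    rfl
  mul_mem' := by
    intro a b ha hb u hu
    rw [map_mul, Module.End.mul_apply, hb u hu, ha u hu]
  inv_mem' := by
    intro a ha u hu
    have h1 : act n F a⁻¹ (act n F a u) = u := by
      rw [← Module.End.mul_apply, ← map_mul, inv_mul_cancel, map_one]
      rfl
    rwa [ha u hu] at h1

/-- the subspace of the vectors with the coordinates `0` in `T` -/
def sub {n : ℕ} {F : Type} [Field F] (b : Module.Basis (Fin n) F (Fin n → F)) (T : Set (Fin n)) :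
    Submodule F (Fin n → F) where
  carrier := {v | ∀ t ∈ T, b.repr v t = 0}
  zero_mem' := by
    intro t _
    simp
  add_mem' := by
    intro x y hx hy t ht
    simp [hx t ht, hy t ht]
  smul_mem' := by
    intro c x hx t ht
    simp [hx t ht]

end NFB

theorem t_NFB : S_FIXV → S_NFB := by
  intro hF n ℓ _ F _ _ _ hn y P hP hy hv b hb
  -- the displacement
  set D : Fin n → (Fin n → F) := fun j => (y j : Mn n F) *ᵥ b j - b j with hD
  have hL : ∀ j v, (y j : Mn n F) *ᵥ v = v + (b.repr v j) • D j := by
    intro j
    have h1 : (y j : Mn n F).mulVecLin = LinearMap.id + (b.coord j).smulRight (D j) := by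
      apply b.ext
      intro i
      by_cases hij : i = j
      · subst hij
        simp [hD]
      · simp [hb i j hij, Finsupp.single_apply, hij]
    intro v
    have h2 := congrArg (fun f => f v) h1
    simpa using h2
  have hD0 : ∀ j, ∃ k, b.repr (D j) k ≠ 0 := by
    intro j
    by_contra h
    push Not at h
    have h1 : D j = 0 := by
      apply b.repr.injective
      ext k
      rw [h k]
      simp
    apply b.ne_zero j
    apply hv
    intro i
    rw [hL]
    by_cases hij : i = j
    · subst hij
      rw [h1, smul_zero, add_zero]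
    · have : b.repr (b j) i = 0 := by
        rw [b.repr_self, Finsupp.single_apply, if_neg (Ne.symm hij)]
      rw [this, zero_smul, add_zero]
  -- closed sets
  have hcl : ∀ s : Fin n → Fin n, (∀ j, b.repr (D j) (s j) ≠ 0) → ∀ T : Set (Fin n), T.Nonempty →
      (∀ t ∈ T, s t ∈ T) → T = Set.univ := by
    intro s hs T hT hsT
    by_contra hTu
    obtain ⟨i, hi⟩ := (Set.ne_univ_iff_exists_notMem T).1 hTu
    obtain ⟨t0, ht0⟩ := hT
    have hU : NFB.sub b T ≠ ⊤ := by
      intro h
      have h1 : b t0 ∈ NFB.sub b T := by rw [h]; trivial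
      have h2 := h1 t0 ht0
      rw [b.repr_self, Finsupp.single_eq_same] at h2
      exact one_ne_zero h2
    have hfix : Subgroup.closure (y '' T) ≤ NFB.fix (NFB.sub b T) := by
      rw [Subgroup.closure_le]
      rintro _ ⟨j, hj, rfl⟩ u hu
      change (y j : Mn n F) *ᵥ u = u
      rw [hL, hu j hj, zero_smul, add_zero]
    have hPi : Subgroup.closure (y '' T) ≤ P i := by
      rw [Subgroup.closure_le]
      rintro _ ⟨j, hj, rfl⟩
      exact hy i j (fun h => hi (h ▸ hj))
    obtain ⟨v, hvU, hvT⟩ := hF ℓ F (Fin n → F) (Mn n F)ˣ (NFB.act n F) (Subgroup.closure (y '' T))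
      (NFB.sub b T) hU (fun g hg u hu => by rw [hfix hg u hu]; exact hu) (fun g hg => by
        obtain ⟨k, hk⟩ := hP i g (hPi hg)
        exact ⟨k, by rw [← map_pow, hk, map_one]⟩)
    have h1 : ∃ j ∈ T, b.repr v j ≠ 0 := by
      by_contra h
      push Not at h
      exact hvU h
    obtain ⟨j, hj, hj0⟩ := h1
    have h2 := hvT (y j) (Subgroup.subset_closure ⟨j, hj, rfl⟩)
    have h3 : (y j : Mn n F) *ᵥ v - v ∈ NFB.sub b T := h2
    rw [hL, add_sub_cancel_left] at h3
    have h4 := h3 (s j) (hsT j hj)
    rw [map_smul, Finsupp.smul_apply, smul_eq_mul] at h4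
    exact mul_ne_zero hj0 (hs j) h4
  have hbij : ∀ s : Fin n → Fin n, (∀ j, b.repr (D j) (s j) ≠ 0) → Function.Bijective s := by
    intro s hs
    have h1 : Function.Surjective s := by
      rw [← Set.range_eq_univ]
      apply hcl s hs
      · exact ⟨s ⟨0, by omega⟩, Set.mem_range_self _⟩
      · rintro _ _
        exact Set.mem_range_self _
    exact ⟨Finite.injective_iff_surjective.2 h1, h1⟩
  choose s hs using hD0
  have huniq : ∀ j k, b.repr (D j) k ≠ 0 → k = s j := by
    intro j k hk
    have h1 := hbij s hs
    have h2 : Function.Bijective (Function.update s j k) := by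
      apply hbij
      intro i
      by_cases hij : i = j
      · subst hij
        rwa [Function.update_self]
      · rw [Function.update_of_ne hij]
        exact hs i
    obtain ⟨m, hm⟩ := h2.2 (s j)
    by_cases hmj : m = j
    · subst hmj
      rwa [Function.update_self] at hm
    · rw [Function.update_of_ne hmj] at hm
      exact absurd (h1.1 hm) hmj
  refine ⟨s, fun j => b.repr (D j) (s j), hs, ?_, hcl s hs⟩
  intro j
  have h1 : D j = b.repr (D j) (s j) • b (s j) := by
    apply b.repr.injective
    ext k
    rw [map_smul, b.repr_self, Finsupp.smul_apply, Finsupp.single_apply]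
    by_cases hk : s j = k
    · rw [if_pos hk, ← hk]
      simp
    · rw [if_neg hk, smul_zero]
      by_contra h
      exact hk (huniq j k h).symm
  rw [← h1, hD]
  simp

end Pool.Agent.T2h96.SN
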