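import Pool.Agent.T2h96.SN.Stm

/-!
Finite nilpotent groups (task NIL).
-/

set_option autoImplicit false

namespace Pool.Agent.T2h96.SN

namespace NIL

/-- an element with two coprime exponents is trivial -/
theorem one_of_coprime {X : Type} [Group X] {x : X} {a b : ℕ} (ha : x ^ a = 1) (hb : x ^ b = 1)
    (hab : a.Coprime b) : x = 1 := by
  have h1 : orderOf x ∣ Nat.gcd a b :=
    Nat.dvd_gcd (orderOf_dvd_of_pow_eq_one ha) (orderOf_dvd_of_pow_eq_one hb)
  rw [hab.gcd_eq_one, Nat.dvd_one] at h1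
  exact orderOf_eq_one_iff.1 h1

/-- elements of coprime orders commute -/
theorem comm {H : Type} [Group H] [Finite H] [hN : Group.IsNilpotent H] {p : ℕ} (hp : p.Prime)
    (a b : H) (ha : ∃ k : ℕ, a ^ p ^ k = 1) (hb : (orderOf b).Coprime p) : a * b = b * a := by
  obtain ⟨e⟩ := ((Group.isNilpotent_of_finite_tfae (G := H)).out 0 4).1 hN
  obtain ⟨k, hk⟩ := ha
  apply e.symm.injective
  rw [map_mul, map_mul]
  set x := e.symm a with hx
  set y := e.symm b with hy
  have hxk : x ^ p ^ k = 1 := by rw [hx, ← map_pow, hk, map_one]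
  have hym : y ^ orderOf b = 1 := by rw [hy, ← map_pow, pow_orderOf_eq_one, map_one]
  funext q P
  show x q P * y q P = y q P * x q P
  have hqp : (q : ℕ).Prime := Nat.prime_of_mem_primeFactors q.2
  have h1 : (x q P) ^ p ^ k = 1 := by
    have := congrFun (congrFun hxk q) P
    exact this
  have h2 : (y q P) ^ orderOf b = 1 := by
    have := congrFun (congrFun hym q) P
    exact this
  by_cases hqe : (q : ℕ) = p
  · obtain ⟨j, hj⟩ := P.2 (y q P)
    have h3 : y q P = 1 := by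
      refine one_of_coprime h2 hj ?_
      rw [hqe]
      exact hb.pow_right j
    rw [h3, one_mul, mul_one]
  · obtain ⟨j, hj⟩ := P.2 (x q P)
    have h3 : x q P = 1 := by
      refine one_of_coprime h1 hj ?_
      exact Nat.Coprime.pow _ _ ((Nat.coprime_primes hp hqp).2 (Ne.symm hqe))
    rw [h3, one_mul, mul_one]

/-- the elements of order a power of `p` form a subgroup -/
theorem clos {H : Type} [Group H] [Finite H] [hN : Group.IsNilpotent H] {p : ℕ} (hp : p.Prime)
    (a : H) (ha : a ∈ Subgroup.closure {h : H | ∃ k : ℕ, h ^ p ^ k = 1}) :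
    ∃ k : ℕ, a ^ p ^ k = 1 := by
  have hfact : Fact p.Prime := ⟨hp⟩
  have h03 : Group.IsNilpotent H ↔
      ∀ (p : ℕ) (_ : Fact p.Prime) (P : Sylow p H), (P : Subgroup H).Normal :=
    (Group.isNilpotent_of_finite_tfae (G := H)).out 0 3
  have hnorm : ∀ P : Sylow p H, (P : Subgroup H).Normal := fun P => h03.1 hN p hfact P
  obtain ⟨P⟩ : Nonempty (Sylow p H) := inferInstance
  have h1 : Subgroup.closure {h : H | ∃ k : ℕ, h ^ p ^ k = 1} ≤ P := by
    rw [Subgroup.closure_le]
    rintro h ⟨k, hk⟩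
    have h2 : IsPGroup p (Subgroup.zpowers h) := by
      rintro ⟨g, hg⟩
      obtain ⟨i, rfl⟩ := Subgroup.mem_zpowers_iff.1 hg
      refine ⟨k, ?_⟩
      apply Subtype.ext
      show (h ^ i) ^ p ^ k = 1
      rw [← zpow_natCast, ← zpow_mul, mul_comm, zpow_mul, zpow_natCast, hk, one_zpow]
    obtain ⟨Q, hQ⟩ := h2.exists_le_sylow
    have := hnorm P
    have h3 : Subsingleton (Sylow p H) := by
      have := Sylow.unique_of_normal P (hnorm P)
      infer_instance
    rw [Subsingleton.elim Q P] at hQ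
    exact hQ (Subgroup.mem_zpowers h)
  obtain ⟨k, hk⟩ := P.2 ⟨a, h1 ha⟩
  exact ⟨k, by
    have := congrArg Subtype.val hk
    exact this⟩

end NIL

theorem t_NIL : S_NIL := by
  intro G _ H hfin hnil p hp
  refine ⟨?_, ?_⟩
  · intro a ha b hb hak hbk
    obtain ⟨k, hk⟩ := hak
    have h1 := NIL.comm (H := H) hp ⟨a, ha⟩ ⟨b, hb⟩ ⟨k, Subtype.ext hk⟩ (by
      rw [Subgroup.orderOf_mk]
      exact hbk)
    exact congrArg Subtype.val h1
  · intro a ha
    have h1 : ∀ a ∈ Subgroup.closure {h | h ∈ H ∧ ∃ k : ℕ, h ^ p ^ k = 1}, ∃ haH : a ∈ H,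
        (⟨a, haH⟩ : H) ∈ Subgroup.closure {h : H | ∃ k : ℕ, h ^ p ^ k = 1} := by
      intro a ha
      induction ha using Subgroup.closure_induction with
      | mem x hx =>
        obtain ⟨k, hk⟩ := hx.2
        exact ⟨hx.1, Subgroup.subset_closure ⟨k, Subtype.ext hk⟩⟩
      | one => exact ⟨H.one_mem, Subgroup.one_mem _⟩
      | mul x y _ _ hx hy =>
        obtain ⟨h1, h2⟩ := hx
        obtain ⟨h3, h4⟩ := hy
        exact ⟨H.mul_mem h1 h3, Subgroup.mul_mem _ h2 h4⟩
      | inv x _ hx =>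
        obtain ⟨h1, h2⟩ := hx
        exact ⟨H.inv_mem h1, Subgroup.inv_mem _ h2⟩
    obtain ⟨h2, h3⟩ := h1 a ha
    obtain ⟨k, hk⟩ := NIL.clos hp _ h3
    exact ⟨k, congrArg Subtype.val hk⟩

end Pool.Agent.T2h96.SN
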