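import Pool.Agent.T2h96.SN.Stm
import Pool.Agent.H185.ZM.Euc

/-!
`Λ` is perfect (task PERF).
-/

set_option autoImplicit false

namespace Pool.Agent.T2h96.SN

open Matrix Pool.Agent.T2h61.PR

namespace PERF

open Pool.Agent.H185.ZM

/-- homomorphisms from `SL (n, ℤ)` to commutative groups are trivial -/
theorem triv {n : ℕ} (hn : 3 ≤ n) {Q : Type} [CommGroup Q] (f : SLn n ℤ →* Q) (g : SLn n ℤ) :
    f g = 1 := by
  have h1 : g ∈ EE n ℤ := by
    rw [EE_eq_top]
    exact Subgroup.mem_top _
  unfold EE at h1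
  induction h1 using Subgroup.closure_induction with
  | mem x hx =>
    obtain ⟨i, k, h, c, rfl⟩ := hx
    obtain ⟨j, hji, hjk⟩ : ∃ j : Fin n, j ≠ i ∧ j ≠ k := by
      by_contra hcon
      push Not at hcon
      have h2 : (Finset.univ : Finset (Fin n)) ⊆ {i, k} := by
        intro j _
        rw [Finset.mem_insert, Finset.mem_singleton]
        by_cases hj : j = i
        · exact Or.inl hj
        · exact Or.inr (hcon j hj)
      have h3 := (Finset.card_le_card h2).trans Finset.card_le_two
      rw [Finset.card_univ, Fintype.card_fin] at h3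
      omega
    have h2 : el hji.symm c * el hjk 1 = el h (c * 1) * (el hjk 1 * el hji.symm c) :=
      el_comm hji.symm hjk h c 1
    have h3 := congrArg f h2
    rw [map_mul, map_mul, map_mul, mul_comm (f (el hjk 1)) (f (el hji.symm c)), mul_one] at h3
    exact left_eq_mul.1 (h3.trans (mul_comm _ _))
  | one => exact map_one f
  | mul x y _ _ hx hy => rw [map_mul, hx, hy, one_mul]
  | inv x _ hx => rw [map_inv, hx, inv_one]

/-- a nontrivial finitely generated commutative group has a finite nontrivial quotient -/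
theorem fin_quot (M : Type) [AddCommGroup M] [Module.Finite ℤ M] [Nontrivial M] :
    ∃ N : Submodule ℤ M, N ≠ ⊤ ∧ Finite (M ⧸ N) := by
  obtain ⟨N, hN, -⟩ := (eq_top_or_exists_le_coatom (⊥ : Submodule ℤ M)).resolve_left bot_ne_top
  refine ⟨N, hN.1, ?_⟩
  have h1 : IsSimpleModule ℤ (M ⧸ N) := isSimpleModule_iff_isCoatom.2 hN
  obtain ⟨I, hI, ⟨e⟩⟩ := isSimpleModule_iff_quot_maximal.1 h1
  have h2 : I ≠ ⊥ := Ring.ne_bot_of_isMaximal_of_not_isField hI Int.not_isField
  have h3 : Finite (ℤ ⧸ I) := Ideal.finiteQuotientOfFreeOfNeBot I h2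
  exact Finite.of_equiv _ e.symm.toEquiv

end PERF

theorem t_PERF : S_PERF := by
  intro n hn Λ _ hfg hsame
  by_contra hne
  have hnt : Nontrivial (Abelianization Λ) := by
    by_contra hcon
    rw [not_nontrivial_iff_subsingleton] at hcon
    apply hne
    rw [eq_top_iff]
    intro x _
    have h1 : (Abelianization.of x : Abelianization Λ) = 1 := Subsingleton.elim _ _
    exact (QuotientGroup.eq_one_iff x).1 h1
  have hfg2 : Group.FG (Abelianization Λ) :=
    Group.fg_of_surjective (f := Abelianization.of) (QuotientGroup.mk_surjective)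
  have hfg3 : AddGroup.FG (Additive (Abelianization Λ)) := GroupFG.iff_add_fg.1 hfg2
  have hfin : Module.Finite ℤ (Additive (Abelianization Λ)) :=
    Module.Finite.iff_addGroup_fg.2 hfg3
  have hnt2 : Nontrivial (Additive (Abelianization Λ)) := hnt
  obtain ⟨N, hN, hQ⟩ := PERF.fin_quot (Additive (Abelianization Λ))
  let q : Abelianization Λ →* Multiplicative (Additive (Abelianization Λ) ⧸ N) :=
    AddMonoidHom.toMultiplicativeRight N.mkQ.toAddMonoidHom
  have hq : Function.Surjective q := fun y => by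
    obtain ⟨x, hx⟩ := N.mkQ_surjective (Multiplicative.toAdd y)
    exact ⟨Additive.toMul x, hx⟩
  have hQ2 : Finite (Multiplicative (Additive (Abelianization Λ) ⧸ N)) := hQ
  obtain ⟨f, hf⟩ := (hsame (Multiplicative (Additive (Abelianization Λ) ⧸ N))).1
    ⟨q.comp Abelianization.of, hq.comp QuotientGroup.mk_surjective⟩
  apply hN
  rw [eq_top_iff]
  intro x _
  obtain ⟨g, hg⟩ := hf (Multiplicative.ofAdd (N.mkQ x))
  rw [PERF.triv hn f g] at hg
  have h1 : N.mkQ x = 0 := hg.symm
  exact (Submodule.Quotient.mk_eq_zero N).1 h1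

end Pool.Agent.T2h96.SN
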