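import Pool.Agent.T2h96.SN.Stm

/-!
Elements with smooth order in `SL (n, ℤ / ℓ)` (task PROG).
-/

set_option autoImplicit false

namespace Pool.Agent.T2h96.SN

open Matrix Pool.Agent.T2h61.PR

namespace PROG

/-- the order of the general linear group -/
theorem card_eq (n ℓ : ℕ) :
    ∏ i : Fin n, (ℓ ^ n - ℓ ^ (i : ℕ)) =
      ℓ ^ (∑ i ∈ Finset.range n, i) * ∏ f ∈ Finset.Icc 1 n, (ℓ ^ f - 1) := by
  have h1 : ∏ i : Fin n, (ℓ ^ n - ℓ ^ (i : ℕ)) = ∏ i ∈ Finset.range n, (ℓ ^ n - ℓ ^ i) :=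
    Fin.prod_univ_eq_prod_range (fun i => ℓ ^ n - ℓ ^ i) n
  have h2 : ∀ i ∈ Finset.range n, ℓ ^ n - ℓ ^ i = ℓ ^ i * (ℓ ^ (n - i) - 1) := by
    intro i hi
    rw [Finset.mem_range] at hi
    rw [Nat.mul_sub, mul_one, ← pow_add]
    congr 2
    omega
  rw [h1, Finset.prod_congr rfl h2, Finset.prod_mul_distrib, Finset.prod_pow_eq_pow_sum]
  congr 1
  refine Finset.prod_bij' (fun i _ => n - i) (fun f _ => n - f) ?_ ?_ ?_ ?_ ?_
  · intro i hi
    rw [Finset.mem_range] at hi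
    rw [Finset.mem_Icc]
    omega
  · intro f hf
    rw [Finset.mem_Icc] at hf
    rw [Finset.mem_range]
    omega
  · intro i hi
    rw [Finset.mem_range] at hi
    omega
  · intro f hf
    rw [Finset.mem_Icc] at hf
    omega
  · intro i _
    rfl

end PROG

theorem t_PROG : S_PRA → S_PROG := by
  intro hPRA n hn
  obtain ⟨D, hD, h⟩ := hPRA n hn
  refine ⟨D, hD, fun B => ?_⟩
  obtain ⟨ℓ, hℓB, hℓ, hm⟩ := h (max B n)
  have hfact : Fact ℓ.Prime := ⟨hℓ⟩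
  refine ⟨ℓ, lt_of_le_of_lt (le_max_left _ _) hℓB, hℓ, fun y hy => ?_⟩
  apply orderOf_dvd_iff_pow_eq_one.1
  refine hm _ ?_ hy
  have h1 : orderOf (Matrix.SpecialLinearGroup.toGL y) = orderOf y :=
    orderOf_injective Matrix.SpecialLinearGroup.toGL Matrix.SpecialLinearGroup.toGL_injective y
  have h2 : orderOf y ∣ Nat.card (GL (Fin n) (ZMod ℓ)) := by
    rw [← h1]
    exact orderOf_dvd_natCard _
  have h3 : Nat.card (ZMod ℓ) = ℓ := Nat.card_zmod ℓ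
  rw [Matrix.card_GL_field] at h2
  have h4 : Fintype.card (ZMod ℓ) = ℓ := ZMod.card ℓ
  simp only [h4] at h2
  rw [PROG.card_eq] at h2
  refine Nat.Coprime.dvd_of_dvd_mul_left ?_ h2
  apply Nat.Coprime.pow_right
  rw [Nat.coprime_comm, Nat.Prime.coprime_iff_not_dvd hℓ]
  intro h5
  have h6 := hy ℓ hℓ h5
  have h7 : n < ℓ := lt_of_le_of_lt (le_max_right _ _) hℓB
  omega

end Pool.Agent.T2h96.SN
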