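import Pool.Agent.T2h96.SN.Stm
import Pool.Agent.T2h61.PR.T_TOP

set_option autoImplicit false

namespace Pool.Agent.T2h96.SN.RED

open Matrix Pool.Agent.T2h61.PR

lemma exists_sl {n : ℕ} {K : Type} [Field K] (A : Subring K) (g : SLn n K)
    (h : ∀ a b, (g : Mn n K) a b ∈ A) :
    ∃ y : SLn n A, Matrix.SpecialLinearGroup.map A.subtype y = g := by
  let M : Mn n A := Matrix.of fun a b => ⟨(g : Mn n K) a b, h a b⟩
  have hM : A.subtype.mapMatrix M = (g : Mn n K) := by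
    ext a b; rfl
  have hdet : M.det = 1 := by
    apply Subtype.val_injective
    have := RingHom.map_det A.subtype M
    rw [hM, g.2] at this
    exact this
  refine ⟨⟨M, hdet⟩, ?_⟩
  apply Subtype.ext
  exact hM

lemma ent {n : ℕ} {K Λ : Type} [Field K] [Group Λ] (A : Subring K) (ρ : Λ →* SLn n K)
    (ρ' : Λ →* SLn n A) (h : ∀ l, Matrix.SpecialLinearGroup.map A.subtype (ρ' l) = ρ l) (l : Λ)
    (a b : Fin n) : ((ρ' l : Mn n A) a b : K) = (ρ l : Mn n K) a b := by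
  rw [← h l]
  rfl

lemma hunit {K F : Type} [Field K] [Field F] (A : Subring K) (ψ : A →+* F) (z : A)
    (h1 : ((z : K))⁻¹ ∈ A) (h2 : (z : K) ≠ 0) : ψ z ≠ 0 := by
  intro h3
  have h4 : z * ⟨(z : K)⁻¹, h1⟩ = 1 := by
    apply Subtype.ext
    exact mul_inv_cancel₀ h2
  have h5 := congrArg ψ h4
  rw [map_mul, h3, zero_mul, map_one] at h5
  exact zero_ne_one h5

lemma map_ent {n : ℕ} {C D : Type} [CommRing C] [CommRing D] (ψ : C →+* D) (g h : SLn n C)
    (e : Matrix.SpecialLinearGroup.map (n := Fin n) ψ g =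
      Matrix.SpecialLinearGroup.map (n := Fin n) ψ h) (a b : Fin n) :
    ψ ((g : Mn n C) a b) = ψ ((h : Mn n C) a b) := by
  have h1 := congrArg (fun g : SLn n D => (g : Mn n D) a b) e
  simpa using h1

lemma card_gt {n c : ℕ} {Λ K F : Type} [Group Λ] [Field K] [Field F] [Finite F] (A : Subring K)
    (ψ : A →+* F) (ρ : Λ →* SLn n K) (ρ' : Λ →* SLn n A)
    (hρ' : ∀ l, Matrix.SpecialLinearGroup.map A.subtype (ρ' l) = ρ l) (W : Fin (c + 1) → Λ)
    (hinj : Function.Injective fun u => ρ (W u))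
    (hD : ∀ u v a b, ((ρ (W u) : Mn n K) a b - (ρ (W v) : Mn n K) a b)⁻¹ ∈ A) :
    c < Nat.card ((Matrix.SpecialLinearGroup.map ψ).comp ρ').range := by
  have hfinR : Finite ((Matrix.SpecialLinearGroup.map (n := Fin n) ψ).comp ρ').range :=
    inferInstance
  have hΦ : Function.Injective (fun u : Fin (c + 1) =>
      (⟨((Matrix.SpecialLinearGroup.map (n := Fin n) ψ).comp ρ') (W u), W u, rfl⟩ :
        ((Matrix.SpecialLinearGroup.map (n := Fin n) ψ).comp ρ').range)) := by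
    intro u v huv
    by_contra hne
    have h1 : ρ (W u) ≠ ρ (W v) := fun h => hne (hinj h)
    have h2 : ∃ a b, (ρ (W u) : Mn n K) a b ≠ (ρ (W v) : Mn n K) a b := by
      by_contra hcon
      push Not at hcon
      exact h1 (Subtype.ext (Matrix.ext hcon))
    obtain ⟨a, b, hab⟩ := h2
    have h3 := map_ent ψ _ _ (Subtype.mk.inj huv) a b
    have h5 : (((ρ' (W u) : Mn n A) a b - (ρ' (W v) : Mn n A) a b : A) : K) =
        (ρ (W u) : Mn n K) a b - (ρ (W v) : Mn n K) a b := by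
      rw [AddSubgroupClass.coe_sub, ent A ρ ρ' hρ', ent A ρ ρ' hρ']
    refine hunit A ψ ((ρ' (W u) : Mn n A) a b - (ρ' (W v) : Mn n A) a b) ?_ ?_ ?_
    · rw [h5]; exact hD u v a b
    · rw [h5]; exact sub_ne_zero.2 hab
    · rw [map_sub, h3, sub_self]
  have h6 := Nat.card_le_card_of_injective _ hΦ
  rw [Nat.card_eq_fintype_card, Fintype.card_fin] at h6
  omega

end Pool.Agent.T2h96.SN.RED

namespace Pool.Agent.T2h96.SN

open Matrix Pool.Agent.T2h61.PR RED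

theorem t_RED (hSPA : S_SPA) : S_RED := by
  classical
  intro n Λ _ hFG K _ _ ι _ ρ Z c hZ
  obtain ⟨_, T, -, hT⟩ := Group.fg_iff'.1 hFG
  have hW : ∀ i, ∃ W : Fin (c + 1) → Λ, (Set.range (ρ i)).Infinite →
      Function.Injective fun u => ρ i (W u) := by
    intro i
    by_cases hinf : (Set.range (ρ i)).Infinite
    · choose W hW using fun u : Fin (c + 1) => (hinf.natEmbedding _ u.1).2
      refine ⟨W, fun _ u v huv => ?_⟩
      simp only [hW] at huv
      exact Fin.ext ((hinf.natEmbedding _).injective (Subtype.ext huv))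
    · exact ⟨fun _ => 1, fun h => absurd h hinf⟩
  choose W hW using hW
  have hS : ∃ S₀ : Set K, S₀.Finite ∧
      (∀ i, ∀ t ∈ T, ∀ a b, (ρ i t : Mn n K) a b ∈ Subring.closure S₀) ∧
      (∀ z ∈ Z, z ∈ Subring.closure S₀ ∧ z⁻¹ ∈ Subring.closure S₀) ∧
      (∀ i u v a b, ((ρ i (W i u) : Mn n K) a b - (ρ i (W i v) : Mn n K) a b)⁻¹ ∈
        Subring.closure S₀) := by
    refine ⟨Set.range (fun p : ι × T × Fin n × Fin n =>
      (ρ p.1 p.2.1.1 : Mn n K) p.2.2.1 p.2.2.2) ∪ ((Z : Set K) ∪ ((fun z => z⁻¹) '' (Z : Set K))) ∪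
      Set.range (fun p : ι × Fin (c + 1) × Fin (c + 1) × Fin n × Fin n =>
      ((ρ p.1 (W p.1 p.2.1) : Mn n K) p.2.2.2.1 p.2.2.2.2 -
      (ρ p.1 (W p.1 p.2.2.1) : Mn n K) p.2.2.2.1 p.2.2.2.2)⁻¹), ?_, ?_, ?_, ?_⟩
    · exact ((Set.finite_range _).union (Z.finite_toSet.union (Z.finite_toSet.image _))).union
        (Set.finite_range _)
    · intro i t ht a b
      exact Subring.subset_closure (Or.inl (Or.inl ⟨(i, ⟨t, ht⟩, a, b), rfl⟩))
    · intro z hz
      exact ⟨Subring.subset_closure (Or.inl (Or.inr (Or.inl hz))),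
        Subring.subset_closure (Or.inl (Or.inr (Or.inr ⟨z, hz, rfl⟩)))⟩
    · intro i u v a b
      exact Subring.subset_closure (Or.inr ⟨(i, u, v, a, b), rfl⟩)
  obtain ⟨S₀, hfin, hE, hZA, hD⟩ := hS
  obtain ⟨B, hB⟩ := hSPA K hfin.toFinset
  rw [Set.Finite.coe_toFinset] at hB
  refine ⟨B, fun ℓ hℓ hlt => ?_⟩
  obtain ⟨F, hF1, hF2, hF3, ⟨ψ⟩⟩ := hB ℓ hℓ hlt
  generalize Subring.closure S₀ = A at hE hZA hD ψ
  have hlift : ∀ i, ∃ Θ : Λ →* SLn n A,
      ∀ l, Matrix.SpecialLinearGroup.map A.subtype (Θ l) = ρ i l := by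
    intro i
    refine lift_sl (n := n) A.subtype Subtype.val_injective (ρ i) (T : Set Λ) hT ?_
    intro s hs
    exact exists_sl A (ρ i s) fun a b => hE i s hs a b
  choose ρ' hρ' using hlift
  refine ⟨F, hF1, hF2, hF3, A, ψ, ρ', hρ', ?_, ?_⟩
  · intro z hz
    exact ⟨⟨z, (hZA z hz).1⟩, rfl, hunit A ψ ⟨z, (hZA z hz).1⟩ (hZA z hz).2 (hZ z hz)⟩
  · intro i hi
    exact card_gt A ψ (ρ i) (ρ' i) (hρ' i) (W i) (hW i hi) (hD i)

end Pool.Agent.T2h96.SN
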