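import Pool.Agent.T2h96.SN.Stm
import Pool.Agent.T2h61.PR.T_CA

set_option autoImplicit false

namespace Pool.Agent.T2h96.SN.SPA

open Pool.Agent.T2h61.PR

/-- a finitely generated domain of characteristic zero: large primes are not units -/
lemma nonunit (K : Type) [Field K] [CharZero K] (S : Finset K) : ∃ N : ℕ, 0 < N ∧
    ∀ ℓ : ℕ, ℓ.Prime → N < ℓ → ∀ x ∈ Subring.closure (S : Set K), (ℓ : K) * x ≠ 1 := by
  classical
  let A := Algebra.adjoin ℚ (S : Set K)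
  have hft : Algebra.FiniteType ℚ A :=
    (Subalgebra.fg_iff_finiteType _).1 (Subalgebra.fg_adjoin_finset S)
  obtain ⟨M, hM⟩ := Ideal.exists_maximal A
  let _ : Field (A ⧸ M) := Ideal.Quotient.field M
  have hft2 : Algebra.FiniteType ℚ (A ⧸ M) :=
    Algebra.FiniteType.of_surjective (Ideal.Quotient.mkₐ ℚ M) (Ideal.Quotient.mkₐ_surjective ℚ M)
  have hfin : Module.Finite ℚ (A ⧸ M) := finite_of_finite_type_of_isJacobsonRing ℚ (A ⧸ M)
  have halg : Algebra.IsAlgebraic ℚ (A ⧸ M) := Algebra.IsAlgebraic.of_finite ℚ (A ⧸ M)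
  have halgZ : Algebra.IsAlgebraic ℤ (A ⧸ M) := by
    have := IsLocalization.isAlgebraic ℚ (nonZeroDivisors ℤ)
    exact Algebra.IsAlgebraic.trans ℤ ℚ (A ⧸ M)
  have hSA : ∀ x ∈ Subring.closure (S : Set K), x ∈ A := by
    intro x hx
    have : Subring.closure (S : Set K) ≤ A.toSubring := by
      rw [Subring.closure_le]
      exact Algebra.subset_adjoin
    exact this hx
  let q : A →+* A ⧸ M := Ideal.Quotient.mk M
  let T : Finset (A ⧸ M) := S.attach.image fun s => q ⟨s.1, hSA _ (Subring.subset_closure s.2)⟩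
  obtain ⟨y, hy0, hy⟩ := Algebra.IsAlgebraic.exists_integral_multiples ℤ T
  have key : ∀ (x : K) (hx : x ∈ Subring.closure (S : Set K)),
      ∃ k : ℕ, IsIntegral ℤ ((y : A ⧸ M) ^ k * q ⟨x, hSA x hx⟩) := by
    intro x hx
    induction hx using Subring.closure_induction with
    | mem z hz =>
      refine ⟨1, ?_⟩
      have h1 := hy (q ⟨z, hSA _ (Subring.subset_closure hz)⟩) (by
        simp only [T, Finset.mem_image, Finset.mem_attach, true_and, Subtype.exists]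
        exact ⟨z, hz, rfl⟩)
      rw [pow_one]
      rwa [zsmul_eq_mul] at h1
    | zero =>
      refine ⟨0, ?_⟩
      have : (⟨0, hSA 0 (zero_mem _)⟩ : A) = 0 := rfl
      rw [this, map_zero, mul_zero]
      exact isIntegral_zero
    | one =>
      refine ⟨0, ?_⟩
      have : (⟨1, hSA 1 (one_mem _)⟩ : A) = 1 := rfl
      rw [this, map_one, pow_zero, mul_one]
      exact isIntegral_one
    | add a b ha hb h1 h2 =>
      obtain ⟨k, hk⟩ := h1
      obtain ⟨m, hm⟩ := h2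
      refine ⟨k + m, ?_⟩
      have hyi : IsIntegral ℤ (y : A ⧸ M) := by
        have := isIntegral_algebraMap (R := ℤ) (A := A ⧸ M) (x := y)
        simpa using this
      have : (⟨a + b, hSA _ (add_mem ha hb)⟩ : A) = ⟨a, hSA _ ha⟩ + ⟨b, hSA _ hb⟩ := rfl
      rw [this, map_add]
      have h3 : (y : A ⧸ M) ^ (k + m) * (q ⟨a, hSA _ ha⟩ + q ⟨b, hSA _ hb⟩) =
        (y : A ⧸ M) ^ m * ((y : A ⧸ M) ^ k * q ⟨a, hSA _ ha⟩) +
        (y : A ⧸ M) ^ k * ((y : A ⧸ M) ^ m * q ⟨b, hSA _ hb⟩) := by ring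
      rw [h3]
      exact ((hyi.pow m).mul hk).add ((hyi.pow k).mul hm)
    | neg a ha h1 =>
      obtain ⟨k, hk⟩ := h1
      refine ⟨k, ?_⟩
      have : (⟨-a, hSA _ (neg_mem ha)⟩ : A) = -⟨a, hSA _ ha⟩ := rfl
      rw [this, map_neg, mul_neg]
      exact hk.neg
    | mul a b ha hb h1 h2 =>
      obtain ⟨k, hk⟩ := h1
      obtain ⟨m, hm⟩ := h2
      refine ⟨k + m, ?_⟩
      have : (⟨a * b, hSA _ (mul_mem ha hb)⟩ : A) = ⟨a, hSA _ ha⟩ * ⟨b, hSA _ hb⟩ := rfl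
      rw [this, map_mul]
      have h3 : (y : A ⧸ M) ^ (k + m) * (q ⟨a, hSA _ ha⟩ * q ⟨b, hSA _ hb⟩) =
        ((y : A ⧸ M) ^ k * q ⟨a, hSA _ ha⟩) * ((y : A ⧸ M) ^ m * q ⟨b, hSA _ hb⟩) := by ring
      rw [h3]
      exact hk.mul hm
  refine ⟨y.natAbs, Int.natAbs_pos.2 hy0, ?_⟩
  intro ℓ hℓ hlt x hx hx1
  obtain ⟨k, hk⟩ := key x hx
  have h1 : (ℓ : A ⧸ M) * q ⟨x, hSA x hx⟩ = 1 := by
    have : ((ℓ : A)) * (⟨x, hSA x hx⟩ : A) = 1 := by
      apply Subtype.ext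
      push_cast
      exact hx1
    have h2 := congrArg q this
    rwa [map_mul, map_one, map_natCast] at h2
  have hℓ0 : (ℓ : ℚ) ≠ 0 := by exact_mod_cast hℓ.ne_zero
  have hℓ0' : (ℓ : A ⧸ M) ≠ 0 := by
    intro h0
    rw [h0, zero_mul] at h1
    exact zero_ne_one h1
  have h2 : (y : A ⧸ M) ^ k * q ⟨x, hSA x hx⟩ = algebraMap ℚ (A ⧸ M) ((y : ℚ) ^ k / ℓ) := by
    rw [map_div₀, map_pow, map_intCast, map_natCast, eq_div_iff hℓ0', mul_assoc,
      mul_comm _ (ℓ : A ⧸ M), h1, mul_one]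
  rw [h2] at hk
  have h3 : IsIntegral ℤ ((y : ℚ) ^ k / ℓ) :=
    (isIntegral_algebraMap_iff (algebraMap ℚ (A ⧸ M)).injective).1 hk
  obtain ⟨z, hz⟩ := IsIntegrallyClosed.isIntegral_iff.1 h3
  have h4 : (y : ℚ) ^ k = z * ℓ := by
    have : (z : ℚ) = (y : ℚ) ^ k / ℓ := by simpa using hz
    rw [this, div_mul_cancel₀ _ hℓ0]
  have h5 : y ^ k = z * ℓ := by exact_mod_cast h4
  have h6 : (ℓ : ℤ) ∣ y ^ k := ⟨z, by rw [h5]; ring⟩
  have h7 : (ℓ : ℤ) ∣ y := (Nat.prime_iff_prime_int.1 hℓ).dvd_of_dvd_pow h6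
  have h8 : ℓ ∣ y.natAbs := by
    rwa [← Int.natCast_dvd]
  exact absurd (Nat.le_of_dvd (Int.natAbs_pos.2 hy0) h8) (by omega)

end Pool.Agent.T2h96.SN.SPA

namespace Pool.Agent.T2h96.SN

open Pool.Agent.T2h61.PR SPA

theorem t_SPA : S_SPA := by
  classical
  intro K _ _ S
  obtain ⟨N, hN, hnon⟩ := nonunit K S
  refine ⟨N, fun ℓ hℓ hlt => ?_⟩
  let A : Subring K := Subring.closure (S : Set K)
  have hnu : ¬ IsUnit (ℓ : A) := by
    intro hu
    obtain ⟨x, hx⟩ := hu.exists_right_inv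
    exact hnon ℓ hℓ hlt x.1 x.2 (by
      have := congrArg (Subtype.val) hx
      simpa using this)
  obtain ⟨m, hm, hmem⟩ := exists_max_ideal_of_mem_nonunits (a := (ℓ : A)) hnu
  have hftA : Algebra.FiniteType ℤ A := by
    have h1 : Algebra.FiniteType ℤ (Algebra.adjoin ℤ (S : Set K)) :=
      (Subalgebra.fg_iff_finiteType _).1 (Subalgebra.fg_adjoin_finset S)
    have h2 : (Algebra.adjoin ℤ (S : Set K)).toSubring = A := by
      rw [Algebra.adjoin_int]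
      rfl
    have e : (Algebra.adjoin ℤ (S : Set K)) ≃+* A := by
      exact RingEquiv.subringCongr h2
    exact Algebra.FiniteType.equiv h1 (e.toIntAlgEquiv)
  have hft2 : Algebra.FiniteType ℤ (A ⧸ m) :=
    Algebra.FiniteType.of_surjective (Ideal.Quotient.mkₐ ℤ m) (Ideal.Quotient.mkₐ_surjective ℤ m)
  let _ : Field (A ⧸ m) := Ideal.Quotient.field m
  have hfin : Finite (A ⧸ m) := @CA.finite_of_ft (A ⧸ m) (Ideal.Quotient.field m) hft2
  have hz : ((ℓ : ℕ) : A ⧸ m) = 0 := by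
    have := (Ideal.Quotient.eq_zero_iff_mem (I := m) (a := (ℓ : A))).2 hmem
    rwa [map_natCast] at this
  have hchar : CharP (A ⧸ m) ℓ := by
    have h1 : ringChar (A ⧸ m) ∣ ℓ := (ringChar.spec (A ⧸ m) ℓ).1 hz
    rcases (Nat.dvd_prime hℓ).1 h1 with h2 | h2
    · exfalso
      have h3 : ((1 : ℕ) : A ⧸ m) = 0 := (ringChar.spec (A ⧸ m) 1).2 (by rw [h2])
      rw [Nat.cast_one] at h3
      exact one_ne_zero h3
    · rw [← h2]
      exact ringChar.charP (A ⧸ m)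
  exact ⟨A ⧸ m, Ideal.Quotient.field m, hfin, hchar, ⟨Ideal.Quotient.mk m⟩⟩

end Pool.Agent.T2h96.SN
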