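import Pool.Agent.T2h96.SN.NFS

/-! Project SN, tasks TYA, TYB: common lemmas. -/

set_option autoImplicit false

namespace Pool.Agent.T2h96.SN

open Matrix Pool.Agent.T2h61.PR

namespace TY

theorem third {n : ℕ} (hn : 3 ≤ n) (i j : Fin n) : ∃ k : Fin n, k ≠ i ∧ k ≠ j := by
  classical
  have h1 : ({i, j} : Finset (Fin n)).card < (Finset.univ : Finset (Fin n)).card := by
    rw [Finset.card_univ, Fintype.card_fin]
    exact lt_of_le_of_lt Finset.card_le_two (by omega)
  obtain ⟨l, -, hl⟩ := Finset.exists_mem_notMem_of_card_lt_card h1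
  simp only [Finset.mem_insert, Finset.mem_singleton, not_or] at hl
  exact ⟨l, hl.1, hl.2⟩

/-- `x j` is in the `i`-th subgroup -/
theorem mem_H {n : ℕ} {G : Type} [Group G] (y : Fin n → G) {i j : Fin n} (h : j ≠ i) :
    y j ∈ Subgroup.closure (y '' {i}ᶜ) :=
  Subgroup.subset_closure ⟨j, h, rfl⟩

theorem zp_mem {G : Type} [Group G] {H : Subgroup G} {y a : G} (hy : y ∈ H)
    (ha : a ∈ Subgroup.zpowers y) : a ∈ H :=
  (Subgroup.zpowers_le.2 hy) ha

/-- all `a j` commute with all `b k` -/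
theorem comm (hNIL : S_NIL) {n ℓ : ℕ} [Fact ℓ.Prime] {G : Type} [Group G] [Finite G]
    (hn : 3 ≤ n) (y a b : Fin n → G) (hy : NilFam y)
    (ha : ∀ j, a j ∈ Subgroup.zpowers (y j)) (hb : ∀ j, b j ∈ Subgroup.zpowers (y j))
    (ha' : ∀ j, ∃ k : ℕ, a j ^ ℓ ^ k = 1) (hb' : ∀ j, (orderOf (b j)).Coprime ℓ) (j k : Fin n) :
    a j * b k = b k * a j := by
  by_cases hjk : j = k
  · subst hjk
    obtain ⟨s, hs⟩ := ha j
    obtain ⟨t, ht⟩ := hb j
    simp only at hs ht
    rw [← hs, ← ht]
    exact (Commute.zpow_zpow_self (y j) s t).eq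
  · obtain ⟨i, hij, hik⟩ := third hn j k
    exact (hNIL G (Subgroup.closure (y '' {i}ᶜ)) inferInstance (hy i) ℓ (Fact.out)).1 (a j)
      (zp_mem (mem_H y hij.symm) (ha j)) (b k) (zp_mem (mem_H y hik.symm) (hb k)) (ha' j) (hb' k)

/-- a matrix commuting with all `cy k (d k)` is scalar -/
theorem scalar {n : ℕ} [NeZero n] {F : Type} [Field F] (B : Mn n F) (d : Fin n → F)
    (hd : ∀ k, d k ≠ 0) (h : ∀ k, B * cy k (d k) = cy k (d k) * B) : ∃ ζ : F, B = ζ • 1 := by
  have h1 : ∀ k, B * Matrix.single (k + 1) k (d k) = Matrix.single (k + 1) k (d k) * B := by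
    intro k
    have h2 := h k
    unfold cy at h2
    rw [mul_add, add_mul, mul_one, one_mul] at h2
    exact add_left_cancel h2
  have h3 : ∀ k i, i ≠ k + 1 → B i (k + 1) = 0 := by
    intro k i hi
    have h4 := congrFun (congrFun (h1 k) i) k
    rw [Matrix.mul_single_apply_same, Matrix.single_mul_apply_of_ne _ _ _ _ _ hi] at h4
    rcases mul_eq_zero.1 h4 with h5 | h5
    · exact h5
    · exact absurd h5 (hd k)
  have h5 : ∀ k, B (k + 1) (k + 1) = B k k := by
    intro k
    have h4 := congrFun (congrFun (h1 k) (k + 1)) k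
    rw [Matrix.mul_single_apply_same, Matrix.single_mul_apply_same, mul_comm] at h4
    exact mul_left_cancel₀ (hd k) h4
  have h6 : ∀ m : ℕ, ∀ k : Fin n, k.val = m → B k k = B 0 0 := by
    intro m
    induction m with
    | zero =>
      intro k hk
      have : k = 0 := Fin.ext (by rw [hk]; rfl)
      rw [this]
    | succ m ih =>
      intro k hk
      have hm : m < n := by
        have := k.2
        omega
      have h7 : (⟨m, hm⟩ : Fin n) + 1 = k := by
        apply Fin.ext
        rw [NFS.val_succ]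
        show (m + 1) % n = k.val
        rw [hk]
        exact Nat.mod_eq_of_lt (by have := k.2; omega)
      rw [← h7, h5]
      exact ih _ rfl
  refine ⟨B 0 0, ?_⟩
  ext i j
  rw [Matrix.smul_apply, smul_eq_mul]
  by_cases hij : i = j
  · subst hij
    rw [Matrix.one_apply_eq, mul_one]
    exact h6 _ i rfl
  · rw [Matrix.one_apply_ne hij, mul_zero]
    have := h3 (j - 1) i (by rw [sub_add_cancel]; exact hij)
    rwa [sub_add_cancel] at this

end TY

end Pool.Agent.T2h96.SN
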