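import Pool.Agent.T2h96.SN.Stm

/-! Project SN, task JOR. -/

set_option autoImplicit false

namespace Pool.Agent.T2h96.SN

theorem t_JOR : S_JOR := by
  intro ℓ hℓ G _ _ y
  have hp : ℓ.Prime := hℓ.out
  have hpos : 0 < orderOf y := orderOf_pos y
  obtain ⟨k, m, hm, he⟩ := Nat.exists_eq_pow_mul_and_not_dvd hpos.ne' ℓ hp.ne_one
  have hcm : Nat.Coprime ℓ m := (Nat.Prime.coprime_iff_not_dvd hp).2 hm
  have hc : IsCoprime (((ℓ ^ k : ℕ) : ℤ)) (m : ℤ) :=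
    Nat.isCoprime_iff_coprime.2 (Nat.Coprime.pow_left k hcm)
  obtain ⟨u, v, huv⟩ := hc
  have h1 : y ^ ((ℓ ^ k * m : ℕ) : ℤ) = 1 := by
    rw [zpow_natCast, ← he, pow_orderOf_eq_one]
  refine ⟨y ^ (v * (m : ℤ)), ⟨_, rfl⟩, y ^ (u * ((ℓ ^ k : ℕ) : ℤ)), ⟨_, rfl⟩, ?_, ⟨k, ?_⟩, ?_⟩
  · rw [← zpow_add, add_comm, huv, zpow_one]
  · rw [← zpow_natCast, ← zpow_mul]
    have e : v * (m : ℤ) * ((ℓ ^ k : ℕ) : ℤ) = ((ℓ ^ k * m : ℕ) : ℤ) * v := by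
      push_cast
      ring
    rw [e, zpow_mul, h1, one_zpow]
  · have h2 : (y ^ (u * ((ℓ ^ k : ℕ) : ℤ))) ^ m = 1 := by
      rw [← zpow_natCast, ← zpow_mul]
      have e : u * ((ℓ ^ k : ℕ) : ℤ) * (m : ℤ) = ((ℓ ^ k * m : ℕ) : ℤ) * u := by
        push_cast
        ring
      rw [e, zpow_mul, h1, one_zpow]
    exact Nat.Coprime.coprime_dvd_left (orderOf_dvd_of_pow_eq_one h2) hcm.symm

end Pool.Agent.T2h96.SN
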