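import Pool.Agent.T2h96.SN.Stm
import Pool.Agent.T2h61.PR.T_TOP

/-!
# (MAIN) assembly
-/

set_option autoImplicit false

namespace Pool.Agent.T2h96.SN

open Matrix Pool.Agent.T2h61.PR

theorem t_MAIN (hI : S_INFT) (h1 : S_R1) (h2 : S_R2) (h3 : S_R3) (h4 : S_R4) (hP : S_PERF)
    (hZ : S_INTG) : S_MAIN := by
  intro n hn Λ _ x hRF hFQ hx hN hO
  haveI : NeZero n := ⟨by omega⟩
  have hFG : Group.FG Λ := by
    classical
    rw [Group.fg_iff]
    exact ⟨Set.range x, hx, Set.finite_range x⟩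
  have hperf := hP n hn Λ hFG hFQ
  obtain ⟨R, _, _, τ, ρ, hρ⟩ := h1 n hn Λ x (hI n hn Λ x hRF hFQ hx hN hO)
  obtain ⟨A, _, _, τ', ρ', hA, hρ'⟩ := h2 n hn Λ x hx hperf R τ ρ hρ
  have hu := h3 n hn Λ x hx hperf A τ' ρ' hρ'
  have hall := h4 n hn Λ x A τ' ρ' hA hu hρ'
  have hft : Algebra.FiniteType ℤ A := by
    refine ⟨⟨{τ'}, ?_⟩⟩
    rw [Finset.coe_singleton, Algebra.adjoin_int, hA]
    ext y
    simp [mem_subalgebraOfSubring]
  obtain ⟨φ⟩ := hZ n hn Λ hFG hFQ A hft ρ' hall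
  let Θ : Λ →* SLn n ℤ := (Matrix.SpecialLinearGroup.map (n := Fin n) φ).comp ρ'
  have hsurj : Function.Surjective Θ := by
    rw [← MonoidHom.range_eq_top, eq_top_iff, ← Pool.Agent.H185.ZM.EE_eq_top]
    unfold Pool.Agent.H185.ZM.EE
    rw [Subgroup.closure_le]
    rintro _ ⟨i, j, h, z, rfl⟩
    obtain ⟨l, hl⟩ := hall i j h (z : A)
    refine ⟨l, ?_⟩
    show Matrix.SpecialLinearGroup.map (n := Fin n) φ (ρ' l) = _
    rw [hl]
    have := Pool.Agent.T2h61.PR.map_tr φ i j h (z : A)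
    rw [map_intCast] at this
    exact this
  have hinj := Pool.Agent.Helper460_PR.hopf hFG hRF hFQ Θ hsurj
  exact ⟨MulEquiv.ofBijective Θ ⟨hinj, hsurj⟩⟩

end Pool.Agent.T2h96.SN
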