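import Pool.Agent.T2h61.PR.Stm

/-!
# Profinite rigidity of `SL (n, ℤ)` and cyclic families of nilpotent subgroups: statements

Theorem: `Λ` residually finite, with the finite quotients of `SL (n, ℤ)`, generated by
`x 0, …, x (n-1)` (`n ≥ 3`) such that for every `i` the `x j` with `j ≠ i` generate a nilpotent
group, and some `x i` has infinite order. Then `Λ ≃* SL (n, ℤ)`.

The indices `k : Fin n` are read cyclically (`k + 1 = 0` for the last `k`).
-/

set_option autoImplicit false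

namespace Pool.Agent.T2h96.SN

open Matrix Pool.Agent.T2h61.PR

/-- elementary matrix (`= Pool.Agent.T2h61.PR.tr` in T_TOP) -/
def tr {n : ℕ} {A : Type} [CommRing A] (i j : Fin n) (h : i ≠ j) (c : A) : SLn n A :=
  ⟨Matrix.transvection i j c, Matrix.det_transvection_of_ne i j h c⟩

/-- residually finite -/
def RF (Λ : Type) [Group Λ] : Prop := ∀ g : Λ, g ≠ 1 → ∃ H : Subgroup Λ, H.index ≠ 0 ∧ g ∉ H

/-- the matrix `1 + c E_{k+1,k}`, `k` cyclic -/
def cy {n : ℕ} [NeZero n] {A : Type} [CommRing A] (k : Fin n) (c : A) : Mn n A :=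
  1 + Matrix.single (k + 1) k c

/-- the weights `1, …, 1, τ` (`τ` at the last place) -/
def wt {n : ℕ} [NeZero n] {A : Type} [CommRing A] (τ : A) (k : Fin n) : A :=
  if k + 1 = 0 then τ else 1

/-- reduction `SL (n, ℤ) → SL (n, F)` -/
def rd (n : ℕ) (F : Type) [CommRing F] : SLn n ℤ →* SLn n F :=
  Matrix.SpecialLinearGroup.map (n := Fin n) (Int.castRingHom F)

/-! ## Part N: linear algebra over finite fields -/

/-- (FIXV, 80 lines) an `ℓ`-group has a fixed vector modulo an invariant subspace.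
Proof. `Q = V ⧸ U` is a finite nontrivial `F`-space of characteristic `ℓ`, so `ℓ ∣ Nat.card Q` (a
nonzero element generates an additive subgroup of order `ℓ`, `addOrderOf`). `S` acts on `Q` (by
`Submodule.mapQ U U (Φ g)`), through the finite group `Equiv.Perm Q`; the image of `S` in
`Equiv.Perm Q` is an `ℓ`-group (`IsPGroup`) and
`IsPGroup.exists_fixed_point_of_prime_dvd_card_of_fixed_point` (fixed point `0`) gives a fixed
point `≠ 0`. -/
def S_FIXV : Prop := ∀ (ℓ : ℕ) [Fact ℓ.Prime] (F V G : Type) [Field F] [CharP F ℓ]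
  [AddCommGroup V] [Module F V] [Finite V] [Group G] (Φ : G →* Module.End F V) (S : Subgroup G)
  (U : Submodule F V), U ≠ ⊤ → (∀ g ∈ S, ∀ u ∈ U, Φ g u ∈ U) → (∀ g ∈ S, ∃ k : ℕ, Φ g ^ ℓ ^ k = 1) →
  ∃ v, v ∉ U ∧ ∀ g ∈ S, Φ g v - v ∈ U

/-- (DIM, 80 lines; takes `S_FIXV` as hypothesis) independent vectors.
Proof. FIXV for `P i` gives `v i ∉ U` with `Φ g (v i) - v i ∈ U` for `g ∈ P i`. Independence modulo
`U`: let `∑ a i • v i ∈ U`; apply `Φ (y j) - 1` (it maps `U` to `U`, as `y j ∈ P i` for some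
`i ≠ j`): the terms `i ≠ j` are in `U`, so `a j • (Φ (y j) (v j) - v j) ∈ U`; if `a j ≠ 0` then
`v j` is fixed modulo `U` by all `y i`, so `v j ∈ U`, contradiction. -/
def S_DIM : Prop := ∀ (n ℓ : ℕ) [Fact ℓ.Prime] (F V G : Type) [Field F] [CharP F ℓ]
  [AddCommGroup V] [Module F V] [Finite V] [Group G] (Φ : G →* Module.End F V) (y : Fin n → G)
  (P : Fin n → Subgroup G) (U : Submodule F V), 2 ≤ n → U ≠ ⊤ →
  (∀ i, ∀ g ∈ P i, ∀ u ∈ U, Φ g u ∈ U) → (∀ i, ∀ g ∈ P i, ∃ k : ℕ, Φ g ^ ℓ ^ k = 1) →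
  (∀ i j, j ≠ i → y j ∈ P i) → (∀ v, (∀ j, Φ (y j) v - v ∈ U) → v ∈ U) →
  ∃ v : Fin n → V, (∀ i j, j ≠ i → Φ (y j) (v i) - v i ∈ U) ∧
    LinearIndependent F (fun i => U.mkQ (v i))

/-- (NFA, 60 lines; takes `S_DIM`) a basis `b` with `y j b i = b i` for `i ≠ j`.
Proof. DIM with `V = Fin n → F`, `G = (Mn n F)ˣ`, `Φ g = Matrix.toLin'`/`Matrix.mulVecLin`, `U = ⊥`;
`n` independent vectors in `Fin n → F` are a basis. -/
def S_NFA : Prop := ∀ (n ℓ : ℕ) [Fact ℓ.Prime] (F : Type) [Field F] [Finite F] [CharP F ℓ],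
  2 ≤ n → ∀ (y : Fin n → (Mn n F)ˣ) (P : Fin n → Subgroup (Mn n F)ˣ),
  (∀ i, ∀ g ∈ P i, ∃ k : ℕ, g ^ ℓ ^ k = 1) → (∀ i j, j ≠ i → y j ∈ P i) →
  (∀ v : Fin n → F, (∀ j, (y j : Mn n F) *ᵥ v = v) → v = 0) →
  ∃ b : Module.Basis (Fin n) F (Fin n → F), ∀ i j, i ≠ j → (y j : Mn n F) *ᵥ b i = b i

/-- (NFB, 180 lines; takes `S_FIXV`) each `y j` moves `b j` by a multiple of one basis vector.
Proof. Write `y j b j = b j + ∑ k, c k j • b k`; this is `≠ b j` (otherwise `b j` is a common fixed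
vector), so some `c k j ≠ 0`. Call `s : Fin n → Fin n` a choice if `c (s j) j ≠ 0` for all `j`.
Claim: a nonempty `T` with `s t ∈ T` for `t ∈ T` is everything. Otherwise let `i ∉ T`, let `H` be
the closure of `{y j | j ∈ T}` (it lies in `P i`, so it is an `ℓ`-group), `U = span {b t | t ∉ T}`
(fixed pointwise by `y j`, `j ∈ T`, so `U ≠ ⊤` is `H`-invariant). FIXV: there is `v ∉ U` with
`y j v - v ∈ U` for `j ∈ T`; with `v = ∑ a t • b t` this says `a j • ∑ k, c k j • b k ∈ U`, so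
`a j * c k j = 0` for all `k ∈ T`, `j ∈ T`. As `v ∉ U` some `a j ≠ 0` with `j ∈ T`, and
`k = s j ∈ T` gives a contradiction. Hence every choice is surjective (the range `T` of `s` is
closed), so bijective. If `c k j ≠ 0` and `c k' j ≠ 0`, take a choice `s` with `s j = k` and
`s' = Function.update s j k'`: both are bijective and agree off `j`, so `k = k'`. So
`∑ k, c k j • b k = c (s j) j • b (s j)`. -/
def S_NFB : Prop := ∀ (n ℓ : ℕ) [Fact ℓ.Prime] (F : Type) [Field F] [Finite F] [CharP F ℓ],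
  2 ≤ n → ∀ (y : Fin n → (Mn n F)ˣ) (P : Fin n → Subgroup (Mn n F)ˣ),
  (∀ i, ∀ g ∈ P i, ∃ k : ℕ, g ^ ℓ ^ k = 1) → (∀ i j, j ≠ i → y j ∈ P i) →
  (∀ v : Fin n → F, (∀ j, (y j : Mn n F) *ᵥ v = v) → v = 0) →
  ∀ b : Module.Basis (Fin n) F (Fin n → F), (∀ i j, i ≠ j → (y j : Mn n F) *ᵥ b i = b i) →
  ∃ (s : Fin n → Fin n) (c : Fin n → F), (∀ j, c j ≠ 0) ∧
    (∀ j, (y j : Mn n F) *ᵥ b j = b j + c j • b (s j)) ∧
    (∀ T : Set (Fin n), T.Nonempty → (∀ t ∈ T, s t ∈ T) → T = Set.univ)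

/-- (NFC, 150 lines) the cyclic normal form.
Proof. `s` is bijective and one cycle: `π k = s^[k] 0` (`k = 0..n-1`) is a bijection of `Fin n`:
the orbit `{s^[k] 0}` is `s`-closed so everything; `p = Function.minimalPeriod s 0` (or: the least
`p ≥ 1` with `s^[p] 0 = 0`; it exists since `{s^[k] 0 | k ≥ 1}` is closed and so contains `0`), the
set `{s^[k] 0 | k < p}` is closed of cardinality `p`, so `p = n`. So `s (π k) = π (k+1)` cyclically.
Let `g` have the columns `b (π k)` (invertible: a basis). Then `y (π k)` and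
`g * cy k (c (π k)) * g⁻¹` agree on all `b (π i)`. -/
def S_NFC : Prop := ∀ (n : ℕ) [NeZero n] (F : Type) [Field F], 2 ≤ n → ∀ (y : Fin n → (Mn n F)ˣ)
  (b : Module.Basis (Fin n) F (Fin n → F)), (∀ i j, i ≠ j → (y j : Mn n F) *ᵥ b i = b i) →
  ∀ (s : Fin n → Fin n) (c : Fin n → F), (∀ j, c j ≠ 0) →
    (∀ j, (y j : Mn n F) *ᵥ b j = b j + c j • b (s j)) →
    (∀ T : Set (Fin n), T.Nonempty → (∀ t ∈ T, s t ∈ T) → T = Set.univ) →
  ∃ (π : Equiv.Perm (Fin n)) (g : (Mn n F)ˣ) (d : Fin n → F), (∀ k, d k ≠ 0) ∧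
    ∀ k, (y (π k) : Mn n F) = (g : Mn n F) * cy k (d k) * ((g⁻¹ : (Mn n F)ˣ) : Mn n F)

/-- (NF; from NFA, NFB, NFC) the normal form. -/
def S_NF : Prop := ∀ (n ℓ : ℕ) [NeZero n] [Fact ℓ.Prime] (F : Type) [Field F] [Finite F]
  [CharP F ℓ], 2 ≤ n → ∀ (y : Fin n → (Mn n F)ˣ) (P : Fin n → Subgroup (Mn n F)ˣ),
  (∀ i, ∀ g ∈ P i, ∃ k : ℕ, g ^ ℓ ^ k = 1) → (∀ i j, j ≠ i → y j ∈ P i) →
  (∀ v : Fin n → F, (∀ j, (y j : Mn n F) *ᵥ v = v) → v = 0) →
  ∃ (π : Equiv.Perm (Fin n)) (g : (Mn n F)ˣ) (d : Fin n → F), (∀ k, d k ≠ 0) ∧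
    ∀ k, (y (π k) : Mn n F) = (g : Mn n F) * cy k (d k) * ((g⁻¹ : (Mn n F)ˣ) : Mn n F)

/-- (NFS, 70 lines) scaling: only the product of the weights matters.
Proof. Diagonal `D = diagonal u` with `u 0 = 1` and `u (k+1) = u k * d k / c k` for `k + 1 ≠ 0`
(i.e. `u k = ∏ i < k, d i / c i`); then `D * cy k (c k) * D⁻¹ = cy k (u (k+1) * c k * (u k)⁻¹)`,
which is `cy k (d k)` for `k + 1 ≠ 0`, and for the last `k` by the equality of the products. -/
def S_NFS : Prop := ∀ (n : ℕ) [NeZero n] (F : Type) [Field F], ∀ (c d : Fin n → F),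
  (∀ k, c k ≠ 0) → (∀ k, d k ≠ 0) → ∏ k, c k = ∏ k, d k →
  ∃ D : (Mn n F)ˣ, ∀ k, (D : Mn n F) * cy k (c k) * ((D⁻¹ : (Mn n F)ˣ) : Mn n F) = cy k (d k)

/-! ## Part T: the images of the generators modulo a prime -/

/-- (NIL, 120 lines) facts on finite nilpotent groups (given as a nilpotent subgroup `H` of a group,
`H` finite). Proof. `isNilpotent_of_finite_tfae` (all Sylow subgroups are normal), so the Sylow
`p`-subgroup of `H` is unique and contains all `p`-elements (part 2); a `p`-element commutes with a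
`p'`-element (part 1): the `p'`-element is a product of powers of itself lying in Sylow
`q`-subgroups, `q ≠ p`, and normal subgroups with trivial intersection commute
(`Subgroup.commute_of_normal_of_disjoint`); or use the isomorphism with the product of the Sylow
subgroups in the same tfae. -/
def S_NIL : Prop := ∀ (G : Type) [Group G] (H : Subgroup G), Finite H → Group.IsNilpotent H →
  ∀ (p : ℕ), p.Prime →
  (∀ a ∈ H, ∀ b ∈ H, (∃ k : ℕ, a ^ p ^ k = 1) → (orderOf b).Coprime p → a * b = b * a) ∧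
  (∀ a ∈ Subgroup.closure {h | h ∈ H ∧ ∃ k : ℕ, h ^ p ^ k = 1}, ∃ k : ℕ, a ^ p ^ k = 1)

/-- (ABEL, 120 lines; takes `S_UNI`) a finite `r`-subgroup of `GL (n, F)` with `r > n` a prime
different from the characteristic is commutative.
Proof. `R` is nilpotent (`IsPGroup.isNilpotent`). If it is not commutative, then there is `g` in the
second term of the upper central series and not central, and `h` with
`u = g * h * g⁻¹ * h⁻¹ ≠ 1` central. `S_UNI` gives `(u ^ n! - 1) ^ n = 0`. With `ℓ` the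
characteristic and `ℓ ^ k ≥ n`: `(u ^ n!) ^ ℓ ^ k = 1` (`sub_pow_char_pow_of_commute` /
`sub_pow_expChar_pow_of_commute`), and `u ^ r ^ m = 1`; `n!` and `ℓ ^ k` are prime to `r`, so
`u = 1`, contradiction. -/
def S_ABEL : Prop := ∀ (n ℓ r : ℕ) [Fact ℓ.Prime] (F : Type) [Field F] [Finite F] [CharP F ℓ],
  r.Prime → n < r → r ≠ ℓ → ∀ R : Subgroup (Mn n F)ˣ, (∀ g ∈ R, ∃ k : ℕ, g ^ r ^ k = 1) →
  ∀ a ∈ R, ∀ b ∈ R, a * b = b * a

/-- the normal form of the images of the generators, up to scalars -/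
def NForm {n : ℕ} [NeZero n] {Λ : Type} [Group Λ] {F : Type} [Field F] (x : Fin n → Λ)
    (f : Λ →* SLn n F) : Prop :=
  ∃ (π : Equiv.Perm (Fin n)) (g : (Mn n F)ˣ) (d ζ : Fin n → F), (∀ k, d k ≠ 0) ∧
    ∀ k, (f (x (π k)) : Mn n F) =
      ζ k • ((g : Mn n F) * cy k (d k) * ((g⁻¹ : (Mn n F)ˣ) : Mn n F))

/-- the subgroup `⟨x j | j ≠ i⟩` is nilpotent for every `i` -/
def NilFam {n : ℕ} {Λ : Type} [Group Λ] (x : Fin n → Λ) : Prop :=
  ∀ i, Group.IsNilpotent (Subgroup.closure (x '' {i}ᶜ))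

/-- (JOR, 60 lines) primary decomposition in a group: an element `y` of finite order is `y = a * b`
with `a`, `b` powers of `y`, `a` an `ℓ`-element and `b` of order prime to `ℓ`.
Proof. `orderOf y = ℓ ^ k * m` with `m` prime to `ℓ`; `u ℓ ^ k + v m = 1`; `a = y ^ (v m)`,
`b = y ^ (u ℓ ^ k)` (integer exponents). -/
def S_JOR : Prop := ∀ (ℓ : ℕ) [Fact ℓ.Prime] (G : Type) [Group G] [Finite G] (y : G),
  ∃ a ∈ Subgroup.zpowers y, ∃ b ∈ Subgroup.zpowers y, y = a * b ∧ (∃ k : ℕ, a ^ ℓ ^ k = 1) ∧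
    (orderOf b).Coprime ℓ

/-- (TYA, 200 lines; takes `S_NF`, `S_NIL`) case 1.
Let `y j`, generate `SL (n, F)`, `y j = a j * b j` as in JOR. If no nonzero vector is fixed by all
the `a j`, then the `y j` are in normal form up to scalars. Proof. For `j ≠ k` there is `i` different
from `j`, `k`, and `a j`, `b k` are in the finite nilpotent group `H i = ⟨y t | t ≠ i⟩`, so they
commute by NIL (1); also `a j`, `b j` commute (powers of `y j`). So every `b k` commutes with every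
`a j`. By NIL (2) the `a j`, `j ≠ i`, are in the `ℓ`-group `P i` = closure of the `ℓ`-elements of
`H i`; NF (applied to the `a j` in `(Mn n F)ˣ`, with the images of `P i` under
`SpecialLinearGroup.toGL`) gives `a (π k) = g * cy k (d k) * g⁻¹`. `g⁻¹ * b * g =: B` commutes with
all `cy k (d k)`, so with `single (k+1) k 1`: comparing entries of `B * single (k+1) k 1 =
single (k+1) k 1 * B` gives `B i (k+1) = 0` for `i ≠ k+1` and `B (k+1) (k+1) = B k k`: `B` is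
scalar, so `b (π k)` is a scalar matrix `ζ k`. -/
def S_TYA : Prop := ∀ (n ℓ : ℕ) [NeZero n] [Fact ℓ.Prime] (F : Type) [Field F] [Finite F]
  [CharP F ℓ], 3 ≤ n → ∀ (y a b : Fin n → SLn n F), NilFam y →
  (∀ j, a j ∈ Subgroup.zpowers (y j)) → (∀ j, b j ∈ Subgroup.zpowers (y j)) →
  (∀ j, y j = a j * b j) → (∀ j, ∃ k : ℕ, a j ^ ℓ ^ k = 1) → (∀ j, (orderOf (b j)).Coprime ℓ) →
  (∀ v : Fin n → F, (∀ j, (a j : Mn n F) *ᵥ v = v) → v = 0) →
  ∃ (π : Equiv.Perm (Fin n)) (g : (Mn n F)ˣ) (d ζ : Fin n → F), (∀ k, d k ≠ 0) ∧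
    ∀ k, (y (π k) : Mn n F) = ζ k • ((g : Mn n F) * cy k (d k) * ((g⁻¹ : (Mn n F)ˣ) : Mn n F))

/-- (TYB, 80 lines; takes `S_NIL`) the space of the common fixed vectors of the `a j` is `0` or
everything (`r ≥ 3` elements `y j`, `r` arbitrary). Proof. As in TYA all `b k` commute with all `a j`; and `a k` preserves the space `W` of
the common fixed vectors (it fixes it pointwise), `b k` preserves it (commuting). So all `y k`
preserve `W`, so `SL (n, F)` does (`W` is finite dimensional, so the stabiliser of `W` is a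
subgroup). If `v ∈ W`, `v i ≠ 0`, then `v + c v i e j = tr j i c v ∈ W` for all `j ≠ i`, so
`e j ∈ W` for `j ≠ i`, and then also `e i` (use `tr i j 1 e j - e j = e i`). -/
def S_TYB : Prop := ∀ (n r ℓ : ℕ) [Fact ℓ.Prime] (F : Type) [Field F] [Finite F] [CharP F ℓ],
  3 ≤ n → 3 ≤ r → ∀ (y a b : Fin r → SLn n F), NilFam y → Subgroup.closure (Set.range y) = ⊤ →
  (∀ j, a j ∈ Subgroup.zpowers (y j)) → (∀ j, b j ∈ Subgroup.zpowers (y j)) →
  (∀ j, y j = a j * b j) → (∀ j, ∃ k : ℕ, a j ^ ℓ ^ k = 1) → (∀ j, (orderOf (b j)).Coprime ℓ) →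
  (∀ v : Fin n → F, (∀ j, (a j : Mn n F) *ᵥ v = v) → v = 0) ∨ ∀ j, a j = 1

/-- (TYC, 150 lines; takes `S_NIL`, `S_ABEL`, `S_JOR`) case 2.
If the `y j` have order prime to `ℓ` and generate `SL (n, F)`, then the prime divisors of their
orders are `≤ n`. Proof. Let `r > n` be a prime dividing `orderOf (y j)`, `c` the power of `y j` of
order `r`. For every `i ≠ j` and `k ≠ i`: `c` and `y k` are in the finite nilpotent group
`H i = ⟨y t | t ≠ i⟩`; `y k = a' * b'` by JOR for the prime `r`; `c` commutes with `b'` by NIL (1)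
and with `a'` since both are in the closure of the `r`-elements of `H i`, an `r`-group by NIL (2),
commutative by ABEL (through `SpecialLinearGroup.toGL`, injective). For every `k` there is such `i`
(`m ≥ 3`). So `c` is central in `SL (n, F)`, so `c = ζ • 1`, `ζ ^ n = 1` (determinant), `ζ ^ r = 1`,
so `ζ = 1` as `n` and `r` are coprime. Contradiction. -/
def S_TYC : Prop := ∀ (n m ℓ : ℕ) [Fact ℓ.Prime] (F : Type) [Field F] [Finite F] [CharP F ℓ],
  3 ≤ n → 3 ≤ m → ∀ (y : Fin m → SLn n F), NilFam y → Subgroup.closure (Set.range y) = ⊤ →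
  (∀ j, (orderOf (y j)).Coprime ℓ) → ∀ j, ∀ r : ℕ, r.Prime → r ∣ orderOf (y j) → r ≤ n

/-- (TYD, 80 lines; takes `S_NIL`, `S_DIM`) more than `n` elements.
Proof. As in TYA the `a j`, `j ≠ i`, are in an `ℓ`-group `P i` (NIL (2): closure of the
`ℓ`-elements of the finite nilpotent group `⟨y t | t ≠ i⟩`), `i : Fin m`. If no nonzero vector is
fixed by all `a j`, then DIM (`V = Fin n → F`, `G = SLn n F`, `U = ⊥`, `m` elements) gives `m > n`
independent vectors, contradiction. -/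
def S_TYD : Prop := ∀ (n m ℓ : ℕ) [Fact ℓ.Prime] (F : Type) [Field F] [Finite F] [CharP F ℓ],
  3 ≤ n → n < m → ∀ (y a : Fin m → SLn n F), NilFam y → (∀ j, a j ∈ Subgroup.zpowers (y j)) →
  (∀ j, ∃ k : ℕ, a j ^ ℓ ^ k = 1) → ∃ v : Fin n → F, v ≠ 0 ∧ ∀ j, (a j : Mn n F) *ᵥ v = v

/-- (TYP, 80 lines; takes `S_JOR`, `S_TYA`, `S_TYB`, `S_TYC`) the two types of surjections. -/
def S_TYP : Prop := ∀ (n ℓ : ℕ) [NeZero n] [Fact ℓ.Prime], 3 ≤ n → ∀ (Λ : Type) [Group Λ]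
  (x : Fin n → Λ), Subgroup.closure (Set.range x) = ⊤ → NilFam x →
  ∀ f : Λ →* SLn n (ZMod ℓ), Function.Surjective f →
  NForm x f ∨ ∀ j, ∀ r : ℕ, r.Prime → r ∣ orderOf (f (x j)) → r ≤ n

/-- (TYQ, 60 lines; takes `S_JOR`, `S_TYD`, `S_TYB`, `S_TYC`) more than `n` generators. -/
def S_TYQ : Prop := ∀ (n m ℓ : ℕ) [Fact ℓ.Prime], 3 ≤ n → n < m → ∀ (Λ : Type) [Group Λ]
  (x : Fin m → Λ), Subgroup.closure (Set.range x) = ⊤ → NilFam x →
  ∀ f : Λ →* SLn n (ZMod ℓ), Function.Surjective f →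
  ∀ j, ∀ r : ℕ, r.Prime → r ∣ orderOf (f (x j)) → r ≤ n

/-- (PRA, 120 lines) arithmetic for PROG. Proof. Let `p > n` be a prime, `D = ∏ f ∈ [1,n], (p^f-1)`,
`K` with `D < 2 ^ K`, `L = n! ^ K`; `ℓ ≡ p` modulo `L`, `ℓ > B` a prime (Dirichlet,
`Nat.forall_exists_prime_gt_and_eq_mod` / `Nat.setOf_prime_and_eq_mod_infinite`; `p` is prime to
`L`). Let `m ∣ ∏ f ∈ [1,n], (ℓ^f-1)` have only prime divisors `≤ n`. For a prime `q ≤ n`:
`q ^ K ∣ L`, so `ℓ^f - 1 ≡ p^f - 1` modulo `q ^ K`, and `0 < p^f - 1 ≤ D < q ^ K`, so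
`v_q (ℓ^f - 1) = v_q (p^f - 1)` (`padicValNat` / `Nat.factorization`). So `v_q m ≤ v_q D` for all
primes `q`, `m ∣ D`. -/
def S_PRA : Prop := ∀ n : ℕ, 1 ≤ n → ∃ D : ℕ, 0 < D ∧ ∀ B : ℕ, ∃ ℓ : ℕ, B < ℓ ∧ ℓ.Prime ∧
  ∀ m : ℕ, m ∣ ∏ f ∈ Finset.Icc 1 n, (ℓ ^ f - 1) → (∀ q : ℕ, q.Prime → q ∣ m → q ≤ n) → m ∣ D

/-- (PROG, 80 lines; takes `S_PRA`) elements with smooth order in `SL (n, ℤ / ℓ)`.
Proof. `ℓ > max B n` from PRA. `orderOf y` divides `Nat.card (GL (Fin n) (ZMod ℓ)) =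
∏ i < n, (ℓ ^ n - ℓ ^ i)` (`Matrix.card_GL_field`) `= ℓ ^ (n(n-1)/2) * ∏ f ∈ [1,n], (ℓ^f-1)`, and it
is prime to `ℓ` (`ℓ > n`), so PRA applies to `m = orderOf y`. -/
def S_PROG : Prop := ∀ n : ℕ, 1 ≤ n → ∃ D : ℕ, 0 < D ∧ ∀ B : ℕ, ∃ ℓ : ℕ, B < ℓ ∧ ℓ.Prime ∧
  ∀ y : SLn n (ZMod ℓ), (∀ r : ℕ, r.Prime → r ∣ orderOf y → r ≤ n) → y ^ D = 1

/-! ## Part C: homomorphisms from `SL (n, ℤ)` to `SL (n, F)`, `F` finite of large characteristic

Useful: `Pool.Agent.T2h61.PR.FF` (T_FF.lean): `kill`, `ker_of`, `gam_inter`, `gam_sup`, `card_img`,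
`gen_field`, `third`; there `tv i j h t` is the same as `tr (A := ℤ) i j h t` (`rfl`) and
`red n M` is the same as `rd n (ZMod M)`. -/

/-- The data used in part C: `m` with `n! ∣ m` and `m ≡ 1` modulo `ℓ`, and
`E i j = g (tr i j m)`. -/
structure EDat (n ℓ : ℕ) (F : Type) [Field F] (g : SLn n ℤ →* SLn n F) (m : ℕ)
    (E : Fin n → Fin n → SLn n F) : Prop where
  dvd : n.factorial ∣ m
  mod : (m : ZMod ℓ) = 1
  pos : 0 < m
  def' : ∀ i j (h : i ≠ j), E i j = g (tr i j h (m : ℤ))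
  kill : ∀ A : SLn n ℤ, rd n (ZMod (n.factorial * ℓ)) A = 1 → g A = 1
  pow : ∀ i j, i ≠ j → E i j ^ ℓ = 1
  comm : ∀ i j k, i ≠ j → j ≠ k → i ≠ k → E i j * E j k = E i k * (E j k * E i j)
  commute : ∀ i j k l, i ≠ j → k ≠ l → j ≠ k → i ≠ l → E i j * E k l = E k l * E i j

/-- (CLE, 120 lines; takes `S_UNI`) the data exist for every prime `ℓ > n!`.
Proof. `m = n! * k` with `k` the inverse of `n!` modulo `ℓ`. `kill` from `FF.kill` (with `S = F`,
`ψ₁ = ψ₂ = RingHom.id F`) and `FF.ker_of`. `pow`: `E i j ^ ℓ = g (tr i j (m ℓ))` is killed.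
`comm`: `tr i j m * tr j k m = tr i k (m^2) * (tr j k m * tr i j m)` and `n! ℓ ∣ m^2 - m`. -/
def S_CLE : Prop := ∀ (n ℓ : ℕ), 3 ≤ n → ℓ.Prime → n.factorial < ℓ →
  ∀ (F : Type) [Field F] [Finite F] [CharP F ℓ] (g : SLn n ℤ →* SLn n F),
  ∃ (m : ℕ) (E : Fin n → Fin n → SLn n F), EDat n ℓ F g m E

/-- (CLP, 150 lines) `ℓ`-groups containing the `E (j+1) j`, `j ≠ i`.
Proof. Let `r a = (a - (i+1) : Fin n).val` (rank in the cyclic order starting with `i+1`; for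
`j ≠ i`: `r (j+1) = r j + 1`). Let `T` be the set of all `A : SLn n ℤ` such that `n! ∣ (A-1) a b` and
`(A-1) a b = 0` unless `r b < r a`. It is a submonoid containing `tr (j+1) j m`, `j ≠ i`. For
`A = 1 + X ∈ T`: `X ^ s` has entries divisible by `n!` for `s ≥ 1` and `(X ^ s) a b = 0` unless
`r b + s ≤ r a`, so `X ^ s = 0` for `s ≥ n`. `A ^ ℓ = ∑ choose ℓ s • X ^ s` and `ℓ ∣ choose ℓ s` for
`0 < s < ℓ`, `X ^ ℓ = 0` (`n ≤ n! < ℓ`), so `A ^ ℓ ≡ 1` modulo `n! ℓ` (`n!` and `ℓ` are coprime) and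
`g A ^ ℓ = 1` by `kill`. `P = g(T)`: it is a submonoid, and closed under inverses as
`(g A)⁻¹ = g (A ^ (ℓ-1))`. -/
def S_CLP : Prop := ∀ (n ℓ : ℕ) [NeZero n], 3 ≤ n → ℓ.Prime → n.factorial < ℓ →
  ∀ (F : Type) [Field F] [Finite F] [CharP F ℓ] (g : SLn n ℤ →* SLn n F) (m : ℕ)
  (E : Fin n → Fin n → SLn n F), EDat n ℓ F g m E →
  ∀ i : Fin n, ∃ P : Subgroup (SLn n F), (∀ h ∈ P, h ^ ℓ = 1) ∧ ∀ j, j ≠ i → E (j + 1) j ∈ P

/-- (CLG, 60 lines) all `E i j` are in the group generated by the `E (j+1) j`.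
Proof. Induction on `s = 1, …, n-1` for `E (j+s) j` (`j + s` cyclic, all different from `j`), by
`comm`: `E (j+s+1) j = E (j+s+1) (j+s) * E (j+s) j * (E (j+s) j * ...)⁻¹`. -/
def S_CLG : Prop := ∀ (n : ℕ) [NeZero n], 3 ≤ n → ∀ (G : Type) [Group G] (E : Fin n → Fin n → G),
  (∀ i j k, i ≠ j → j ≠ k → i ≠ k → E i j * E j k = E i k * (E j k * E i j)) →
  ∀ i j, i ≠ j → E i j ∈ Subgroup.closure (Set.range fun k : Fin n => E (k + 1) k)

/-- (CLV, 200 lines; takes `S_DIM`, `S_CLP`, `S_CLG`) dichotomy.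
Proof. Let `U` be the space of the vectors fixed by all `E (j+1) j`; by CLG it is fixed pointwise by
all `E i j`. If `U = ⊤`, then all `E i j = 1`. Let `U ≠ ⊤`. Claim: if `E (j+1) j v - v ∈ U` for all
`j` then `v ∈ U`. The set of all `h : SLn n F` with `h u = u` for `u ∈ U` and `h v - v ∈ U` is a
subgroup, so `E i j v - v ∈ U` for all `i ≠ j`. With `E i j v = v + a`, `E j k v = v + b` the
relation `comm` gives `E i k (v + a + b) = v + a + b`, so `E i k v = v` for all `i ≠ k`. DIM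
(`V = Fin n → F`, `G = SLn n F`, `y j = E (j+1) j`, `P i` = the closure of the `E (j+1) j`, `j ≠ i`,
contained in the group of CLP, so of exponent `ℓ`, and fixing `U` pointwise) gives `n` independent
vectors in `V ⧸ U`, so `U = ⊥`. -/
def S_CLV : Prop := ∀ (n ℓ : ℕ) [NeZero n], 3 ≤ n → ℓ.Prime → n.factorial < ℓ →
  ∀ (F : Type) [Field F] [Finite F] [CharP F ℓ] (g : SLn n ℤ →* SLn n F) (m : ℕ)
  (E : Fin n → Fin n → SLn n F), EDat n ℓ F g m E →
  (∀ v : Fin n → F, (∀ j, (E (j + 1) j : Mn n F) *ᵥ v = v) → v = 0) ∨ ∀ i j, i ≠ j → E i j = 1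

/-- (CLK, 60 lines) if all `E i j = 1` then `g` has small image.
Proof. `g (tr i j 1) ^ m = 1` and `g (tr i j 1) ^ (n! ℓ) = 1` (`kill`) and
`Nat.gcd m (n! ℓ) = n!` (`n! ∣ m`, `ℓ ∤ m`), so `g (tr i j n!) = 1`; `FF.ker_of` and `FF.card_img`
(with `a = 1`, `b = n!`). -/
def S_CLK : Prop := ∀ (n ℓ : ℕ), 3 ≤ n → ℓ.Prime → n.factorial < ℓ →
  ∀ (F : Type) [Field F] [Finite F] [CharP F ℓ] (g : SLn n ℤ →* SLn n F) (m : ℕ)
  (E : Fin n → Fin n → SLn n F), EDat n ℓ F g m E → (∀ i j, i ≠ j → E i j = 1) →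
  Nat.card g.range ≤ Nat.card (SLn n (ZMod n.factorial))

/-- (ADJ, 80 lines) a permutation of the cyclic set `Fin n` preserving adjacency.
Proof. If `π (k+1) = π k + 1` then `π (k+2) = π (k+1) + 1` (otherwise `π (k+2) = π k`, but
`k + 2 ≠ k` for `n ≥ 3`); so if it holds for one `k` it holds for all `k` and `π k = π 0 + k`.
Otherwise `π (k+1) + 1 = π k` for all `k`, so `π k + k = π 0`. -/
def S_ADJ : Prop := ∀ (n : ℕ) [NeZero n], 3 ≤ n → ∀ π : Equiv.Perm (Fin n),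
  (∀ k, π (k + 1) = π k + 1 ∨ π (k + 1) + 1 = π k) →
  (∃ c, ∀ k, π k = c + k) ∨ (∃ c, ∀ k, π k + k = c)

/-- (CLN, 150 lines; takes `S_ADJ`) from the normal form to two cases.
Proof. If `π (k+1)` and `π k` are not adjacent then `E (π k + 1) (π k)` and
`E (π (k+1) + 1) (π (k+1))` commute (`commute`), so `cy k (d k)` and `cy (k+1) (d (k+1))` commute;
but the `(k+2, k)` entries of the two products are `0` and `d k * d (k+1) ≠ 0`. So ADJ applies. If
`π k = c + k`: conjugation of `cy k a` by the permutation matrix of `k ↦ c + k` is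
`cy (c + k) a`. If `π k + k = c`: with `j = π k`, `k = c - j`, conjugation by the permutation matrix
of `i ↦ c + 1 - i` takes `single (k+1) k` to `single (c - k) (c - k + 1) = single j (j+1)`. -/
def S_CLN : Prop := ∀ (n : ℕ) [NeZero n], 3 ≤ n → ∀ (F : Type) [Field F]
  (E : Fin n → Fin n → SLn n F),
  (∀ i j k l, i ≠ j → k ≠ l → j ≠ k → i ≠ l → E i j * E k l = E k l * E i j) →
  (∃ (π : Equiv.Perm (Fin n)) (g : (Mn n F)ˣ) (d : Fin n → F), (∀ k, d k ≠ 0) ∧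
    ∀ k, (E (π k + 1) (π k) : Mn n F) =
      (g : Mn n F) * cy k (d k) * ((g⁻¹ : (Mn n F)ˣ) : Mn n F)) →
  (∃ (u : (Mn n F)ˣ) (d : Fin n → F), (∀ k, d k ≠ 0) ∧ ∀ k, (E (k + 1) k : Mn n F) =
      (u : Mn n F) * (1 + Matrix.single (k + 1) k (d k)) * ((u⁻¹ : (Mn n F)ˣ) : Mn n F)) ∨
  (∃ (u : (Mn n F)ˣ) (d : Fin n → F), (∀ k, d k ≠ 0) ∧ ∀ k, (E (k + 1) k : Mn n F) =
      (u : Mn n F) * (1 + Matrix.single k (k + 1) (d k)) * ((u⁻¹ : (Mn n F)ˣ) : Mn n F))

/-- (CLR, 180 lines; takes `S_NFS`) recovering all `E i j`.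
Proof. Conjugate `u` away. By `comm` and induction on `s = 1, …, n-1`:
`E (j+s) j = 1 + single (j+s) j (∏ t < s, d (j+t))`. For `s = 2`: `E (j+1) (j+2)` (which is the case
`s = n-1` at `j+2`) and `E (j+2) j` give with `comm`
`E (j+1) j = 1 + single (j+1) j ((∏ k, d k) * d j)`, so `∏ k, d k = 1`. By NFS (target weights `1`)
we may assume `d = 1`, and then the formula is `E (j+s) j = 1 + single (j+s) j 1`. -/
def S_CLR : Prop := ∀ (n : ℕ) [NeZero n], 3 ≤ n → ∀ (F : Type) [Field F]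
  (E : Fin n → Fin n → SLn n F),
  (∀ i j k, i ≠ j → j ≠ k → i ≠ k → E i j * E j k = E i k * (E j k * E i j)) →
  (∃ (u : (Mn n F)ˣ) (d : Fin n → F), (∀ k, d k ≠ 0) ∧ ∀ k, (E (k + 1) k : Mn n F) =
      (u : Mn n F) * (1 + Matrix.single (k + 1) k (d k)) * ((u⁻¹ : (Mn n F)ˣ) : Mn n F)) →
  ∃ u : (Mn n F)ˣ, ∀ i j, i ≠ j → (E i j : Mn n F) =
      (u : Mn n F) * (1 + Matrix.single i j 1) * ((u⁻¹ : (Mn n F)ˣ) : Mn n F)

/-- (CLD, 180 lines) from the `E i j` to `g`.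
Proof. (1) `g w = u * rd w * u⁻¹` for `w ∈ Γ(n!)`: for `w = tr i j (m t)` it follows from
`g w = E i j ^ t`, `m = 1` in `F`. In general `rd n (ZMod ℓ) w` is a product of elementary matrices
(`FF.gen_field`), so there is a product `w₁` of elements `tr i j (m t)` with `w₁ ≡ w` modulo `ℓ`;
`w w₁⁻¹ ∈ Γ(n! ℓ)` (`FF.gam_inter`) is killed by `g` and by `rd n F`. (2) Let `z : SLn n ℤ`,
`t z = (u * rd z * u⁻¹)⁻¹ * g z`. From `g z * g w * (g z)⁻¹ = g (z w z⁻¹)` for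
`w = tr i j m ∈ Γ(n!)` it follows that `t z` commutes with all `u * (1 + single i j 1) * u⁻¹`, so it
is scalar. (3) so `z ↦ t z` is a homomorphism from `SLn n ℤ` to the commutative group of scalar
matrices; it is trivial since `SLn n ℤ` is generated by the
`tr i k a = tr i j a * tr j k 1 * (tr i j a)⁻¹ * (tr j k 1)⁻¹` (`H185.ZM.EE_eq_top`). -/
def S_CLD : Prop := ∀ (n ℓ : ℕ), 3 ≤ n → ℓ.Prime → n.factorial < ℓ →
  ∀ (F : Type) [Field F] [Finite F] [CharP F ℓ] (g : SLn n ℤ →* SLn n F) (m : ℕ)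
  (E : Fin n → Fin n → SLn n F), EDat n ℓ F g m E → ∀ u : (Mn n F)ˣ,
  (∀ i j, i ≠ j → (E i j : Mn n F) =
      (u : Mn n F) * (1 + Matrix.single i j 1) * ((u⁻¹ : (Mn n F)ˣ) : Mn n F)) →
  ∀ y, (g y : Mn n F) = (u : Mn n F) * (rd n F y : Mn n F) * ((u⁻¹ : (Mn n F)ˣ) : Mn n F)

/-- (CL, 150 lines; takes `S_CLE`, `S_CLP`, `S_CLV`, `S_CLK`, `S_NF`, `S_CLN`, `S_CLR`, `S_CLD`)
classification. Proof. `B = n!`, `c = Nat.card (SLn n (ZMod n!))`. EDat from CLE; CLV: if all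
`E i j = 1` use CLK. Otherwise NF for `y j = E (j+1) j` in `(Mn n F)ˣ` (images of the groups of CLP
under `SpecialLinearGroup.toGL`), then CLN. In the first case CLR and CLD. In the second case let
`g' y = ((g y)⁻¹)ᵀ` (a homomorphism), `E' i j = ((E i j)⁻¹)ᵀ`: `EDat` holds for `g'`, `E'`, and
`E' (k+1) k = u' * (1 + single (k+1) k (- d k)) * u'⁻¹` with `u' = (u⁻¹)ᵀ`, so CLR and CLD give
`g' y = v * rd y * v⁻¹`, so `g y = (v⁻¹)ᵀ * (rd y⁻¹)ᵀ * vᵀ`. -/
def S_CL : Prop := ∀ n : ℕ, 3 ≤ n → ∃ B c : ℕ, ∀ ℓ : ℕ, ℓ.Prime → B < ℓ →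
  ∀ (F : Type) [Field F] [Finite F] [CharP F ℓ] (g : SLn n ℤ →* SLn n F),
  Nat.card g.range ≤ c ∨
  (∃ u : (Mn n F)ˣ, ∀ y, (g y : Mn n F) =
    (u : Mn n F) * (rd n F y : Mn n F) * ((u⁻¹ : (Mn n F)ˣ) : Mn n F)) ∨
  (∃ u : (Mn n F)ˣ, ∀ y, (g y : Mn n F) =
    (u : Mn n F) * ((rd n F y⁻¹ : SLn n F) : Mn n F)ᵀ * ((u⁻¹ : (Mn n F)ˣ) : Mn n F))

/-! ## Part S: specialisation -/

/-- (SPA, 150 lines) finitely generated domains of characteristic zero have points over finite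
fields of every large characteristic.
Proof. `A = Subring.closure S`, finitely generated. `A ⊗ ℚ` (localisation of `A` at the nonzero
integers; or the `ℚ`-subalgebra `Algebra.adjoin ℚ S` of `K`) is a nonzero finite type
`ℚ`-algebra; a maximal ideal gives a number field `L` (`finite_of_finite_type_of_isJacobsonRing`)
and a ring homomorphism `A → L`, so `S` maps to algebraic numbers `t s`. There is `N ≥ 1` with
`N * t s` integral over `ℤ` for all `s ∈ S` (`IsIntegral.exists_multiple_integral_of_isLocalization`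
or `exists_integral_multiple`). Let `O = integralClosure ℤ L`, `ℓ > N` prime: there is a maximal
ideal `Q` of `O` over `(ℓ)` (`Ideal.exists_ideal_over_maximal_of_isIntegral`; `ℓ` is not a unit of
`O`); `F = O ⧸ Q` has characteristic `ℓ`; the localisation `O[1/N] ⊂ L` contains the `t s` and maps
to `F`. `F` is algebraic over `ZMod ℓ`; replace it by the subfield generated by the images of `S`
(finite, or use `Pool.Agent.T2h61.PR.CA.finite_of_ft` for the image of `A` in `F`, which is a finite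
ring, a finite domain is a field). -/
def S_SPA : Prop := ∀ (K : Type) [Field K] [CharZero K] (S : Finset K), ∃ B : ℕ,
  ∀ ℓ : ℕ, ℓ.Prime → B < ℓ → ∃ (F : Type) (_ : Field F) (_ : Finite F) (_ : CharP F ℓ),
    Nonempty (Subring.closure (S : Set K) →+* F)

/-- (RED, 180 lines; takes `S_SPA`) reduction of representations.
Proof. `S` = the entries of all `ρ i s`, `s` in a finite generating set of `Λ`, the `z`, `z⁻¹` for
`z ∈ Z`, and for every `i` with infinite range: choose `c + 1` elements with different `ρ i`, for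
every pair of them a nonzero entry of the difference and its inverse. `A = Subring.closure S`;
`ρ'` by `lift_sl` of T_TOP.lean. Elements of `S` whose inverse is in `S` have nonzero image. -/
def S_RED : Prop := ∀ (n : ℕ) (Λ : Type) [Group Λ], Group.FG Λ → ∀ (K : Type) [Field K] [CharZero K]
  (ι : Type) [Finite ι] (ρ : ι → Λ →* SLn n K) (Z : Finset K) (c : ℕ), (∀ z ∈ Z, z ≠ 0) →
  ∃ B : ℕ, ∀ ℓ : ℕ, ℓ.Prime → B < ℓ → ∃ (F : Type) (_ : Field F) (_ : Finite F) (_ : CharP F ℓ)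
    (A : Subring K) (ψ : A →+* F) (ρ' : ι → Λ →* SLn n A),
    (∀ i l, Matrix.SpecialLinearGroup.map A.subtype (ρ' i l) = ρ i l) ∧
    (∀ z ∈ Z, ∃ a : A, (a : K) = z ∧ ψ a ≠ 0) ∧
    (∀ i, (Set.range (ρ i)).Infinite →
      c < Nat.card ((Matrix.SpecialLinearGroup.map ψ).comp (ρ' i)).range)

/-- (CT, 180 lines; takes `S_RED`, `S_CL`) comparison of traces.
Proof. Suppose `z₁ = tr (ρ₁ l) - tr (ρ₂ l)` and `z₂ = tr (ρ₁ l) - tr (ρ₂ l⁻¹)` are `≠ 0`. RED for
`ι = Bool`, `Z = {z₁, z₂}` and `c` of CL, `ℓ` large: `σ i = (map ψ).comp (ρ' i) : Λ →* SLn n F`. The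
range `Q` of `(σ₁, σ₂) : Λ →* SLn n F × SLn n F` is a finite quotient of `Λ`, so there is a
surjection `SLn n ℤ → Q`; its components `g₁, g₂` have the ranges of `σ₁, σ₂`, which have more than
`c` elements; by CL `g i y` is conjugate to `rd y` or to `(rd y⁻¹)ᵀ`. Take `y` over `(σ₁ l, σ₂ l)`:
`tr (σ₁ l), tr (σ₂ l) ∈ {tr (rd y), tr (rd y⁻¹)}` and `tr (σ₂ l⁻¹)` is the other one of the two. So
`tr (σ₁ l)` is `tr (σ₂ l)` or `tr (σ₂ l⁻¹)`, contradiction to `ψ z₁ ≠ 0`, `ψ z₂ ≠ 0`. -/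
def S_CT : Prop := ∀ n : ℕ, 3 ≤ n → ∀ (Λ : Type) [Group Λ], Group.FG Λ → SameFQ Λ (SLn n ℤ) →
  ∀ (K : Type) [Field K] [CharZero K] (ρ₁ ρ₂ : Λ →* SLn n K), (Set.range ρ₁).Infinite →
  (Set.range ρ₂).Infinite → ∀ l : Λ, (ρ₁ l : Mn n K).trace = (ρ₂ l : Mn n K).trace ∨
    (ρ₁ l : Mn n K).trace = (ρ₂ l⁻¹ : Mn n K).trace

/-- (EL, 180 lines; takes `S_RED`, `S_CL`) surjections that do not kill a given element.
Proof. RED with `ι = Unit`, `Z = {z}`, `z` a nonzero entry of `ρ γ - 1`, `c` of CL. As in CT the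
range of `σ = (map ψ).comp ρ'` is the range of a homomorphism `g : SLn n ℤ →* SLn n F` which is
`y ↦ u * rd y * u⁻¹` or `y ↦ u * (rd y⁻¹)ᵀ * u⁻¹`; so `u⁻¹ * σ l * u` has entries in the image of
`ZMod ℓ → F` for all `l` and every element of `SLn n (ZMod ℓ)` occurs
(`Pool.Agent.T2h77.N.surj n ℓ`). This defines `f : Λ →* SLn n (ZMod ℓ)` (use `lift_sl` of T_TOP.lean
with `ι = ZMod.castHom (dvd_refl ℓ) F`, injective). -/
def S_EL : Prop := ∀ n : ℕ, 3 ≤ n → ∀ (Λ : Type) [Group Λ], Group.FG Λ → SameFQ Λ (SLn n ℤ) →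
  ∀ (K : Type) [Field K] [CharZero K] (ρ : Λ →* SLn n K), (Set.range ρ).Infinite →
  ∀ γ : Λ, ρ γ ≠ 1 → ∃ B : ℕ, ∀ ℓ : ℕ, ℓ.Prime → B < ℓ →
    ∃ f : Λ →* SLn n (ZMod ℓ), Function.Surjective f ∧ f γ ≠ 1

/-! ## Part P: the `p`-adic representations separate points -/

/-- a compatible system of surjections onto the `SL (n, ℤ / M)` -/
def Sys {n : ℕ} {Λ : Type} [Group Λ] (θ : ∀ M : ℕ, Λ →* SLn n (ZMod M)) : Prop :=
  (∀ M, 0 < M → Function.Surjective (θ M)) ∧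
  ∀ M M' (h : M ∣ M'), 0 < M' →
    (Matrix.SpecialLinearGroup.map (n := Fin n) (ZMod.castHom h (ZMod M))).comp (θ M') = θ M

/-- (IN1, 120 lines) a compatible system exists.
Proof. `f k : Λ →* SLn n (ZMod k!)` onto (`SameFQ` and `Pool.Agent.T2h77.N.surj`). For `M > 0` the
set `Λ →* SLn n (ZMod M)` is finite (`Pool.Agent.Helper460_PR.finite_hom`), so for the ultrafilter
`hyperfilter ℕ` there is `θ M` with `∀ᶠ k, ∃ h : M ∣ k!, (red).comp (f k) = θ M`. One such `k`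
gives surjectivity, a common `k` for `M` and `M'` compatibility. -/
def S_IN1 : Prop := ∀ n : ℕ, 2 ≤ n → ∀ (Λ : Type) [Group Λ], Group.FG Λ → SameFQ Λ (SLn n ℤ) →
  ∃ θ : ∀ M : ℕ, Λ →* SLn n (ZMod M), Sys θ

/-- (IN2, 120 lines) the common kernel is trivial.
Proof. `N` = the intersection of the kernels of the `θ M`, `M > 0` (normal). `Λ → Λ ⧸ N` is
injective by `Pool.Agent.Helper460_PR.hopf`: if `Q` is a finite quotient of `Λ`, then of `SLn n ℤ`;
a surjection `h : SLn n ℤ → Q` kills `tr i j M` for `M = Nat.card Q`, so it kills `Γ(M)`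
(`FF.ker_of`), so it factors through `rd n (ZMod M)`, which is onto; composing with `θ M` gives a
surjection `Λ → Q` trivial on `N`. -/
def S_IN2 : Prop := ∀ n : ℕ, 3 ≤ n → ∀ (Λ : Type) [Group Λ], Group.FG Λ → RF Λ →
  SameFQ Λ (SLn n ℤ) → ∀ θ : ∀ M : ℕ, Λ →* SLn n (ZMod M), Sys θ →
  ∀ γ : Λ, (∀ M, 0 < M → θ M γ = 1) → γ = 1

/-- (IN3, 100 lines) `q`-adic limits. Proof. `PadicInt` is the limit of the `ZMod (q ^ s)`: apply
`Pad.rho` of T_PAD.lean to `f s = θ (q ^ s)`; by `Pad.ev_mat` and compatibility the reduction of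
`Pad.rho f l` modulo `q ^ s` is `θ (q ^ s) l`. -/
def S_IN3 : Prop := ∀ (n : ℕ) (Λ : Type) [Group Λ] (θ : ∀ M : ℕ, Λ →* SLn n (ZMod M)), Sys θ →
  ∀ (q : ℕ) [Fact q.Prime], ∃ ρ : Λ →* SLn n ℤ_[q], ∀ s : ℕ,
    (Matrix.SpecialLinearGroup.map (n := Fin n) (PadicInt.toZModPow (p := q) s)).comp ρ = θ (q ^ s)

/-- (INJ, 80 lines; takes `S_IN1`, `S_IN2`, `S_IN3`) the `Dn` representations separate points.
Proof. Let `γ ≠ 1`: by IN2 some `θ M γ ≠ 1`, `M > 0`. A matrix entry `a : ZMod M` of `θ M γ - 1` is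
`≠ 0`, so some prime power `q ^ s ∣ M` does not divide `a.val`, so `θ (q ^ s) γ ≠ 1` by
compatibility; take `ρ` from IN3 for `q`. -/
def S_INJ : Prop := ∀ n : ℕ, 3 ≤ n → ∀ (Λ : Type) [Group Λ], Group.FG Λ → RF Λ →
  SameFQ Λ (SLn n ℤ) → ∀ γ : Λ, γ ≠ 1 →
  ∃ (q : ℕ) (_ : Fact q.Prime) (ρ : Λ →* SLn n ℤ_[q]), Dn ρ ∧ ρ γ ≠ 1

/-- (PERF, 100 lines) `Λ` is perfect. Proof. Otherwise `Abelianization Λ` is a nontrivial finitely
generated commutative group; it has a maximal proper subgroup (`ℤ`-submodule of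
`Additive (Abelianization Λ)`, finitely generated, so `IsCoatomic`), the quotient is a simple
`ℤ`-module, so finite (`isSimpleModule_iff_quot_maximal`), nontrivial and commutative. By `SameFQ`
it is a quotient of `SLn n ℤ`, which is generated by commutators (as in CLD), contradiction. -/
def S_PERF : Prop := ∀ n : ℕ, 3 ≤ n → ∀ (Λ : Type) [Group Λ], Group.FG Λ →
  SameFQ Λ (SLn n ℤ) → commutator Λ = ⊤

/-! ## Part R: a representation over a ring -/

/-- cyclic form over a commutative ring -/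
def CF {n : ℕ} [NeZero n] {Λ : Type} [Group Λ] {R : Type} [CommRing R] (x : Fin n → Λ) (τ : R)
    (ρ : Λ →* SLn n R) : Prop :=
  ∃ (π : Equiv.Perm (Fin n)) (ζ : Fin n → R), ∀ k, (ρ (x (π k)) : Mn n R) = ζ k • cy k (wt τ k)

/-- (R1, 180 lines; takes `S_NFS`) the product of the residue fields.
Proof. `Equiv.Perm (Fin n)` is finite, so one `π` occurs for arbitrarily large `ℓ`. Choose `ℓ B > B`,
`f B` for every `B : ℕ` with this `π`. By NFS (target weights `wt τ`, `τ = ∏ k, d k`) there is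
`g' B` with `f B (x (π k)) = ζ k • (g' B * cy k (wt (τ B) k) * (g' B)⁻¹)`. `R = ∀ B, ZMod (ℓ B)`
(characteristic zero as `ℓ B > B`), `ρ l` has the components `(g' B)⁻¹ * f B l * g' B`. -/
def S_R1 : Prop := ∀ (n : ℕ) [NeZero n], 3 ≤ n → ∀ (Λ : Type) [Group Λ] (x : Fin n → Λ),
  (∀ B : ℕ, ∃ (ℓ : ℕ) (_ : Fact ℓ.Prime) (f : Λ →* SLn n (ZMod ℓ)), B < ℓ ∧ NForm x f) →
  ∃ (R : Type) (_ : CommRing R) (_ : CharZero R) (τ : R) (ρ : Λ →* SLn n R), CF x τ ρ

/-- (R2, 150 lines) all entries are in the ring generated by `τ`.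
Proof. `A = Subring.closure {τ}`. Let `H` be the subgroup of the `M : SLn n R` with entries in `A`
(the range of `SpecialLinearGroup.map A.subtype`) and `Z` the subgroup of the scalar matrices.
`ρ (x (π k)) = ζ k • cy k (wt τ k)` is in `Z ⊔ H` (`ζ k ^ n = 1` by the determinant, so
`ζ k • 1 : SLn n R`; `det (cy k c) = 1`). `Z` is central, so `M ∈ Z ⊔ H` means `M = z * h`, and
commutators of such elements are in `H`. So `ρ` maps `commutator Λ = ⊤` to `H`; use `lift_sl` of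
T_TOP.lean. `ζ k` is a diagonal entry of `ρ (x (π k))`, so in `A` (`k + 1 ≠ k`). -/
def S_R2 : Prop := ∀ (n : ℕ) [NeZero n], 3 ≤ n → ∀ (Λ : Type) [Group Λ] (x : Fin n → Λ),
  Subgroup.closure (Set.range x) = ⊤ → commutator Λ = ⊤ →
  ∀ (R : Type) [CommRing R] [CharZero R] (τ : R) (ρ : Λ →* SLn n R), CF x τ ρ →
  ∃ (A : Type) (_ : CommRing A) (_ : CharZero A) (τ' : A) (ρ' : Λ →* SLn n A),
    Subring.closure {τ'} = ⊤ ∧ CF x τ' ρ'

/-- (R3, 180 lines) `τ` is a unit.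
Proof. Reduce modulo the ideal `(τ)`: `Q = R ⧸ span {τ}`, `σ : Λ →* SLn n Q`;
`σ (x (π k)) = ζ k • cy k 1` for `k + 1 ≠ 0` and `ζ k • 1` for the last `k`, so all `σ l` are lower
triangular (`M i j = 0` for `i < j`; the lower triangular elements of `SLn n Q` form a subgroup, for
inverses use `Matrix.BlockTriangular` or that `σ l` is a product of the `σ (x j)` and their inverses,
`(ζ • cy k 1)⁻¹ = ζ^(n-1) • cy k (-1)`). The diagonal entries are multiplicative, so they are `1` on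
`commutator Λ = ⊤`; inductively for `s ≥ 1`, if all `σ l` satisfy `M i j = δ i j` unless
`i ≥ j + s` (values), then the entries at `i = j + s` are additive, so they are `0` for all `l`. So
`σ = 1`. Then `1 = ζ 0 • cy 0 1` gives `ζ 0 = 1` (entry `(0,0)`) and `ζ 0 = 0` (entry `(1,0)`), so
`Q` is trivial, so `τ` is a unit. -/
def S_R3 : Prop := ∀ (n : ℕ) [NeZero n], 3 ≤ n → ∀ (Λ : Type) [Group Λ] (x : Fin n → Λ),
  Subgroup.closure (Set.range x) = ⊤ → commutator Λ = ⊤ →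
  ∀ (R : Type) [CommRing R] (τ : R) (ρ : Λ →* SLn n R), CF x τ ρ → IsUnit τ

/-- (R4, 250 lines) all elementary matrices are in the range.
Proof. Let `J i j = {a | ∃ l, ρ l = tr i j a}` and
`J' i j = {a | ∃ l z, (ρ l : Mn n A) = z • transvection i j a}` (`i ≠ j`); here `z ^ n = 1` by the
determinant. (1) `J' i j` is closed under addition, negation
(`(z • transvection i j a)⁻¹ = z^(n-1) • transvection i j (-a)`), contains `0`. (2) for distinct
`i j k`, `a ∈ J' i j`, `b ∈ J' j k`: `a * b ∈ J i k` (the commutator; the scalars cancel).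
(3) `w i j := if i < j then τ else 1` is in `J' i j`: induction on `s = 1, …, n-1` for
`i = j + s` (cyclic): the case `s = 1` is the hypothesis (`i = k + 1`, `j = k`: `i < j` iff
`k + 1 = 0`), and `w (j+s+1) j = w (j+s+1) (j+s) * w (j+s) j` (at most one factor is `τ`, namely if
the cyclic path from `j` to `j+s+1` passes from `n-1` to `0`). (4) `w i j * w j i = τ`. (5) for
`a ∈ J' i j` and `k` different from `i, j`: `a * w j k ∈ J i k`, `a * w j k * w k j = a * τ ∈ J i j`.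
(6) `{p | ∀ b ∈ J' i j, b * p ∈ J' i j}` is a subring containing `τ`, so it is everything:
`J' i j` is an ideal containing the unit `w i j`. So `J' i j` is everything, and `J i j ⊇ τ J' i j`
is everything, as `τ` is a unit. -/
def S_R4 : Prop := ∀ (n : ℕ) [NeZero n], 3 ≤ n → ∀ (Λ : Type) [Group Λ] (x : Fin n → Λ)
  (A : Type) [CommRing A] (τ : A) (ρ : Λ →* SLn n A), Subring.closure {τ} = ⊤ → IsUnit τ →
  CF x τ ρ → ∀ (i j : Fin n) (h : i ≠ j) (a : A), ∃ l, ρ l = tr i j h a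

/-- (RAT, 120 lines; takes `S_FF`, `S_CA`) rationality.
Proof. `S_CA` with `B` from `S_FF`, as in the lemma `key` of T_TOP.lean: for `ψ₁ ψ₂ : A →+* F`,
`F` a finite field of characteristic `> B`, let `S` be the range of `(ψ₁, ψ₂) : A →+* F × F` (finite,
of the same characteristic) and `Ψ : Λ →* SLn n S`; its range contains all elementary matrices and is
a quotient of `SLn n ℤ` by `SameFQ`, so `S_FF` gives that all elements of `S` are natural numbers,
`ψ₁ = ψ₂`. -/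
def S_RAT : Prop := ∀ n : ℕ, 3 ≤ n → ∀ (Λ : Type) [Group Λ], SameFQ Λ (SLn n ℤ) →
  ∀ (A : Type) [CommRing A], Algebra.FiniteType ℤ A → ∀ ρ : Λ →* SLn n A,
  (∀ (i j : Fin n) (h : i ≠ j) (a : A), ∃ l, ρ l = tr i j h a) →
  ∀ (K : Type) [Field K] [CharZero K] (φ : A →+* K) (a : A), ∃ t : ℚ, φ a = t

/-- (INTG, 200 lines; takes `S_CT`, `S_RAT`, `S_PAD`, `S_INF`) integrality.
Proof. `A` has characteristic zero, so there is a prime ideal `P` not meeting the nonzero integers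
(`Ideal.exists_le_prime_disjoint`), `K = FractionRing (A ⧸ P)` has characteristic zero; by RAT
`A → K` has values in `ℚ`, so there is `ψ : A →+* ℚ`. Let `p` be a prime dividing the denominator of
`t = ψ a`. `ρ₁ : Λ →* SLn n ℚ_[p]` from `ψ` (its range contains the `tr i j k`, `k : ℤ`, so it is
infinite), `ρ₂` the `p`-adic representation of `S_PAD` (infinite range by `S_INF`, `toU` is
injective: `Inf.toU_inj`). Let `ρ l = tr i j a * tr j i a`: the trace of `ρ₁ l` is `n + t^2`; by CT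
it is a trace of `ρ₂`, in `ℤ_[p]`. So `‖t‖ ≤ 1` in `ℚ_[p]`, contradiction
(`PadicInt.isUnit_den`, as in T_TOP.lean). So `ψ` has values in `ℤ`. -/
def S_INTG : Prop := ∀ n : ℕ, 3 ≤ n → ∀ (Λ : Type) [Group Λ], Group.FG Λ → SameFQ Λ (SLn n ℤ) →
  ∀ (A : Type) [CommRing A] [CharZero A], Algebra.FiniteType ℤ A → ∀ ρ : Λ →* SLn n A,
  (∀ (i j : Fin n) (h : i ≠ j) (a : A), ∃ l, ρ l = tr i j h a) → Nonempty (A →+* ℤ)

/-- (INFT, 80 lines; takes `S_TYP`, `S_PROG`, `S_EL`, `S_INJ`, `S_INF`) infinitely many primes. -/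
def S_INFT : Prop := ∀ (n : ℕ) [NeZero n], 3 ≤ n → ∀ (Λ : Type) [Group Λ] (x : Fin n → Λ),
  RF Λ → SameFQ Λ (SLn n ℤ) → Subgroup.closure (Set.range x) = ⊤ → NilFam x →
  (∃ i, ¬ IsOfFinOrder (x i)) →
  ∀ B : ℕ, ∃ (ℓ : ℕ) (_ : Fact ℓ.Prime) (f : Λ →* SLn n (ZMod ℓ)), B < ℓ ∧ NForm x f

/-- (MAIN) the theorem for `n` generators. -/
def S_MAIN : Prop := ∀ n : ℕ, 3 ≤ n → ∀ (Λ : Type) [Group Λ] (x : Fin n → Λ),
  RF Λ → SameFQ Λ (SLn n ℤ) → Subgroup.closure (Set.range x) = ⊤ → NilFam x →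
  (∃ i, ¬ IsOfFinOrder (x i)) → Nonempty (Λ ≃* SLn n ℤ)

/-- (RNK) there are no such systems of more than `n` generators. -/
def S_RNK : Prop := ∀ n m : ℕ, 3 ≤ n → n < m → ∀ (Λ : Type) [Group Λ] (x : Fin m → Λ),
  RF Λ → SameFQ Λ (SLn n ℤ) → Subgroup.closure (Set.range x) = ⊤ → NilFam x →
  ∀ i, IsOfFinOrder (x i)

end Pool.Agent.T2h96.SN
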