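import Pool.Agent.T2h96.SN.TYlem

/-! Project SN, task TYB. -/

set_option autoImplicit false

namespace Pool.Agent.T2h96.SN

open Matrix Pool.Agent.T2h61.PR

theorem t_TYB (hNIL : S_NIL) : S_TYB := by
  intro n r ℓ _ F _ _ _ hn hr y a b hy hcl ha hb hyab ha' hb'
  have hcomm := TY.comm hNIL hr y a b hy ha hb ha' hb'
  by_cases hfix : ∀ v : Fin n → F, (∀ j, (a j : Mn n F) *ᵥ v = v) → v = 0
  · exact Or.inl hfix
  right
  push Not at hfix
  obtain ⟨v, hv, hv0⟩ := hfix
  have hmul : ∀ (A B : SLn n F) (w : Fin n → F), ((A * B : SLn n F) : Mn n F) *ᵥ w =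
      (A : Mn n F) *ᵥ ((B : Mn n F) *ᵥ w) := by
    intro A B w
    rw [Matrix.SpecialLinearGroup.coe_mul, Matrix.mulVec_mulVec]
  -- the whole group preserves the space of the fixed vectors
  have hst : ∀ h : SLn n F, ∀ w : Fin n → F, (∀ j, (a j : Mn n F) *ᵥ w = w) →
      ∀ j, (a j : Mn n F) *ᵥ ((h : Mn n F) *ᵥ w) = (h : Mn n F) *ᵥ w := by
    intro h
    have hh : h ∈ Subgroup.closure (Set.range y) := by rw [hcl]; trivial
    induction hh using Subgroup.closure_induction with
    | mem x hx =>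
      obtain ⟨k, rfl⟩ := hx
      intro w hw j
      have h1 : ∀ j, (a j : Mn n F) *ᵥ ((b k : Mn n F) *ᵥ w) = (b k : Mn n F) *ᵥ w := by
        intro j
        rw [← hmul, hcomm j k, hmul, hw j]
      have h2 : (y k : Mn n F) *ᵥ w = (b k : Mn n F) *ᵥ w := by
        rw [hyab k, hmul, h1 k]
      rw [h2]
      exact h1 j
    | one =>
      intro w hw j
      rw [Matrix.SpecialLinearGroup.coe_one, Matrix.one_mulVec]
      exact hw j
    | mul x z _ _ hx hz =>
      intro w hw j
      rw [hmul]
      exact hx _ (hz w hw) j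
    | inv x _ hx =>
      have hfin : IsOfFinOrder x := isOfFinOrder_of_finite x
      have hmem : x⁻¹ ∈ Submonoid.powers x :=
        (hfin.mem_powers_iff_mem_zpowers).2 ((Subgroup.zpowers x).inv_mem
          (Subgroup.mem_zpowers x))
      obtain ⟨m, hm⟩ := hmem
      simp only at hm
      rw [← hm]
      clear hm
      induction m with
      | zero =>
        intro w hw j
        rw [pow_zero, Matrix.SpecialLinearGroup.coe_one, Matrix.one_mulVec]
        exact hw j
      | succ m ih =>
        intro w hw j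
        rw [pow_succ, hmul]
        exact ih _ (hx w hw) j
  -- subspace properties
  have hadd : ∀ w w' : Fin n → F, (∀ j, (a j : Mn n F) *ᵥ w = w) →
      (∀ j, (a j : Mn n F) *ᵥ w' = w') → ∀ j, (a j : Mn n F) *ᵥ (w - w') = w - w' := by
    intro w w' h1 h2 j
    rw [Matrix.mulVec_sub, h1, h2]
  have hsm : ∀ (c : F) (w : Fin n → F), (∀ j, (a j : Mn n F) *ᵥ w = w) →
      ∀ j, (a j : Mn n F) *ᵥ (c • w) = c • w := by
    intro c w h1 j
    rw [Matrix.mulVec_smul, h1]
  have htr : ∀ (i k : Fin n) (h : k ≠ i) (w : Fin n → F),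
      (tr (A := F) k i h 1 : Mn n F) *ᵥ w - w = w i • Pi.single k 1 := by
    intro i k h w
    show Matrix.transvection k i (1 : F) *ᵥ w - w = w i • Pi.single k 1
    unfold Matrix.transvection
    rw [Matrix.add_mulVec, Matrix.one_mulVec, add_sub_cancel_left]
    funext t
    rw [Matrix.mulVec, dotProduct, Pi.smul_apply, smul_eq_mul]
    by_cases ht : t = k
    · subst ht
      rw [Pi.single_eq_same, mul_one, Finset.sum_eq_single i]
      · rw [Matrix.single_apply_same, one_mul]
      · intro s _ hs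
        rw [Matrix.single_apply_of_ne _ _ _ _ _ (fun h' => hs h'.2.symm), zero_mul]
      · intro h'
        exact absurd (Finset.mem_univ _) h'
    · rw [Pi.single_eq_of_ne ht, mul_zero]
      refine Finset.sum_eq_zero fun s _ => ?_
      rw [Matrix.single_apply_of_ne _ _ _ _ _ (fun h' => ht h'.1.symm), zero_mul]
  obtain ⟨i, hi⟩ : ∃ i, v i ≠ 0 := by
    by_contra h
    push Not at h
    exact hv0 (funext h)
  have he : ∀ k, k ≠ i → ∀ j, (a j : Mn n F) *ᵥ (Pi.single k 1 : Fin n → F) = Pi.single k 1 := by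
    intro k hk
    have h1 := hsm (v i)⁻¹ _ (hadd _ _ (hst (tr k i hk 1) v hv) hv)
    rw [htr, smul_smul, inv_mul_cancel₀ hi, one_smul] at h1
    exact h1
  have he' : ∀ k, ∀ j, (a j : Mn n F) *ᵥ (Pi.single k 1 : Fin n → F) = Pi.single k 1 := by
    intro k
    by_cases hk : k = i
    · subst hk
      obtain ⟨l, hl, -⟩ := TY.third hn k k
      have h1 := hadd _ _ (hst (tr k l hl.symm 1) _ (he l hl)) (he l hl)
      rw [htr, Pi.single_eq_same, one_smul] at h1
      exact h1
    · exact he k hk
  intro j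
  apply Subtype.ext
  apply Matrix.ext_of_mulVec_single
  intro k
  rw [Matrix.SpecialLinearGroup.coe_one, Matrix.one_mulVec]
  exact he' k j

end Pool.Agent.T2h96.SN
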