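import Pool.Agent.T2h96.SN.TYlem

/-! Project SN, task TYP. -/

set_option autoImplicit false

namespace Pool.Agent.T2h96.SN

open Matrix Pool.Agent.T2h61.PR

theorem t_TYP (hJOR : S_JOR) (hTYA : S_TYA) (hTYB : S_TYB) (hTYC : S_TYC) : S_TYP := by
  intro n ℓ _ _ hn Λ _ x hx hnil f hf
  set y : Fin n → SLn n (ZMod ℓ) := fun j => f (x j) with hy
  have hcl : Subgroup.closure (Set.range y) = ⊤ := by
    have h1 : Set.range y = f '' Set.range x := by
      rw [← Set.range_comp]
      rfl
    rw [h1, ← MonoidHom.map_closure, hx, ← MonoidHom.range_eq_map, MonoidHom.range_eq_top]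
    exact hf
  have hynil : NilFam y := by
    intro i
    have h1 : y '' {i}ᶜ = f '' (x '' {i}ᶜ) := by
      rw [Set.image_image]
    rw [h1, ← MonoidHom.map_closure]
    have := hnil i
    exact Group.nilpotent_of_surjective (f.subgroupMap (Subgroup.closure (x '' {i}ᶜ)))
      (f.subgroupMap_surjective _)
  have hj := fun j => hJOR ℓ (SLn n (ZMod ℓ)) (y j)
  choose a ha b hb hab ha' hb' using hj
  rcases hTYB n n ℓ (ZMod ℓ) hn hn y a b hynil hcl ha hb hab ha' hb' with h | h
  · left
    obtain ⟨π, g, d, ζ, hd, h2⟩ := hTYA n ℓ (ZMod ℓ) hn y a b hynil ha hb hab ha' hb' h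
    exact ⟨π, g, d, ζ, hd, h2⟩
  · right
    refine hTYC n n ℓ (ZMod ℓ) hn hn y hynil hcl fun j => ?_
    have : y j = b j := by rw [hab j, h j, one_mul]
    rw [this]
    exact hb' j

end Pool.Agent.T2h96.SN
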