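import Pool.Agent.T2h96.SN.Stm

set_option autoImplicit false

/-!
# Project SN, task CLV
-/

namespace Pool.Agent.T2h96.SN

open Matrix Pool.Agent.T2h61.PR

namespace CLV

/-- the action on the column vectors -/
def act (n : ℕ) (F : Type) [Field F] : SLn n F →* Module.End F (Fin n → F) where
  toFun g := (g : Mn n F).mulVecLin
  map_one' := by
    ext x
    simp
  map_mul' a b := by
    ext x
    simp

variable {n : ℕ} {F : Type} [Field F]

theorem act_apply (g : SLn n F) (v : Fin n → F) : act n F g v = (g : Mn n F) *ᵥ v := rfl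

/-- the group fixing a subspace pointwise -/
def fix (U : Submodule F (Fin n → F)) : Subgroup (SLn n F) where
  carrier := {g | ∀ u ∈ U, act n F g u = u}
  one_mem' := by
    intro u _
    rw [map_one]
    rfl
  mul_mem' := by
    intro a b ha hb u hu
    rw [map_mul, Module.End.mul_apply, hb u hu, ha u hu]
  inv_mem' := by
    intro a ha u hu
    have h1 : act n F a⁻¹ (act n F a u) = u := by
      rw [← Module.End.mul_apply, ← map_mul, inv_mul_cancel, map_one]
      rfl
    rwa [ha u hu] at h1

/-- the group fixing a subspace pointwise and a vector modulo it -/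
def fix2 (U : Submodule F (Fin n → F)) (v : Fin n → F) : Subgroup (SLn n F) where
  carrier := {g | g ∈ fix U ∧ act n F g v - v ∈ U}
  one_mem' := by
    refine ⟨one_mem _, ?_⟩
    rw [map_one]
    simp
  mul_mem' := by
    rintro a b ⟨ha, ha'⟩ ⟨hb, hb'⟩
    refine ⟨mul_mem ha hb, ?_⟩
    rw [map_mul, Module.End.mul_apply]
    have h1 : act n F a (act n F b v) - v = act n F a (act n F b v - v) + (act n F a v - v) := by
      rw [map_sub]
      abel
    rw [h1, ha _ hb']
    exact U.add_mem hb' ha'
  inv_mem' := by
    rintro a ⟨ha, ha'⟩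
    refine ⟨inv_mem ha, ?_⟩
    have h1 : act n F a⁻¹ (act n F a v) = v := by
      rw [← Module.End.mul_apply, ← map_mul, inv_mul_cancel, map_one]
      rfl
    have h2 : act n F a⁻¹ v - v = - (act n F a⁻¹ (act n F a v - v)) := by
      rw [map_sub, h1]
      abel
    rw [h2, (inv_mem ha : a⁻¹ ∈ fix U) _ ha']
    exact U.neg_mem ha'

end CLV

theorem t_CLV : S_DIM → S_CLP → S_CLG → S_CLV := by
  intro hDIM hCLP hCLG n ℓ _ hn hℓ hnℓ F _ _ _ g m E hE
  have : Fact ℓ.Prime := ⟨hℓ⟩
  -- the fixed space
  set U : Submodule F (Fin n → F) :=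
    { carrier := {v | ∀ j, (E (j + 1) j : Mn n F) *ᵥ v = v}
      zero_mem' := fun j => Matrix.mulVec_zero _
      add_mem' := fun {a b} ha hb j => by rw [Matrix.mulVec_add, ha j, hb j]
      smul_mem' := fun c a ha j => by rw [Matrix.mulVec_smul, ha j] } with hU
  have hgen := hCLG n hn (SLn n F) E hE.comm
  have hfix : ∀ i j, i ≠ j → E i j ∈ CLV.fix U := by
    intro i j hij
    have h1 : Subgroup.closure (Set.range fun k : Fin n => E (k + 1) k) ≤ CLV.fix U := by
      rw [Subgroup.closure_le]
      rintro _ ⟨k, rfl⟩ u hu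
      exact hu k
    exact h1 (hgen i j hij)
  have h3 : ∀ i k : Fin n, ∃ j, j ≠ i ∧ j ≠ k := by
    intro i k
    have h1 : ({i, k} : Finset (Fin n)).card < Fintype.card (Fin n) := by
      rw [Fintype.card_fin]
      exact lt_of_le_of_lt Finset.card_le_two (by omega)
    obtain ⟨j, hj⟩ := Finset.exists_mem_notMem_of_card_lt_card (s := {i, k}) (t := Finset.univ) (by simpa using h1)
    refine ⟨j, ?_, ?_⟩
    · rintro rfl
      exact hj.2 (by simp)
    · rintro rfl
      exact hj.2 (by simp)
  by_cases hUt : U = ⊤
  · right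
    intro i j hij
    have h1 : ∀ v, (E i j : Mn n F) *ᵥ v = v := fun v => hfix i j hij v (by rw [hUt]; trivial)
    apply Subtype.ext
    apply Matrix.ext_of_mulVec_single
    intro k
    rw [h1]
    ext l
    simp [Matrix.one_apply, Pi.single_apply]
  · left
    have hmod : ∀ v, (∀ j, CLV.act n F (E (j + 1) j) v - v ∈ U) → v ∈ U := by
      intro v hv
      have h4 : ∀ i j, i ≠ j → E i j ∈ CLV.fix2 U v := by
        intro i j hij
        have h1 : Subgroup.closure (Set.range fun k : Fin n => E (k + 1) k) ≤ CLV.fix2 U v := by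
          rw [Subgroup.closure_le]
          rintro _ ⟨k, rfl⟩
          exact ⟨fun u hu => hu k, hv k⟩
        exact h1 (hgen i j hij)
      have h5 : ∀ i k, i ≠ k → CLV.act n F (E i k) v = v := by
        intro i k hik
        obtain ⟨j, hji, hjk⟩ := h3 i k
        have h6 := hE.comm i j k (Ne.symm hji) hjk hik
        have h7 := congrArg (fun h => CLV.act n F h v) h6
        simp only [map_mul, Module.End.mul_apply] at h7
        have ha := (h4 i j (Ne.symm hji)).2
        have hb := (h4 j k hjk).2
        set a := CLV.act n F (E i j) v - v with hadef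
        set b := CLV.act n F (E j k) v - v with hbdef
        have e1 : CLV.act n F (E i j) v = v + a := by rw [hadef]; abel
        have e2 : CLV.act n F (E j k) v = v + b := by rw [hbdef]; abel
        rw [e2, map_add, e1, hfix i j (Ne.symm hji) b hb, map_add, e2, hfix j k hjk a ha, map_add, map_add,
          hfix i k hik a ha, hfix i k hik b hb] at h7
        have h8 : v + a + b = CLV.act n F (E i k) v + a + b := by
          rw [h7]; abel
        exact (add_right_cancel (add_right_cancel h8)).symm
      intro j
      have hne : j + 1 ≠ j := by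
        intro h
        have h1 : (1 : Fin n) = 0 := by
          have : j + 1 = j + 0 := by rw [h, add_zero]
          exact add_left_cancel this
        have h2 := congrArg Fin.val h1
        rw [Fin.val_one', Fin.val_zero, Nat.mod_eq_of_lt (by omega : 1 < n)] at h2
        omega
      exact h5 (j + 1) j hne
    have hP := hCLP n ℓ hn hℓ hnℓ F g m E hE
    choose P hP1 hP2 using hP
    obtain ⟨v, _, hv⟩ := hDIM n ℓ F (Fin n → F) (SLn n F) (CLV.act n F) (fun j => E (j + 1) j)
      (fun i => P i ⊓ CLV.fix U) U (by omega) hUt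
      (fun i h hh u hu => by rw [hh.2 u hu]; exact hu)
      (fun i h hh => ⟨1, by rw [pow_one, ← map_pow, hP1 i h hh.1, map_one]⟩)
      (fun i j hji => ⟨hP2 i j hji, fun u hu => hu j⟩) hmod
    have h4 := hv.fintype_card_le_finrank
    rw [Fintype.card_fin] at h4
    have h5 := Submodule.finrank_quotient_add_finrank U
    rw [Module.finrank_fin_fun] at h5
    have h6 : Module.finrank F U = 0 := by omega
    have h7 : U = ⊥ := Submodule.finrank_eq_zero.1 h6
    intro w hw
    have h8 : w ∈ U := hw
    rw [h7, Submodule.mem_bot] at h8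
    exact h8

end Pool.Agent.T2h96.SN
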