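import Pool.Agent.T2h96.SN.Stm

/-!
Arithmetic for PROG (task PRA).
-/

set_option autoImplicit false

namespace Pool.Agent.T2h96.SN

namespace PRA

/-- the exponents of a prime agree -/
theorem fact_le {q K L p ℓ f : ℕ} (hq : q.Prime) (hqL : q ^ K ∣ L) (hmod : ℓ ≡ p [MOD L])
    (hp : 2 ≤ p) (hl : 2 ≤ ℓ) (hf : 1 ≤ f) (hK : p ^ f - 1 < 2 ^ K) :
    (ℓ ^ f - 1).factorization q ≤ (p ^ f - 1).factorization q := by
  have hpf : 1 < p ^ f := Nat.one_lt_pow (by omega) (by omega)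
  have hlf : 1 < ℓ ^ f := Nat.one_lt_pow (by omega) (by omega)
  by_contra hcon
  push Not at hcon
  set v := (p ^ f - 1).factorization q with hv
  have h1 : q ^ (v + 1) ∣ ℓ ^ f - 1 :=
    (hq.pow_dvd_iff_le_factorization (by omega)).2 hcon
  have h2 : q ^ v ∣ p ^ f - 1 := (hq.pow_dvd_iff_le_factorization (by omega)).2 le_rfl
  have h3 : v < K := by
    by_contra h4
    push Not at h4
    have h5 : q ^ v ≤ p ^ f - 1 := Nat.le_of_dvd (by omega) h2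
    have h6 : 2 ^ K ≤ q ^ v :=
      (Nat.pow_le_pow_left hq.two_le K).trans (Nat.pow_le_pow_right hq.pos h4)
    omega
  have h4 : ℓ ≡ p [MOD q ^ (v + 1)] :=
    hmod.of_dvd ((Nat.pow_dvd_pow q h3).trans hqL)
  have h5 : ℓ ^ f ≡ p ^ f [MOD q ^ (v + 1)] := h4.pow f
  have h6 : 1 ≡ ℓ ^ f [MOD q ^ (v + 1)] := (Nat.modEq_iff_dvd' (by omega)).2 h1
  have h7 : q ^ (v + 1) ∣ p ^ f - 1 := (Nat.modEq_iff_dvd' (by omega)).1 (h6.trans h5)
  have h8 := (hq.pow_dvd_iff_le_factorization (by omega)).1 h7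
  omega

end PRA

theorem t_PRA : S_PRA := by
  intro n hn
  obtain ⟨p, hpn, hp⟩ := Nat.exists_infinite_primes (n + 1)
  have hpos : ∀ (x : ℕ), 2 ≤ x → ∀ f ∈ Finset.Icc 1 n, x ^ f - 1 ≠ 0 := by
    intro x hx f hf
    rw [Finset.mem_Icc] at hf
    have h : 1 < x ^ f := Nat.one_lt_pow (by omega) (by omega)
    omega
  set D := ∏ f ∈ Finset.Icc 1 n, (p ^ f - 1) with hD
  have hDpos : 0 < D := Nat.pos_of_ne_zero (Finset.prod_ne_zero_iff.2 (hpos p hp.two_le))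
  refine ⟨D, hDpos, fun B => ?_⟩
  have hL0 : n.factorial ^ D ≠ 0 := pow_ne_zero _ (Nat.factorial_ne_zero n)
  have : NeZero (n.factorial ^ D) := ⟨hL0⟩
  have hcop : Nat.Coprime p (n.factorial ^ D) := by
    apply Nat.Coprime.pow_right
    rw [Nat.Prime.coprime_iff_not_dvd hp, hp.dvd_factorial]
    omega
  obtain ⟨ℓ, hℓB, hℓ, hℓp⟩ := Nat.forall_exists_prime_gt_and_eq_mod
    ((ZMod.isUnit_iff_coprime p (n.factorial ^ D)).2 hcop) B
  refine ⟨ℓ, hℓB, hℓ, ?_⟩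
  intro m hm hq
  have hmod : ℓ ≡ p [MOD n.factorial ^ D] := (ZMod.natCast_eq_natCast_iff _ _ _).1 hℓp
  have hP0 : ∏ f ∈ Finset.Icc 1 n, (ℓ ^ f - 1) ≠ 0 :=
    Finset.prod_ne_zero_iff.2 (hpos ℓ hℓ.two_le)
  have hm0 : m ≠ 0 := fun h => hP0 (by rw [h] at hm; exact Nat.eq_zero_of_zero_dvd hm)
  rw [← Nat.factorization_le_iff_dvd hm0 hDpos.ne']
  intro q
  by_cases hqp : q.Prime
  swap
  · rw [Nat.factorization_eq_zero_of_not_prime _ hqp]
    exact Nat.zero_le _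
  by_cases hqm : q ∣ m
  swap
  · rw [Nat.factorization_eq_zero_of_not_dvd hqm]
    exact Nat.zero_le _
  have hqn := hq q hqp hqm
  have h1 : m.factorization q ≤ (∏ f ∈ Finset.Icc 1 n, (ℓ ^ f - 1)).factorization q :=
    (Nat.factorization_le_iff_dvd hm0 hP0).2 hm q
  refine h1.trans ?_
  rw [hD, Nat.factorization_prod (hpos ℓ hℓ.two_le), Nat.factorization_prod (hpos p hp.two_le),
    Finsupp.finsetSum_apply, Finsupp.finsetSum_apply]
  apply Finset.sum_le_sum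
  intro f hf
  have hf' := Finset.mem_Icc.1 hf
  refine PRA.fact_le hqp (K := D) (L := n.factorial ^ D) ?_ hmod hp.two_le hℓ.two_le hf'.1 ?_
  · exact pow_dvd_pow_of_dvd ((Nat.Prime.dvd_factorial hqp).2 hqn) D
  · have h2 : p ^ f - 1 ≤ D := Nat.le_of_dvd hDpos (Finset.dvd_prod_of_mem _ hf)
    exact h2.trans_lt Nat.lt_two_pow_self

end Pool.Agent.T2h96.SN
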