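import Pool.Agent.T2h96.SN.Stm
import Pool.Agent.T2h61.PR.T_TOP

set_option autoImplicit false

namespace Pool.Agent.T2h96.SN.R2

open Matrix Pool.Agent.T2h61.PR

lemma succ_ne {n : ℕ} [NeZero n] (hn : 3 ≤ n) (k : Fin n) : k + 1 ≠ k := by
  intro h
  have h1 : (1 : Fin n) = 0 := by
    have := congrArg (fun t => -k + t) h
    simpa using this
  have h2 := congrArg Fin.val h1
  rw [Fin.val_one', Fin.val_zero, Nat.mod_eq_of_lt (by omega)] at h2
  omega

lemma cy_eq {n : ℕ} [NeZero n] {A : Type} [CommRing A] (k : Fin n) (c : A) :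
    cy k c = Matrix.transvection (k + 1) k c := rfl

lemma det_cy {n : ℕ} [NeZero n] (hn : 3 ≤ n) {A : Type} [CommRing A] (k : Fin n) (c : A) :
    (cy k c).det = 1 := by
  rw [cy_eq]
  exact Matrix.det_transvection_of_ne _ _ (succ_ne hn k) c

lemma cy_diag {n : ℕ} [NeZero n] (hn : 3 ≤ n) {A : Type} [CommRing A] (k i : Fin n) (c : A) :
    cy k c i i = 1 := by
  have : ¬ (k + 1 = i ∧ k = i) := fun h => succ_ne hn k (h.1.trans h.2.symm)
  simp [cy, this]

lemma zpow {n : ℕ} [NeZero n] (hn : 3 ≤ n) {A : Type} [CommRing A] (k : Fin n) (c z : A)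
    (g : SLn n A) (h : (g : Mn n A) = z • cy k c) : z ^ n = 1 := by
  have h1 := g.2
  rw [h, Matrix.det_smul, det_cy hn, mul_one, Fintype.card_fin] at h1
  exact h1

end Pool.Agent.T2h96.SN.R2

namespace Pool.Agent.T2h96.SN

open Matrix Pool.Agent.T2h61.PR R2
open scoped commutatorElement

theorem t_R2 : S_R2 := by
  classical
  intro n _ hn Λ _ x hx hperf R _ _ τ ρ hCF
  obtain ⟨π, ζ, hζ⟩ := hCF
  let A : Subring R := Subring.closure {τ}
  have hτ : τ ∈ A := Subring.subset_closure rfl
  let H : Subgroup (SLn n R) := (Matrix.SpecialLinearGroup.map (n := Fin n) A.subtype).range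
  have hK : ∀ l, ρ l ∈ Subgroup.center (SLn n R) ⊔ H := by
    have hle : (⊤ : Subgroup Λ) ≤ (Subgroup.center (SLn n R) ⊔ H).comap ρ := by
      rw [← hx, Subgroup.closure_le]
      rintro _ ⟨j, rfl⟩
      obtain ⟨k, rfl⟩ := π.surjective j
      have hz := zpow hn k _ _ _ (hζ k)
      show ρ (x (π k)) ∈ Subgroup.center (SLn n R) ⊔ H
      let z : SLn n R := ⟨ζ k • 1, by
        rw [Matrix.det_smul, Matrix.det_one, mul_one, Fintype.card_fin, hz]⟩
      have hzc : z ∈ Subgroup.center (SLn n R) := by
        rw [Subgroup.mem_center_iff]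
        intro g
        apply Subtype.ext
        show (g : Mn n R) * (ζ k • 1) = (ζ k • 1) * (g : Mn n R)
        rw [mul_smul_comm, smul_mul_assoc, mul_one, one_mul]
      have hw : wt τ k ∈ A := by
        unfold wt
        split_ifs
        · exact hτ
        · exact A.one_mem
      let h : SLn n R := tr (k + 1) k (succ_ne hn k) (wt τ k)
      have hh : h ∈ H := by
        refine ⟨tr (k + 1) k (succ_ne hn k) ⟨wt τ k, hw⟩, ?_⟩
        exact Pool.Agent.T2h61.PR.map_tr A.subtype (k + 1) k (succ_ne hn k) ⟨wt τ k, hw⟩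
      have he : ρ (x (π k)) = z * h := by
        apply Subtype.ext
        show (ρ (x (π k)) : Mn n R) = (ζ k • 1) * cy k (wt τ k)
        rw [hζ k, smul_mul_assoc, one_mul]
      rw [he]
      exact mul_mem (Subgroup.mem_sup_left hzc) (Subgroup.mem_sup_right hh)
    exact fun l => hle (Subgroup.mem_top l)
  have hH : ∀ l, ρ l ∈ H := by
    have hle : (⊤ : Subgroup Λ) ≤ H.comap ρ := by
      rw [← hperf, commutator_def, Subgroup.commutator_le]
      intro a _ b _
      have ha := hK a
      have hb := hK b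
      rw [← SetLike.mem_coe, Subgroup.normal_mul] at ha hb
      obtain ⟨z, hz, h, hh, e1⟩ := ha
      obtain ⟨z', hz', h', hh', e2⟩ := hb
      show ρ ⁅a, b⁆ ∈ H
      rw [map_commutatorElement, ← e1, ← e2]
      have hz1 := Subgroup.mem_center_iff.1 hz
      have hz2 := Subgroup.mem_center_iff.1 hz'
      have : ⁅z * h, z' * h'⁆ = ⁅h, h'⁆ := by
        rw [commutatorElement_def, commutatorElement_def]
        have e3 : z * h * (z' * h') = z * z' * (h * h') := by
          rw [mul_assoc, ← mul_assoc h z' h', hz2 h]; group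
        have e4 : (z * h)⁻¹ * (z' * h')⁻¹ = (z * z')⁻¹ * (h⁻¹ * h'⁻¹) := by
          have h5 : (z' * h') * (z * h) = (z * z') * (h' * h) := by
            rw [mul_assoc, ← mul_assoc h' z h, hz1 h']
            rw [← mul_assoc z' , ← mul_assoc z', hz1 z']
            group
          rw [← _root_.mul_inv_rev, h5, _root_.mul_inv_rev, _root_.mul_inv_rev h' h]
          have hc : z * z' ∈ Subgroup.center (SLn n R) := mul_mem hz hz'
          have hc' := Subgroup.mem_center_iff.1 (inv_mem hc)
          rw [hc' (h⁻¹ * h'⁻¹)]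
        rw [mul_assoc (z * h * (z' * h')), e4, e3]
        have hc : (z * z')⁻¹ ∈ Subgroup.center (SLn n R) := inv_mem (mul_mem hz hz')
        have hc' := Subgroup.mem_center_iff.1 hc
        rw [mul_assoc (z * z') (h * h'), ← mul_assoc (h * h'), hc' (h * h')]
        group
      rw [this]
      show ⁅h, h'⁆ ∈ H
      rw [commutatorElement_def]
      exact mul_mem (mul_mem (mul_mem hh hh') (inv_mem hh)) (inv_mem hh')
    exact fun l => hle (Subgroup.mem_top l)
  obtain ⟨ρ', hρ'⟩ := lift_sl (n := n) A.subtype Subtype.val_injective ρ Set.univ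
    Subgroup.closure_univ (fun s _ => hH s)
  have hent : ∀ l i j, ((ρ' l : Mn n A) i j : R) = (ρ l : Mn n R) i j := by
    intro l i j
    rw [← hρ' l]
    rfl
  refine ⟨A, inferInstance, inferInstance, ⟨τ, hτ⟩, ρ', ?_, π, fun k => ρ' (x (π k)) 0 0,
    fun k => ?_⟩
  · rw [eq_top_iff]
    rintro ⟨y, hy⟩ -
    have key : ∀ (y : R) (hy : y ∈ Subring.closure {τ}),
        (⟨y, hy⟩ : A) ∈ Subring.closure {(⟨τ, hτ⟩ : A)} := by
      intro y hy
      induction hy using Subring.closure_induction with
      | mem z hz =>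
        have hz' : z = τ := hz
        subst hz'
        exact Subring.subset_closure rfl
      | zero => exact Subring.zero_mem _
      | one => exact Subring.one_mem _
      | add a b ha hb h1 h2 => exact Subring.add_mem _ h1 h2
      | neg a ha h1 => exact Subring.neg_mem _ h1
      | mul a b ha hb h1 h2 => exact Subring.mul_mem _ h1 h2
    exact key y hy
  · ext i j
    rw [hent, hζ k]
    simp only [Matrix.smul_apply, smul_eq_mul, Subring.coe_mul]
    have h0 : ((ρ' (x (π k)) : Mn n A) 0 0 : R) = ζ k := by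
      rw [hent, hζ k, Matrix.smul_apply, cy_diag hn, smul_eq_mul, mul_one]
    have h0' : ((ρ' (x (π k)) 0 0 : A) : R) = ζ k := h0
    rw [h0']
    congr 1
    have hw : ((wt (⟨τ, hτ⟩ : A) k : A) : R) = wt τ k := by
      unfold wt
      split_ifs <;> rfl
    simp only [cy, Matrix.add_apply, Matrix.one_apply, Matrix.single_apply, Subring.coe_add]
    split_ifs <;> simp [hw]

end Pool.Agent.T2h96.SN
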