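import Pool.Agent.T2h96.SN.Stm
import Pool.Agent.T2h61.PR.T_TOP

/-!
# Task RAT: rationality
-/

set_option autoImplicit false

namespace Pool.Agent.T2h96.SN

open Matrix Pool.Agent.T2h61.PR

theorem t_RAT : S_FF → S_CA → S_RAT := by
  intro hFF hCA n hn Λ _ hFQ A _ hft ρ hρ K _ _ φ a
  obtain ⟨B, hB⟩ := hFF n hn
  have hyp : ∀ (F : Type) [Field F] [Finite F] (ψ₁ ψ₂ : A →+* F), B < ringChar F → ψ₁ = ψ₂ := by
    intro F _ _ ψ₁ ψ₂ hBF
    have hp : (ringChar F).Prime := by
      rcases CharP.char_is_prime_or_zero F (ringChar F) with h | h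
      · exact h
      · omega
    let s : A →+* F × F := ψ₁.prod ψ₂
    let S := s.range
    have hfin : Finite S := Subtype.finite
    have hch : CharP S (ringChar F) := by
      have h1 := ringChar.charP F
      have h2 : CharP (F × F) (ringChar F) :=
        (RingHom.charP_iff ((RingHom.id F).prod (RingHom.id F))
          (fun a b hab => congrArg Prod.fst hab) (ringChar F)).1 h1
      exact (RingHom.charP_iff S.subtype Subtype.val_injective (ringChar F)).2 h2
    let Ψ : Λ →* SLn n S := (Matrix.SpecialLinearGroup.map s.rangeRestrict).comp ρ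
    have hfinS : Finite (SLn n S) := inferInstance
    obtain ⟨f0, hf0⟩ := (hFQ Ψ.range).1 ⟨Ψ.rangeRestrict, Ψ.rangeRestrict_surjective⟩
    have hk := hB (ringChar F) hp hBF S F ((RingHom.fst F F).comp S.subtype)
      ((RingHom.snd F F).comp S.subtype) (fun s h1 h2 => Subtype.ext (Prod.ext h1 h2))
      (Ψ.range.subtype.comp f0) (by
        intro i j h s'
        obtain ⟨c', hc'⟩ := s.rangeRestrict_surjective s'
        obtain ⟨l, hl⟩ := hρ i j h c'
        obtain ⟨y, hy⟩ := hf0 ⟨Ψ l, ⟨_, rfl⟩⟩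
        refine ⟨y, ?_⟩
        show ((f0 y : Ψ.range) : SLn n S) = _
        rw [hy]
        show Matrix.SpecialLinearGroup.map s.rangeRestrict (ρ l) = _
        rw [hl]
        show Matrix.SpecialLinearGroup.map s.rangeRestrict
          (Pool.Agent.T2h61.PR.tr i j h c') = _
        rw [map_tr, hc']
        rfl)
    ext c'
    obtain ⟨k, hk'⟩ := hk (s.rangeRestrict c')
    have h3 : ((s.rangeRestrict c' : S) : F × F) = (k : F × F) := by
      rw [hk']; simp
    have h4 : (ψ₁ c', ψ₂ c') = ((k : F × F) : F × F) := h3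
    have h5 := congrArg Prod.fst h4
    have h6 := congrArg Prod.snd h4
    simp at h5 h6
    rw [h5, h6]
  obtain ⟨t, ht, -⟩ := hCA A hft B hyp K K φ φ a
  exact ⟨t, ht⟩

end Pool.Agent.T2h96.SN
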