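import Pool.Agent.T2h96.SN.Stm

/-!
# Task TYC: generators of order prime to `ℓ`: the prime divisors of their orders are at most `n`
-/

set_option autoImplicit false

namespace Pool.Agent.T2h96.SN

open Matrix Pool.Agent.T2h61.PR

theorem t_TYC : S_NIL → S_ABEL → S_JOR → S_TYC := by
  intro hNIL hABEL hJOR n mm ℓ _ F _ _ _ hn hmm y hfam hgen hord j r hr hrj
  by_contra hrn
  push Not at hrn
  have hprF : Fact r.Prime := ⟨hr⟩
  have hrl : r ≠ ℓ := by
    rintro rfl
    have := Nat.dvd_gcd hrj dvd_rfl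
    rw [hord j] at this
    exact hr.one_lt.ne' (Nat.dvd_one.1 this)
  have hn0 : NeZero n := ⟨by omega⟩
  have hfin : Finite (SLn n F) := inferInstance
  set c : SLn n F := y j ^ (orderOf (y j) / r) with hc
  have hcr : c ^ r = 1 := by
    rw [hc, ← pow_mul, Nat.div_mul_cancel hrj, pow_orderOf_eq_one]
  have hord0 : 0 < orderOf (y j) := orderOf_pos _
  have hc1 : c ≠ 1 := by
    intro h1
    have h2 := orderOf_dvd_of_pow_eq_one h1
    have h3 := Nat.le_of_dvd (Nat.div_pos (Nat.le_of_dvd hord0 hrj) hr.pos) h2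
    exact absurd h3 (not_le.2 (Nat.div_lt_self hord0 hr.one_lt))
  have hcomm : ∀ k, c * y k = y k * c := by
    intro k
    obtain ⟨i, hij, hik⟩ : ∃ i : Fin mm, i ≠ j ∧ i ≠ k := by
      by_contra hcon
      push Not at hcon
      have hcard : Finset.univ ⊆ ({j, k} : Finset (Fin mm)) := by
        intro i _
        by_cases hij : i = j
        · simp [hij]
        · simp [hcon i hij]
      have := Finset.card_le_card hcard
      rw [Finset.card_univ, Fintype.card_fin] at this
      have h2 : ({j, k} : Finset (Fin mm)).card ≤ 2 := Finset.card_le_two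
      omega
    set H : Subgroup (SLn n F) := Subgroup.closure (y '' {i}ᶜ) with hH
    have hHfin : Finite H := inferInstance
    obtain ⟨hN1, hN2⟩ := hNIL (SLn n F) H hHfin (hfam i) r hr
    have hyj : y j ∈ H := Subgroup.subset_closure ⟨j, fun h => hij (Set.mem_singleton_iff.1 h).symm, rfl⟩
    have hyk : y k ∈ H := Subgroup.subset_closure ⟨k, fun h => hik (Set.mem_singleton_iff.1 h).symm, rfl⟩
    have hcH : c ∈ H := H.pow_mem hyj _
    obtain ⟨a', ha', b', hb', hab, ⟨m, hm⟩, hb'o⟩ := hJOR r (SLn n F) (y k)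
    have ha'H : a' ∈ H := (Subgroup.zpowers_le.2 hyk) ha'
    have hb'H : b' ∈ H := (Subgroup.zpowers_le.2 hyk) hb'
    have hcr1 : c ^ r ^ 1 = 1 := by rw [pow_one]; exact hcr
    have e1 : c * b' = b' * c := hN1 c hcH b' hb'H ⟨1, hcr1⟩ hb'o
    have e2 : c * a' = a' * c := by
      set R : Subgroup (Mn n F)ˣ :=
        (Subgroup.closure {h : SLn n F | h ∈ H ∧ ∃ k : ℕ, h ^ r ^ k = 1}).map
          (Matrix.SpecialLinearGroup.toGL (n := Fin n) (R := F)) with hR
      have hRr : ∀ g ∈ R, ∃ k : ℕ, g ^ r ^ k = 1 := by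
        rintro _ ⟨h, hh, rfl⟩
        obtain ⟨k, hk⟩ := hN2 h hh
        exact ⟨k, by rw [← map_pow, hk, map_one]⟩
      have hcR : Matrix.SpecialLinearGroup.toGL c ∈ R :=
        ⟨c, Subgroup.subset_closure ⟨hcH, 1, hcr1⟩, rfl⟩
      have haR : Matrix.SpecialLinearGroup.toGL a' ∈ R :=
        ⟨a', Subgroup.subset_closure ⟨ha'H, m, hm⟩, rfl⟩
      have := hABEL n ℓ r F hr hrn hrl R hRr _ hcR _ haR
      rw [← map_mul, ← map_mul] at this
      exact Matrix.SpecialLinearGroup.toGL_injective this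
    rw [hab, ← mul_assoc, e2, mul_assoc, e1, mul_assoc]
  have hcen : c ∈ Subgroup.center (SLn n F) := by
    rw [Subgroup.mem_center_iff]
    intro g
    have hg : g ∈ Subgroup.closure (Set.range y) := by rw [hgen]; trivial
    have hle : Subgroup.closure (Set.range y) ≤ Subgroup.centralizer {c} := by
      rw [Subgroup.closure_le]
      rintro _ ⟨k, rfl⟩
      rw [SetLike.mem_coe, Subgroup.mem_centralizer_singleton_iff]
      exact (hcomm k).symm
    exact Subgroup.mem_centralizer_singleton_iff.1 (hle hg)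
  obtain ⟨ζ, hζn, hζ⟩ := Matrix.SpecialLinearGroup.mem_center_iff.1 hcen
  rw [Fintype.card_fin] at hζn
  have hζr : ζ ^ r = 1 := by
    have h1 : ((c ^ r : SLn n F) : Mn n F) = 1 := by rw [hcr]; rfl
    rw [Matrix.SpecialLinearGroup.coe_pow, ← hζ, ← map_pow] at h1
    have h2 := congrFun (congrFun h1 0) 0
    simpa using h2
  have hco : Nat.Coprime n r := ((Nat.Prime.coprime_iff_not_dvd hr).2 (fun h =>
    absurd (Nat.le_of_dvd (by omega) h) (by omega))).symm
  have hζ1 : ζ = 1 := by
    have h1 := orderOf_dvd_of_pow_eq_one hζn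
    have h2 := orderOf_dvd_of_pow_eq_one hζr
    have h3 := Nat.dvd_gcd h1 h2
    rw [hco] at h3
    exact orderOf_eq_one_iff.1 (Nat.dvd_one.1 h3)
  apply hc1
  apply Subtype.ext
  rw [← hζ, hζ1, map_one]
  rfl

end Pool.Agent.T2h96.SN
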