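import Pool.Agent.T2h96.SN.Stm

/-!
# Task TYD: more than `n` elements have a common fixed vector
-/

set_option autoImplicit false

namespace Pool.Agent.T2h96.SN

open Matrix Pool.Agent.T2h61.PR

namespace TYD

/-- the action of `SL (n, F)` on `F ^ n` -/
def act (n : ℕ) (F : Type) [Field F] : SLn n F →* Module.End F (Fin n → F) where
  toFun g := Matrix.toLin' (g : Mn n F)
  map_one' := by
    show Matrix.toLin' (1 : Mn n F) = 1
    rw [Matrix.toLin'_one]; rfl
  map_mul' a b := by
    show Matrix.toLin' ((a : Mn n F) * (b : Mn n F)) = _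
    rw [Matrix.toLin'_mul]; rfl

theorem act_apply {n : ℕ} {F : Type} [Field F] (g : SLn n F) (v : Fin n → F) :
    act n F g v = (g : Mn n F) *ᵥ v := Matrix.toLin'_apply _ _

end TYD

theorem t_TYD : S_NIL → S_DIM → S_TYD := by
  intro hNIL hDIM n m ℓ _ F _ _ _ hn hnm y a hfam ha hal
  by_contra hcon
  push Not at hcon
  have hfin : Finite (SLn n F) := inferInstance
  have hprime : ℓ.Prime := Fact.out
  set P : Fin m → Subgroup (SLn n F) := fun i => Subgroup.closure
    {h | h ∈ Subgroup.closure (y '' {i}ᶜ) ∧ ∃ k : ℕ, h ^ ℓ ^ k = 1} with hP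
  have hPl : ∀ i, ∀ g ∈ P i, ∃ k : ℕ, g ^ ℓ ^ k = 1 := by
    intro i g hg
    exact (hNIL (SLn n F) (Subgroup.closure (y '' {i}ᶜ)) inferInstance (hfam i) ℓ hprime).2 g hg
  have haP : ∀ i j, j ≠ i → a j ∈ P i := by
    intro i j hji
    refine Subgroup.subset_closure ⟨?_, hal j⟩
    have hyj : y j ∈ Subgroup.closure (y '' {i}ᶜ) :=
      Subgroup.subset_closure ⟨j, fun h => hji (Set.mem_singleton_iff.1 h), rfl⟩
    exact (Subgroup.zpowers_le.2 hyj) (ha j)
  have hU : (⊥ : Submodule F (Fin n → F)) ≠ ⊤ := by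
    have hn0 : Nonempty (Fin n) := ⟨⟨0, by omega⟩⟩
    exact bot_ne_top
  obtain ⟨v, -, hv⟩ := hDIM m ℓ F (Fin n → F) (SLn n F) (TYD.act n F) a P ⊥ (by omega) hU
    (by
      intro i g _ u hu
      rw [Submodule.mem_bot] at hu
      rw [hu, map_zero]
      exact Submodule.zero_mem _)
    (by
      intro i g hg
      obtain ⟨k, hk⟩ := hPl i g hg
      exact ⟨k, by rw [← map_pow, hk, map_one]⟩)
    haP
    (by
      intro v hv
      rw [Submodule.mem_bot]
      by_contra hv0
      obtain ⟨j, hj⟩ := hcon v hv0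
      apply hj
      have := hv j
      rw [Submodule.mem_bot, sub_eq_zero, TYD.act_apply] at this
      exact this)
  have h1 := hv.fintype_card_le_finrank
  rw [Fintype.card_fin] at h1
  have h2 : Module.finrank F ((Fin n → F) ⧸ (⊥ : Submodule F (Fin n → F))) ≤ n := by
    refine (Submodule.finrank_quotient_le _).trans ?_
    rw [Module.finrank_fin_fun]
  omega

end Pool.Agent.T2h96.SN
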