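import Pool.Agent.T2h96.SN.Stm

/-!
# (TYQ) more than `n` generators
-/

set_option autoImplicit false

namespace Pool.Agent.T2h96.SN

open Matrix Pool.Agent.T2h61.PR

lemma TYQ.nilFam_map {m : ℕ} {Λ G : Type} [Group Λ] [Group G] (x : Fin m → Λ) (hx : NilFam x)
    (f : Λ →* G) : NilFam (fun j => f (x j)) := by
  intro i
  have h1 : Subgroup.closure ((fun j => f (x j)) '' {i}ᶜ) =
      (Subgroup.closure (x '' {i}ᶜ)).map f := by
    rw [MonoidHom.map_closure, ← Set.image_comp]
    rfl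
  rw [h1]
  haveI := hx i
  exact Group.nilpotent_of_surjective (f.subgroupMap (Subgroup.closure (x '' {i}ᶜ)))
    (f.subgroupMap_surjective _)

lemma TYQ.closure_map {m : ℕ} {Λ G : Type} [Group Λ] [Group G] (x : Fin m → Λ)
    (hx : Subgroup.closure (Set.range x) = ⊤) (f : Λ →* G) (hf : Function.Surjective f) :
    Subgroup.closure (Set.range fun j => f (x j)) = ⊤ := by
  have h1 : (Set.range fun j => f (x j)) = f '' Set.range x := by
    rw [← Set.range_comp]
    rfl
  rw [h1, ← MonoidHom.map_closure, hx, ← MonoidHom.range_eq_map, MonoidHom.range_eq_top]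
  exact hf

theorem t_TYQ (hJ : S_JOR) (hD : S_TYD) (hB : S_TYB) (hC : S_TYC) : S_TYQ := by
  intro n m ℓ _ hn hm Λ _ x hx hN f hf j r hr hrd
  have hfin : Finite (SLn n (ZMod ℓ)) := inferInstance
  let y : Fin m → SLn n (ZMod ℓ) := fun j => f (x j)
  have hyN : NilFam y := TYQ.nilFam_map x hN f
  have hyc : Subgroup.closure (Set.range y) = ⊤ := TYQ.closure_map x hx f hf
  choose a ha b hb hab hae hbo using fun j => hJ ℓ (SLn n (ZMod ℓ)) (y j)
  obtain ⟨v, hv, hva⟩ := hD n m ℓ (ZMod ℓ) hn hm y a hyN ha hae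
  rcases hB n m ℓ (ZMod ℓ) hn (by omega) y a b hyN hyc ha hb hab hae hbo with h | h
  · exact absurd (h v hva) hv
  · have hy : ∀ j, (orderOf (y j)).Coprime ℓ := by
      intro j
      rw [hab j, h j, one_mul]
      exact hbo j
    exact hC n m ℓ (ZMod ℓ) hn (by omega) y hyN hyc hy j r hr hrd

end Pool.Agent.T2h96.SN
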